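import Pool.Agent.Lib.MP_5eff62_lc.PR

/-!
Dyadic cells of the line and of the plane.
-/

set_option autoImplicit false

namespace Pool.Agent.MP_5eff62_lc

open MeasureTheory Set
open scoped ENNReal

/-- The dyadic interval with index `c` at level `L`. -/
def icell (L c : ℕ) : Set ℝ := Ico ((c : ℝ) / 2 ^ L) (((c : ℝ) + 1) / 2 ^ L)

theorem mem_icell {L c : ℕ} {x : ℝ} : x ∈ icell L c ↔ 0 ≤ x ∧ ⌊2 ^ L * x⌋₊ = c := by
  have h0 : (0 : ℝ) < 2 ^ L := by positivity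
  unfold icell
  rw [mem_Ico, div_le_iff₀ h0, lt_div_iff₀ h0]
  constructor
  · rintro ⟨h1, h2⟩
    have hx : 0 ≤ x * 2 ^ L := le_trans (Nat.cast_nonneg c) h1
    have hx' : 0 ≤ x := by
      by_contra hcon
      have : x * 2 ^ L < 0 := mul_neg_of_neg_of_pos (not_le.1 hcon) h0
      linarith
    refine ⟨hx', ?_⟩
    rw [Nat.floor_eq_iff (by positivity)]
    constructor <;> linarith
  · rintro ⟨hx, h⟩
    rw [Nat.floor_eq_iff (by positivity)] at h
    constructor <;> linarith [h.1, h.2]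

theorem measurableSet_icell (L c : ℕ) : MeasurableSet (icell L c) := measurableSet_Ico

theorem ofReal_two_pow_inv (L : ℕ) : ENNReal.ofReal (1 / 2 ^ L) = ((2 : ℝ≥0∞) ^ L)⁻¹ := by
  rw [one_div, ENNReal.ofReal_inv_of_pos (by positivity), ENNReal.ofReal_pow (by norm_num)]
  norm_num

theorem volume_icell (L c : ℕ) : volume (icell L c) = ((2 : ℝ≥0∞) ^ L)⁻¹ := by
  unfold icell
  rw [Real.volume_Ico, ← ofReal_two_pow_inv]
  congr 1
  ring

theorem floor_anc {x : ℝ} {l L : ℕ} (h : l ≤ L) : ⌊2 ^ l * x⌋₊ = ⌊2 ^ L * x⌋₊ / 2 ^ (L - l) := by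
  have h1 : (2 : ℝ) ^ l * x = 2 ^ L * x / ((2 ^ (L - l) : ℕ) : ℝ) := by
    have h2 : (2 : ℝ) ^ L = 2 ^ l * 2 ^ (L - l) := by rw [← pow_add]; congr 1; omega
    have h3 : (2 : ℝ) ^ (L - l) ≠ 0 := by positivity
    push_cast
    rw [h2]
    field_simp
  rw [h1, Nat.floor_div_natCast]

theorem floor_lt {x : ℝ} (L : ℕ) (hx : x ∈ Ico (0 : ℝ) 1) : ⌊2 ^ L * x⌋₊ < 2 ^ L := by
  have h0 : (0 : ℝ) < 2 ^ L := by positivity
  rw [Nat.floor_lt (mul_nonneg h0.le hx.1)]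
  push_cast
  nlinarith [hx.2]

theorem icell_mem_Ico {L c : ℕ} (hc : c < 2 ^ L) {x : ℝ} (hx : x ∈ icell L c) :
    x ∈ Ico (0 : ℝ) 1 := by
  have h0 : (0 : ℝ) < 2 ^ L := by positivity
  refine ⟨(mem_icell.1 hx).1, lt_of_lt_of_le hx.2 ?_⟩
  rw [div_le_one h0]
  exact_mod_cast hc

/-- The number of `c < n` with `p c`. -/
noncomputable def cnt (n : ℕ) (p : ℕ → Prop) : ℕ :=
  open Classical in ((List.range n).filter (fun c => decide (p c))).length

theorem cnt_eq (n : ℕ) (p : ℕ → Prop) [DecidablePred p] :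
    cnt n p = ((Finset.range n).filter p).card := by
  classical
  unfold cnt
  rw [← List.countP_eq_length_filter, ← Nat.count_eq_card_filter_range]
  unfold Nat.count
  congr 1
  funext c
  simp

theorem cnt_le (n : ℕ) (p : ℕ → Prop) : cnt n p ≤ n := by
  classical
  rw [cnt_eq]
  exact (Finset.card_filter_le _ _).trans (by simp)

theorem cnt_mono {n : ℕ} {p q : ℕ → Prop} (h : ∀ c < n, p c → q c) : cnt n p ≤ cnt n q := by
  classical
  rw [cnt_eq, cnt_eq]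
  apply Finset.card_le_card
  intro c hc
  rw [Finset.mem_filter, Finset.mem_range] at hc ⊢
  exact ⟨hc.1, h c hc.1 hc.2⟩

theorem cnt_congr {n : ℕ} {p q : ℕ → Prop} (h : ∀ c < n, p c ↔ q c) : cnt n p = cnt n q :=
  le_antisymm (cnt_mono fun c hc => (h c hc).1) (cnt_mono fun c hc => (h c hc).2)

theorem disjoint_icell {L c d : ℕ} (h : c ≠ d) : Disjoint (icell L c) (icell L d) := by
  rw [Set.disjoint_left]
  intro x hx hx'
  exact h ((mem_icell.1 hx).2.symm.trans (mem_icell.1 hx').2)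

theorem volume_cells (L : ℕ) (p : ℕ → Prop) :
    volume {x : ℝ | x ∈ Ico (0 : ℝ) 1 ∧ p ⌊2 ^ L * x⌋₊} =
      (cnt (2 ^ L) p : ℝ≥0∞) * ((2 : ℝ≥0∞) ^ L)⁻¹ := by
  classical
  have h : {x : ℝ | x ∈ Ico (0 : ℝ) 1 ∧ p ⌊2 ^ L * x⌋₊} =
      ⋃ c ∈ (Finset.range (2 ^ L)).filter p, icell L c := by
    ext x
    simp only [mem_ofPred_eq, mem_iUnion, Finset.mem_filter, Finset.mem_range, exists_prop]
    constructor
    · rintro ⟨hx, hp⟩
      exact ⟨_, ⟨floor_lt L hx, hp⟩, mem_icell.2 ⟨hx.1, rfl⟩⟩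
    · rintro ⟨c, ⟨hc, hp⟩, hx⟩
      refine ⟨icell_mem_Ico hc hx, ?_⟩
      rw [(mem_icell.1 hx).2]
      exact hp
  rw [h, measure_biUnion_finset]
  · simp only [volume_icell, Finset.sum_const, nsmul_eq_mul, cnt_eq]
  · intro c _ d _ hcd
    exact disjoint_icell hcd
  · intro c _
    exact measurableSet_icell L c

/-- The dyadic square of level `k`. -/
def sqr (H k a b : ℕ) : Set (ℝ × ℝ) := icell (H * k) a ×ˢ icell (H * k) b

theorem measurableSet_sqr (H k a b : ℕ) : MeasurableSet (sqr H k a b) :=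
  (measurableSet_icell _ _).prod (measurableSet_icell _ _)

theorem mem_sqr {H k a b : ℕ} {y : ℝ × ℝ} : y ∈ sqr H k a b ↔
    (0 ≤ y.1 ∧ 0 ≤ y.2) ∧ ⌊2 ^ (H * k) * y.1⌋₊ = a ∧ ⌊2 ^ (H * k) * y.2⌋₊ = b := by
  unfold sqr
  rw [mem_prod, mem_icell, mem_icell]
  tauto

theorem volume_sqr (H k a b : ℕ) :
    volume (sqr H k a b) = ((2 : ℝ≥0∞) ^ (H * k))⁻¹ * ((2 : ℝ≥0∞) ^ (H * k))⁻¹ := by
  unfold sqr
  rw [Measure.volume_eq_prod, Measure.prod_prod, volume_icell, volume_icell]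

/-- The unit square. -/
def usq : Set (ℝ × ℝ) := Ico (0 : ℝ) 1 ×ˢ Ico (0 : ℝ) 1

theorem measurableSet_usq : MeasurableSet usq := measurableSet_Ico.prod measurableSet_Ico

/-- The square of level `k'` containing a given square. -/
def anc (H k k' a : ℕ) : ℕ := a / 2 ^ (H * k - H * k')

theorem floor_anc' {H k k' : ℕ} (h : k' ≤ k) (x : ℝ) :
    ⌊2 ^ (H * k') * x⌋₊ = anc H k k' ⌊2 ^ (H * k) * x⌋₊ :=
  floor_anc (Nat.mul_le_mul_left H h)

theorem anc_self (H k a : ℕ) : anc H k k a = a := by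
  unfold anc; simp

theorem anc_anc {H k k' k'' : ℕ} (h1 : k'' ≤ k') (h2 : k' ≤ k) (a : ℕ) :
    anc H k' k'' (anc H k k' a) = anc H k k'' a := by
  unfold anc
  rw [Nat.div_div_eq_div_mul, ← pow_add]
  congr 2
  have := Nat.mul_le_mul_left H h1
  have := Nat.mul_le_mul_left H h2
  omega

theorem anc_lt {H k k' a : ℕ} (h : k' ≤ k) (ha : a < 2 ^ (H * k)) : anc H k k' a < 2 ^ (H * k') := by
  unfold anc
  rw [Nat.div_lt_iff_lt_mul (by positivity), ← pow_add]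
  have := Nat.mul_le_mul_left H h
  have h2 : H * k' + (H * k - H * k') = H * k := by omega
  rwa [h2]

end Pool.Agent.MP_5eff62_lc
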