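import Mathlib

/-!
The definitions used in the statement: prefix-free complexity of rational points, effective
dimension, and Martin-Loef randomness relative to an oracle.
-/

set_option autoImplicit false

namespace Pool.Agent.MP_5eff62_lc

open MeasureTheory
open scoped ENNReal

/-- The `n`-th rational number: the code `⟨a, ⟨b, d⟩⟩` stands for `(a - b) / (d + 1)`. -/
def rat (n : ℕ) : ℚ :=
  ((n.unpair.1 : ℚ) - (n.unpair.2.unpair.1 : ℚ)) / ((n.unpair.2.unpair.2 : ℚ) + 1)

/-- The `n`-th point of the rational plane. -/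
def ratPoint (n : ℕ) : ℚ × ℚ := (rat n.unpair.1, rat n.unpair.2)

/-- Partial functions from binary strings to natural numbers with prefix-free domain. -/
def IsPrefixFree (V : List Bool →. ℕ) : Prop :=
  ∀ p q : List Bool, (V p).Dom → (V q).Dom → p <+: q → p = q

/-- `U` is an optimal (universal) prefix-free machine: a partial recursive function with
prefix-free domain that simulates each such function with a constant increase in length. -/
def IsOptimal (U : List Bool →. ℕ) : Prop :=
  Partrec U ∧ IsPrefixFree U ∧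
    ∀ V : List Bool →. ℕ, Partrec V → IsPrefixFree V →
      ∃ c : ℕ, ∀ (p : List Bool) (n : ℕ), n ∈ V p → ∃ q : List Bool, q.length ≤ p.length + c ∧
        n ∈ U q

/-- The prefix-free complexity `K(q)` of a rational point with respect to `U`: the least length
of a program for a code of `q`. -/
noncomputable def KPoint (U : List Bool →. ℕ) (q : ℚ × ℚ) : ℕ :=
  sInf {L : ℕ | ∃ p : List Bool, p.length = L ∧ ∃ n ∈ U p, ratPoint n = q}

/-- `K_r(x)`: the least complexity of a rational point at Euclidean distance at most `2⁻ʳ`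
from `x`. -/
noncomputable def KPrec (U : List Bool →. ℕ) (x : ℝ × ℝ) (r : ℕ) : ℕ :=
  sInf {L : ℕ | ∃ q : ℚ × ℚ,
    Real.sqrt (((q.1 : ℝ) - x.1) ^ 2 + ((q.2 : ℝ) - x.2) ^ 2) ≤ (1 / 2 : ℝ) ^ r ∧ KPoint U q = L}

/-- The effective dimension of `x`: the lower limit of `K_r(x) / r`. -/
noncomputable def effDim (U : List Bool →. ℕ) (x : ℝ × ℝ) : EReal :=
  Filter.liminf (fun r : ℕ => (((KPrec U x r : ℝ) / (r : ℝ) : ℝ) : EReal)) Filter.atTop

/-- The open interval with code `n`. -/
def interval (n : ℕ) : Set ℝ := Set.Ioo ((rat n.unpair.1 : ℚ) : ℝ) ((rat n.unpair.2 : ℚ) : ℝ)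

/-- The total function `f` is computable with oracle `X`. -/
def ComputableIn (X f : ℕ → ℕ) : Prop :=
  Nat.RecursiveIn {fun n => Part.some (X n)} (fun n => Part.some (f n))

/-- `f` enumerates a Martin-Loef test relative to `X`: the `n`-th set is the union of the
intervals with codes `f ⟨n, i⟩`, and it has measure at most `2⁻ⁿ`. -/
def IsMLTest (X f : ℕ → ℕ) : Prop :=
  ComputableIn X f ∧
    ∀ n : ℕ, volume (⋃ i : ℕ, interval (f (Nat.pair n i))) ≤ ((2 : ℝ≥0∞) ^ n)⁻¹

/-- The real `t` (that is, its fractional part) is Martin-Loef random relative to `X`. -/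
def MLRandom (X : ℕ → ℕ) (t : ℝ) : Prop :=
  ∀ f : ℕ → ℕ, IsMLTest X f → ∃ n : ℕ, Int.fract t ∉ ⋃ i : ℕ, interval (f (Nat.pair n i))

/-- The oracle of a real `z`: it tells, for every `n`, the integer part of `2 ^ n * z` (an
integer `k` is coded by the pair of `max k 0` and `max (-k) 0`). -/
noncomputable def oracle (z : ℝ) (n : ℕ) : ℕ :=
  Nat.pair ⌊2 ^ n * z⌋.toNat (-⌊2 ^ n * z⌋).toNat

/-- The oracle of a point of the plane. -/
noncomputable def oraclePt (x : ℝ × ℝ) (n : ℕ) : ℕ := Nat.pair (oracle x.1 n) (oracle x.2 n)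

/-- The projection of `x` to the line in direction `(cos 2πθ, sin 2πθ)`. -/
noncomputable def proj (θ : ℝ) (x : ℝ × ℝ) : ℝ :=
  Real.cos (2 * Real.pi * θ) * x.1 + Real.sin (2 * Real.pi * θ) * x.2

end Pool.Agent.MP_5eff62_lc
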