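import Pool.Agent.Lib.MP_5eff62_lc.Cell

/-!
The potential of a Frostman density in the plane and the energy of its projections.
-/

set_option autoImplicit false

namespace Pool.Agent.MP_5eff62_lc

open MeasureTheory Set Real
open scoped ENNReal

/-- A Frostman density in the unit square. -/
structure Frost (H : ℕ) (ρ : ℝ × ℝ → ℝ≥0∞) : Prop where
  meas : Measurable ρ
  supp : ∀ y, y ∉ usq → ρ y = 0
  bound : ∀ i a b, ∫⁻ y in sqr H i a b, ρ y ≤ ((2 : ℝ≥0∞) ^ ((H + 1) * i))⁻¹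

/-- The box of radius `2 ^ (- H * i)`. -/
def box (H i : ℕ) : Set (ℝ × ℝ) := {v | |v.1| ≤ 1 / 2 ^ (H * i) ∧ |v.2| ≤ 1 / 2 ^ (H * i)}

theorem measurableSet_box (H i : ℕ) : MeasurableSet (box H i) := by
  unfold box
  apply MeasurableSet.inter
  · exact measurableSet_le (measurable_fst.abs) measurable_const
  · exact measurableSet_le (measurable_snd.abs) measurable_const

theorem floor_near (L : ℕ) (x y : ℝ) (hy : 0 ≤ y) (hx : 0 ≤ x)
    (h : |x - y| ≤ 1 / 2 ^ L) :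
    ⌊2 ^ L * x⌋₊ ∈ Finset.Icc (⌊2 ^ L * y⌋₊ - 1) (⌊2 ^ L * y⌋₊ + 1) := by
  have h0 : (0 : ℝ) < 2 ^ L := by positivity
  have h1 : |2 ^ L * x - 2 ^ L * y| ≤ 1 := by
    rw [← mul_sub, abs_mul, abs_of_pos h0]
    calc _ ≤ (2 : ℝ) ^ L * (1 / 2 ^ L) := by gcongr
      _ = 1 := by field_simp
  rw [abs_le] at h1
  rw [Finset.mem_Icc]
  constructor
  · rw [Nat.sub_le_iff_le_add]
    have : ⌊2 ^ L * y⌋₊ ≤ ⌊2 ^ L * x + 1⌋₊ := Nat.floor_le_floor (by linarith)
    rwa [Nat.floor_add_one (by positivity)] at this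
  · have : ⌊2 ^ L * x⌋₊ ≤ ⌊2 ^ L * y + 1⌋₊ := Nat.floor_le_floor (by linarith)
    rwa [Nat.floor_add_one (by positivity)] at this

theorem box_bound {H : ℕ} {ρ : ℝ × ℝ → ℝ≥0∞} (hρ : Frost H ρ) (i : ℕ) {y : ℝ × ℝ}
    (hy : y ∈ usq) :
    ∫⁻ v, (box H i).indicator (fun v => ρ (y + v)) v ≤ 9 * ((2 : ℝ≥0∞) ^ ((H + 1) * i))⁻¹ := by
  set A : Set (ℝ × ℝ) := {w | w - y ∈ box H i} with hA
  have h1 : ∫⁻ v, (box H i).indicator (fun v => ρ (y + v)) v = ∫⁻ w, A.indicator ρ w := by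
    rw [← lintegral_add_left_eq_self (fun w => A.indicator ρ w) y]
    apply lintegral_congr
    intro v
    by_cases hv : v ∈ box H i
    · rw [indicator_of_mem hv, indicator_of_mem]
      rw [hA, mem_ofPred_eq, add_sub_cancel_left]
      exact hv
    · rw [indicator_of_notMem hv, indicator_of_notMem]
      rw [hA, mem_ofPred_eq, add_sub_cancel_left]
      exact hv
  rw [h1]
  set a := ⌊2 ^ (H * i) * y.1⌋₊
  set b := ⌊2 ^ (H * i) * y.2⌋₊
  set F : Finset (ℕ × ℕ) := Finset.Icc (a - 1) (a + 1) ×ˢ Finset.Icc (b - 1) (b + 1) with hF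
  have h2 : ∀ w, A.indicator ρ w ≤ ∑ q ∈ F, (sqr H i q.1 q.2).indicator ρ w := by
    intro w
    by_cases hw : w ∈ A
    · rw [indicator_of_mem hw]
      by_cases hu : w ∈ usq
      · have hm : (⌊2 ^ (H * i) * w.1⌋₊, ⌊2 ^ (H * i) * w.2⌋₊) ∈ F := by
          rw [hF, Finset.mem_product]
          exact ⟨floor_near _ _ _ hy.1.1 hu.1.1 hw.1, floor_near _ _ _ hy.2.1 hu.2.1 hw.2⟩
        refine le_trans ?_ (Finset.single_le_sum (f := fun q : ℕ × ℕ =>
          (sqr H i q.1 q.2).indicator ρ w) (fun _ _ => zero_le) hm)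
        dsimp only
        rw [indicator_of_mem]
        rw [mem_sqr]
        exact ⟨⟨hu.1.1, hu.2.1⟩, rfl, rfl⟩
      · rw [hρ.supp w hu]
        exact zero_le
    · rw [indicator_of_notMem hw]
      exact zero_le
  calc ∫⁻ w, A.indicator ρ w ≤ ∫⁻ w, ∑ q ∈ F, (sqr H i q.1 q.2).indicator ρ w :=
        lintegral_mono h2
    _ = ∑ q ∈ F, ∫⁻ w, (sqr H i q.1 q.2).indicator ρ w := by
        rw [lintegral_finsetSum]
        intro q _
        exact hρ.meas.indicator (measurableSet_sqr _ _ _ _)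
    _ ≤ ∑ _q ∈ F, ((2 : ℝ≥0∞) ^ ((H + 1) * i))⁻¹ := by
        apply Finset.sum_le_sum
        intro q _
        rw [lintegral_indicator (measurableSet_sqr _ _ _ _)]
        exact hρ.bound _ _ _
    _ = (F.card : ℝ≥0∞) * ((2 : ℝ≥0∞) ^ ((H + 1) * i))⁻¹ := by
        rw [Finset.sum_const, nsmul_eq_mul]
    _ ≤ 9 * ((2 : ℝ≥0∞) ^ ((H + 1) * i))⁻¹ := by
        gcongr
        have : F.card ≤ 9 := by
          rw [hF, Finset.card_product, Nat.card_Icc, Nat.card_Icc]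
          have h3 : a + 1 + 1 - (a - 1) ≤ 3 := by omega
          have h4 : b + 1 + 1 - (b - 1) ≤ 3 := by omega
          exact Nat.mul_le_mul h3 h4
        exact_mod_cast this

theorem total_le {H : ℕ} {ρ : ℝ × ℝ → ℝ≥0∞} (hρ : Frost H ρ) : ∫⁻ y, ρ y ≤ 1 := by
  have h := hρ.bound 0 0 0
  rw [mul_zero, pow_zero, inv_one] at h
  refine le_trans ?_ h
  rw [← lintegral_indicator (measurableSet_sqr _ _ _ _)]
  apply lintegral_mono
  intro y
  by_cases hy : y ∈ usq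
  · rw [indicator_of_mem]
    rw [mem_sqr, mul_zero, pow_zero, one_mul, one_mul]
    exact ⟨⟨hy.1.1, hy.2.1⟩, Nat.floor_eq_zero.2 hy.1.2, Nat.floor_eq_zero.2 hy.2.2⟩
  · rw [hρ.supp y hy]
    exact zero_le

theorem kernel_le {H : ℕ} (hH : 1 ≤ H) (v : ℝ × ℝ) :
    ENNReal.ofReal (1 / √(v.1 ^ 2 + v.2 ^ 2)) ≤
      1 + ∑' i : ℕ, (2 : ℝ≥0∞) ^ (H * (i + 1)) * (box H i).indicator (fun _ => 1) v := by
  set r := √(v.1 ^ 2 + v.2 ^ 2) with hr
  have hr0 : 0 ≤ r := Real.sqrt_nonneg _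
  rcases hr0.eq_or_lt with h | h
  · rw [← h]; simp
  rcases le_total 1 r with h1 | h1
  · refine le_trans ?_ (le_add_of_nonneg_right zero_le)
    rw [← ENNReal.ofReal_one]
    apply ENNReal.ofReal_le_ofReal
    rw [div_le_one h]
    exact h1
  · obtain ⟨i, hi1, hi2⟩ := exists_nat_pow_near_of_lt_one (x := r) (y := (1 / 2 : ℝ) ^ H) h h1
      (by positivity) (pow_lt_one₀ (by norm_num) (by norm_num) (by omega))
    rw [← pow_mul] at hi1 hi2
    rw [one_div_pow] at hi1 hi2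
    have hb : v ∈ box H i := by
      have q1 : |v.1| ≤ r := by
        apply Real.abs_le_sqrt; nlinarith [sq_nonneg v.2]
      have q2 : |v.2| ≤ r := by
        apply Real.abs_le_sqrt; nlinarith [sq_nonneg v.1]
      exact ⟨q1.trans hi2, q2.trans hi2⟩
    refine le_trans ?_ (le_add_of_nonneg_left zero_le)
    refine le_trans ?_ (ENNReal.le_tsum i)
    rw [indicator_of_mem hb, mul_one]
    have : (2 : ℝ≥0∞) ^ (H * (i + 1)) = ENNReal.ofReal (2 ^ (H * (i + 1))) := by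
      rw [ENNReal.ofReal_pow (by norm_num)]; norm_num
    rw [this]
    apply ENNReal.ofReal_le_ofReal
    rw [div_le_iff₀ h]
    rw [div_lt_iff₀ (by positivity)] at hi1
    linarith

theorem geom_sum (H : ℕ) :
    ∑' i : ℕ, (2 : ℝ≥0∞) ^ (H * (i + 1)) * (9 * ((2 : ℝ≥0∞) ^ ((H + 1) * i))⁻¹) = 18 * 2 ^ H := by
  have h : ∀ i : ℕ, (2 : ℝ≥0∞) ^ (H * (i + 1)) * (9 * ((2 : ℝ≥0∞) ^ ((H + 1) * i))⁻¹) =
      9 * 2 ^ H * 2⁻¹ ^ i := by
    intro i
    have e1 : (2 : ℝ≥0∞) ^ (H * (i + 1)) = 2 ^ H * 2 ^ (H * i) := by rw [← pow_add]; ring_nf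
    have e2 : (2 : ℝ≥0∞) ^ ((H + 1) * i) = 2 ^ (H * i) * 2 ^ i := by rw [← pow_add]; ring_nf
    have hne : (2 : ℝ≥0∞) ^ (H * i) ≠ 0 := by positivity
    have hnt : (2 : ℝ≥0∞) ^ (H * i) ≠ ⊤ := ENNReal.pow_ne_top (by norm_num)
    have e3 : ((2 : ℝ≥0∞) ^ i)⁻¹ = 2⁻¹ ^ i := ENNReal.inv_pow
    rw [e1, e2, ENNReal.mul_inv (Or.inl hne) (Or.inl hnt), e3]
    calc (2 : ℝ≥0∞) ^ H * 2 ^ (H * i) * (9 * (((2 : ℝ≥0∞) ^ (H * i))⁻¹ * 2⁻¹ ^ i)) =
          9 * 2 ^ H * 2⁻¹ ^ i * (2 ^ (H * i) * ((2 : ℝ≥0∞) ^ (H * i))⁻¹) := by ring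
      _ = _ := by rw [ENNReal.mul_inv_cancel hne hnt, mul_one]
  rw [tsum_congr h, ENNReal.tsum_mul_left, ENNReal.tsum_geometric]
  have : (1 - 2⁻¹ : ℝ≥0∞)⁻¹ = 2 := by
    rw [ENNReal.one_sub_inv_two, inv_inv]
  rw [this]
  ring

theorem potential {H : ℕ} (hH : 1 ≤ H) {ρ : ℝ × ℝ → ℝ≥0∞} (hρ : Frost H ρ) {y : ℝ × ℝ}
    (hy : y ∈ usq) :
    ∫⁻ v : ℝ × ℝ, ENNReal.ofReal (1 / √(v.1 ^ 2 + v.2 ^ 2)) * ρ (y + v) ≤ 1 + 18 * 2 ^ H := by
  have hm : Measurable fun v : ℝ × ℝ => ρ (y + v) := hρ.meas.comp (measurable_const_add y)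
  calc ∫⁻ v : ℝ × ℝ, ENNReal.ofReal (1 / √(v.1 ^ 2 + v.2 ^ 2)) * ρ (y + v)
      ≤ ∫⁻ v : ℝ × ℝ, (ρ (y + v) + ∑' i : ℕ, (2 : ℝ≥0∞) ^ (H * (i + 1)) *
          (box H i).indicator (fun v => ρ (y + v)) v) := by
        apply lintegral_mono
        intro v
        dsimp only
        calc _ ≤ (1 + ∑' i : ℕ, (2 : ℝ≥0∞) ^ (H * (i + 1)) *
              (box H i).indicator (fun _ => 1) v) * ρ (y + v) := by
              gcongr
              exact kernel_le hH v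
          _ = _ := by
              rw [add_mul, one_mul, ← ENNReal.tsum_mul_right]
              congr 1
              apply tsum_congr
              intro i
              rw [mul_assoc]
              congr 1
              by_cases hv : v ∈ box H i
              · rw [indicator_of_mem hv, indicator_of_mem hv, one_mul]
              · rw [indicator_of_notMem hv, indicator_of_notMem hv, zero_mul]
    _ = (∫⁻ v : ℝ × ℝ, ρ (y + v)) + ∑' i : ℕ, (2 : ℝ≥0∞) ^ (H * (i + 1)) *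
          ∫⁻ v, (box H i).indicator (fun v => ρ (y + v)) v := by
        rw [lintegral_add_left hm, lintegral_tsum]
        · congr 1
          apply tsum_congr
          intro i
          rw [lintegral_const_mul _ (hm.indicator (measurableSet_box H i))]
        · intro i
          exact ((hm.indicator (measurableSet_box H i)).const_mul _).aemeasurable
    _ ≤ 1 + ∑' i : ℕ, (2 : ℝ≥0∞) ^ (H * (i + 1)) * (9 * ((2 : ℝ≥0∞) ^ ((H + 1) * i))⁻¹) := by
        apply add_le_add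
        · rw [lintegral_add_left_eq_self (fun w => ρ w) y]
          exact total_le hρ
        · apply ENNReal.tsum_le_tsum
          intro i
          gcongr
          exact box_bound hρ i hy
    _ = 1 + 18 * 2 ^ H := by rw [geom_sum]

theorem polar_bound {H : ℕ} (hH : 1 ≤ H) {ρ : ℝ × ℝ → ℝ≥0∞} (hρ : Frost H ρ) {y : ℝ × ℝ}
    (hy : y ∈ usq) :
    ∫⁻ p in Ioi (0 : ℝ) ×ˢ Ioo (-π) π, ρ (y.1 + p.1 * cos p.2, y.2 + p.1 * sin p.2) ≤
      1 + 18 * 2 ^ H := by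
  refine le_trans (le_of_eq ?_) (potential hH hρ hy)
  rw [← lintegral_comp_polarCoord_symm]
  apply setLIntegral_congr_fun (measurableSet_Ioi.prod measurableSet_Ioo)
  rintro ⟨r, φ⟩ hp
  have hr : 0 < r := hp.1
  dsimp only
  rw [polarCoord_symm_apply]
  dsimp only
  have h1 : √((r * cos φ) ^ 2 + (r * sin φ) ^ 2) = r := by
    have : (r * cos φ) ^ 2 + (r * sin φ) ^ 2 = r ^ 2 := by
      have := Real.cos_sq_add_sin_sq φ
      calc _ = r ^ 2 * (cos φ ^ 2 + sin φ ^ 2) := by ring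
        _ = _ := by rw [this, mul_one]
    rw [this, Real.sqrt_sq hr.le]
  rw [h1, smul_eq_mul, ← mul_assoc, ← ENNReal.ofReal_mul hr.le]
  have h2 : r * (1 / r) = 1 := by field_simp
  rw [h2, ENNReal.ofReal_one, one_mul]
  rfl

/-- The integral over half a line. -/
noncomputable def Fp (ρ : ℝ × ℝ → ℝ≥0∞) (y : ℝ × ℝ) (φ : ℝ) : ℝ≥0∞ :=
  ∫⁻ w in Ioi (0 : ℝ), ρ (y.1 + w * cos φ, y.2 + w * sin φ)

/-- The integral over a line. -/
noncomputable def Fl (ρ : ℝ × ℝ → ℝ≥0∞) (y : ℝ × ℝ) (φ : ℝ) : ℝ≥0∞ :=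
  ∫⁻ w : ℝ, ρ (y.1 + w * cos φ, y.2 + w * sin φ)

theorem measurable_line {ρ : ℝ × ℝ → ℝ≥0∞} (hρ : Measurable ρ) :
    Measurable fun q : ((ℝ × ℝ) × ℝ) × ℝ =>
      ρ (q.1.1.1 + q.2 * cos q.1.2, q.1.1.2 + q.2 * sin q.1.2) := by
  apply hρ.comp
  fun_prop

theorem measurable_Fl {ρ : ℝ × ℝ → ℝ≥0∞} (hρ : Measurable ρ) :
    Measurable fun q : (ℝ × ℝ) × ℝ => Fl ρ q.1 q.2 :=
  (measurable_line hρ).lintegral_prod_right'

theorem measurable_Fp {ρ : ℝ × ℝ → ℝ≥0∞} (hρ : Measurable ρ) (y : ℝ × ℝ) :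
    Measurable fun φ : ℝ => Fp ρ y φ := by
  have h := (measurable_line hρ).lintegral_prod_right' (ν := volume.restrict (Ioi (0 : ℝ)))
  exact h.comp (measurable_prodMk_left (x := y))

theorem Fl_eq (ρ : ℝ × ℝ → ℝ≥0∞) (y : ℝ × ℝ) (φ : ℝ) :
    Fl ρ y φ = Fp ρ y φ + Fp ρ y (φ + π) := by
  unfold Fl
  rw [← lintegral_add_compl _ (measurableSet_Ioi (a := (0 : ℝ)))]
  unfold Fp
  congr 1
  rw [compl_Ioi]
  have h1 : ∫⁻ w in Iic (0 : ℝ), ρ (y.1 + w * cos φ, y.2 + w * sin φ) =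
      ∫⁻ w in Iio (0 : ℝ), ρ (y.1 + w * cos φ, y.2 + w * sin φ) :=
    setLIntegral_congr Iio_ae_eq_Iic.symm
  rw [h1, ← lintegral_indicator measurableSet_Iio, ← lintegral_indicator measurableSet_Ioi,
    ← lintegral_neg_eq_self]
  apply lintegral_congr
  intro w
  rw [Real.cos_add_pi, Real.sin_add_pi]
  by_cases hw : 0 < w
  · rw [indicator_of_mem (by simpa using hw), indicator_of_mem (by simpa using hw)]
    ring_nf
  · rw [indicator_of_notMem (by simpa using hw), indicator_of_notMem (by simpa using hw)]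

theorem lintegral_periodic {g : ℝ → ℝ≥0∞} (hg : ∀ x, g (x + 2 * π) = g x) (a b : ℝ) :
    ∫⁻ x in Ioc a (a + 2 * π), g x = ∫⁻ x in Ioc b (b + 2 * π), g x := by
  have hper : Function.Periodic g (2 * π) := hg
  refine (isAddFundamentalDomain_Ioc (μ := volume) Real.two_pi_pos a).setLIntegral_eq
    (isAddFundamentalDomain_Ioc (μ := volume) Real.two_pi_pos b) g ?_
  rintro ⟨x, hx⟩ z
  obtain ⟨n, rfl⟩ := AddSubgroup.mem_zmultiples_iff.1 hx
  change g (n • (2 * π) + z) = g z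
  rw [add_comm]
  exact hper.zsmul n z

theorem Fl_periodic (ρ : ℝ × ℝ → ℝ≥0∞) (y : ℝ × ℝ) (φ : ℝ) :
    Fl ρ y (φ + 2 * π) = Fl ρ y φ := by
  unfold Fl
  rw [Real.cos_add_two_pi, Real.sin_add_two_pi]

theorem Fp_periodic (ρ : ℝ × ℝ → ℝ≥0∞) (y : ℝ × ℝ) (φ : ℝ) :
    Fp ρ y (φ + 2 * π) = Fp ρ y φ := by
  unfold Fp
  rw [Real.cos_add_two_pi, Real.sin_add_two_pi]

theorem lintegral_shift (g : ℝ → ℝ≥0∞) (a b c : ℝ) :
    ∫⁻ x in Ioc a b, g (x + c) = ∫⁻ x in Ioc (a + c) (b + c), g x := by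
  rw [← lintegral_indicator measurableSet_Ioc, ← lintegral_indicator measurableSet_Ioc,
    ← lintegral_add_right_eq_self (fun x => (Ioc (a + c) (b + c)).indicator g x) c]
  apply lintegral_congr
  intro x
  by_cases hx : x ∈ Ioc a b
  · rw [indicator_of_mem hx, indicator_of_mem (by
      constructor
      · linarith [hx.1]
      · linarith [hx.2])]
  · rw [indicator_of_notMem hx, indicator_of_notMem (by
      intro h
      apply hx
      constructor
      · linarith [h.1]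
      · linarith [h.2])]

theorem Fp_total {H : ℕ} (hH : 1 ≤ H) {ρ : ℝ × ℝ → ℝ≥0∞} (hρ : Frost H ρ) {y : ℝ × ℝ}
    (hy : y ∈ usq) : ∫⁻ φ in Ioc (-π) (-π + 2 * π), Fp ρ y φ ≤ 1 + 18 * 2 ^ H := by
  refine le_trans (le_of_eq ?_) (polar_bound hH hρ hy)
  have e : -π + 2 * π = π := by ring
  rw [e, ← setLIntegral_congr Ioo_ae_eq_Ioc]
  rw [Measure.volume_eq_prod, ← Measure.prod_restrict, lintegral_prod_symm']
  · rfl
  · exact (measurable_line hρ.meas).comp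
      (f := fun p : ℝ × ℝ => ((y, p.2), p.1)) (by fun_prop)

theorem Fl_total {H : ℕ} (hH : 1 ≤ H) {ρ : ℝ × ℝ → ℝ≥0∞} (hρ : Frost H ρ) {y : ℝ × ℝ}
    (hy : y ∈ usq) : ∫⁻ φ in Ioc (-π) (-π + 2 * π), Fl ρ y φ ≤ 2 * (1 + 18 * 2 ^ H) := by
  have h1 : ∫⁻ φ in Ioc (-π) (-π + 2 * π), Fl ρ y φ =
      (∫⁻ φ in Ioc (-π) (-π + 2 * π), Fp ρ y φ) +
        ∫⁻ φ in Ioc (-π) (-π + 2 * π), Fp ρ y (φ + π) := by
    simp only [Fl_eq]
    rw [lintegral_add_left (measurable_Fp hρ.meas y)]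
  rw [h1, lintegral_shift (fun φ => Fp ρ y φ)]
  have e : -π + 2 * π + π = (-π + π) + 2 * π := by ring
  rw [e, lintegral_periodic (Fp_periodic ρ y) (-π + π) (-π),
    two_mul (1 + 18 * 2 ^ H : ℝ≥0∞)]
  exact add_le_add (Fp_total hH hρ hy) (Fp_total hH hρ hy)

theorem lintegral_scale {g : ℝ → ℝ≥0∞} (hg : Measurable g) (c : ℝ)
    (hper : ∀ x, g (x + 2 * π) = g x) :
    ∫⁻ θ in Ioc (0 : ℝ) 1, g (2 * π * θ + c) =
      ENNReal.ofReal (1 / (2 * π)) * ∫⁻ φ in Ioc (-π) (-π + 2 * π), g φ := by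
  have hpi : (0 : ℝ) < 2 * π := Real.two_pi_pos
  have h1 : ∫⁻ θ in Ioc (0 : ℝ) 1, g (2 * π * θ + c) =
      ∫⁻ θ : ℝ, (Ioc (0 : ℝ) (0 + 2 * π)).indicator (fun x => g (x + c)) (2 * π * θ) := by
    rw [← lintegral_indicator measurableSet_Ioc]
    apply lintegral_congr
    intro θ
    by_cases hx : θ ∈ Ioc (0 : ℝ) 1
    · rw [indicator_of_mem hx, indicator_of_mem]
      constructor
      · have := hx.1; positivity
      · have := hx.2; nlinarith
    · rw [indicator_of_notMem hx, indicator_of_notMem]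
      intro h
      apply hx
      constructor
      · have := h.1
        by_contra hcon
        nlinarith
      · have := h.2
        by_contra hcon
        nlinarith
  rw [h1]
  have hmeas : Measurable ((Ioc (0 : ℝ) (0 + 2 * π)).indicator (fun x => g (x + c))) :=
    (hg.comp (measurable_add_const c)).indicator measurableSet_Ioc
  rw [← lintegral_map hmeas (measurable_const_mul (2 * π)),
    Real.map_volume_mul_left hpi.ne', lintegral_smul_measure, smul_eq_mul,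
    abs_of_pos (inv_pos.2 hpi), one_div, lintegral_indicator measurableSet_Ioc,
    lintegral_shift g]
  have e : 0 + 2 * π + c = (0 + c) + 2 * π := by ring
  rw [e, lintegral_periodic hper (0 + c) (-π)]

theorem angle_total {H : ℕ} (hH : 1 ≤ H) {ρ : ℝ × ℝ → ℝ≥0∞} (hρ : Frost H ρ) {y : ℝ × ℝ}
    (hy : y ∈ usq) (c : ℝ) :
    ∫⁻ θ in Ico (0 : ℝ) 1, Fl ρ y (2 * π * θ + c) ≤ 1 + 18 * 2 ^ H := by
  rw [setLIntegral_congr Ico_ae_eq_Ioc]
  have hm : Measurable fun φ => Fl ρ y φ := (measurable_Fl hρ.meas).comp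
    (measurable_prodMk_left (x := y))
  rw [lintegral_scale hm c (Fl_periodic ρ y)]
  calc _ ≤ ENNReal.ofReal (1 / (2 * π)) * (2 * (1 + 18 * 2 ^ H)) := by
        gcongr
        exact Fl_total hH hρ hy
    _ = (ENNReal.ofReal (1 / (2 * π)) * 2) * (1 + 18 * 2 ^ H) := by ring
    _ ≤ 1 * (1 + 18 * 2 ^ H) := by
        gcongr
        have h2 : (2 : ℝ≥0∞) = ENNReal.ofReal 2 := by norm_num
        rw [h2, ← ENNReal.ofReal_mul (by positivity), ← ENNReal.ofReal_one]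
        apply ENNReal.ofReal_le_ofReal
        rw [div_mul_eq_mul_div, one_mul, div_le_one (by positivity)]
        have := Real.pi_gt_three
        linarith
    _ = _ := one_mul _

/-- The rotation. -/
def rot (c s : ℝ) (p : ℝ × ℝ) : ℝ × ℝ := (c * p.1 + -s * p.2, s * p.1 + c * p.2)

theorem measurable_rot (c s : ℝ) : Measurable (rot c s) := by
  unfold rot
  fun_prop

theorem measurePreserving_rot (c s : ℝ) (h : c ^ 2 + s ^ 2 = 1) :
    MeasurePreserving (rot c s) (volume : Measure (ℝ × ℝ)) volume := by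
  refine ⟨measurable_rot c s, ?_⟩
  set f : ℝ × ℝ →ₗ[ℝ] ℝ × ℝ :=
    Matrix.toLin (Module.Basis.finTwoProd ℝ) (Module.Basis.finTwoProd ℝ) !![c, -s; s, c] with hf
  have hfr : rot c s = f := by
    funext p
    rw [hf, Matrix.toLin_finTwoProd_apply]
    rfl
  have hdet : LinearMap.det f = 1 := by
    rw [hf, LinearMap.det_toLin, Matrix.det_fin_two_of]
    linarith
  rw [hfr, Measure.map_linearMap_addHaar_eq_smul_addHaar volume (by rw [hdet]; norm_num), hdet]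
  simp

/-- The density of the projection. -/
noncomputable def gd (ρ : ℝ × ℝ → ℝ≥0∞) (θ t : ℝ) : ℝ≥0∞ :=
  ∫⁻ u : ℝ, ρ (rot (cos (2 * π * θ)) (sin (2 * π * θ)) (t, u))

theorem gd_eq (ρ : ℝ × ℝ → ℝ≥0∞) (θ t u : ℝ) :
    gd ρ θ t = Fl ρ (rot (cos (2 * π * θ)) (sin (2 * π * θ)) (t, u)) (2 * π * θ + π / 2) := by
  unfold gd Fl
  rw [← lintegral_add_left_eq_self (fun u' : ℝ =>
    ρ (rot (cos (2 * π * θ)) (sin (2 * π * θ)) (t, u'))) u]
  apply lintegral_congr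
  intro w
  rw [Real.cos_add_pi_div_two, Real.sin_add_pi_div_two]
  unfold rot
  congr 1
  ext <;> dsimp only <;> ring

theorem measurable_rot_prod {ρ : ℝ × ℝ → ℝ≥0∞} (hρ : Measurable ρ) (c s : ℝ) :
    Measurable fun q : ℝ × ℝ => ρ (rot c s q) := hρ.comp (measurable_rot c s)

theorem measurable_gd {ρ : ℝ × ℝ → ℝ≥0∞} (hρ : Measurable ρ) (θ : ℝ) :
    Measurable fun t : ℝ => gd ρ θ t :=
  (measurable_rot_prod hρ (cos (2 * π * θ)) (sin (2 * π * θ))).lintegral_prod_right'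

theorem lintegral_gd {ρ : ℝ × ℝ → ℝ≥0∞} (hρ : Measurable ρ) (θ : ℝ) (f : ℝ → ℝ≥0∞)
    (hf : Measurable f) :
    ∫⁻ t, f t * gd ρ θ t = ∫⁻ y : ℝ × ℝ, f (cos (2 * π * θ) * y.1 + sin (2 * π * θ) * y.2) * ρ y := by
  set c := cos (2 * π * θ) with hc
  set s := sin (2 * π * θ) with hs
  have h1 : c ^ 2 + s ^ 2 = 1 := Real.cos_sq_add_sin_sq _
  have hm : Measurable fun y : ℝ × ℝ => f (c * y.1 + s * y.2) * ρ y := by
    apply Measurable.mul _ hρ
    apply hf.comp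
    fun_prop
  have hm2 : Measurable fun a : ℝ × ℝ => f (c * (rot c s a).1 + s * (rot c s a).2) *
      ρ (rot c s a) := hm.comp (measurable_rot c s)
  rw [← (measurePreserving_rot c s h1).lintegral_comp hm, Measure.volume_eq_prod,
    lintegral_prod _ hm2.aemeasurable]
  apply lintegral_congr
  intro t
  have hm3 : Measurable fun u : ℝ => ρ (rot c s (t, u)) :=
    (measurable_rot_prod hρ c s).comp (measurable_prodMk_left (x := t))
  unfold gd
  rw [← hc, ← hs, ← lintegral_const_mul _ hm3]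
  apply lintegral_congr
  intro u
  have h2 : c * (rot c s (t, u)).1 + s * (rot c s (t, u)).2 = t := by
    unfold rot
    dsimp only
    calc _ = (c ^ 2 + s ^ 2) * t := by ring
      _ = t := by rw [h1, one_mul]
  rw [h2]

theorem energy {H : ℕ} (hH : 1 ≤ H) {ρ : ℝ × ℝ → ℝ≥0∞} (hρ : Frost H ρ) :
    ∫⁻ θ in Ico (0 : ℝ) 1, ∫⁻ t, gd ρ θ t * gd ρ θ t ≤ (1 + 18 * 2 ^ H) * ∫⁻ y, ρ y := by
  have h1 : ∀ θ, ∫⁻ t, gd ρ θ t * gd ρ θ t = ∫⁻ y, ρ y * Fl ρ y (2 * π * θ + π / 2) := by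
    intro θ
    set c := cos (2 * π * θ) with hc
    set s := sin (2 * π * θ) with hs
    have hcs : c ^ 2 + s ^ 2 = 1 := Real.cos_sq_add_sin_sq _
    have hm : Measurable fun y : ℝ × ℝ => ρ y * Fl ρ y (2 * π * θ + π / 2) := by
      apply hρ.meas.mul
      exact (measurable_Fl hρ.meas).comp (measurable_prodMk_right (y := 2 * π * θ + π / 2))
    have hm2 : Measurable fun a : ℝ × ℝ => ρ (rot c s a) *
        Fl ρ (rot c s a) (2 * π * θ + π / 2) := hm.comp (measurable_rot c s)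
    rw [← (measurePreserving_rot c s hcs).lintegral_comp hm, Measure.volume_eq_prod,
      lintegral_prod _ hm2.aemeasurable]
    apply lintegral_congr
    intro t
    have h2 : ∀ u, ρ (rot c s (t, u)) * Fl ρ (rot c s (t, u)) (2 * π * θ + π / 2) =
        ρ (rot c s (t, u)) * gd ρ θ t := by
      intro u
      rw [← gd_eq]
    have hm3 : Measurable fun u : ℝ => ρ (rot c s (t, u)) :=
      (measurable_rot_prod hρ.meas c s).comp (measurable_prodMk_left (x := t))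
    simp only [h2]
    rw [lintegral_mul_const _ hm3]
    rfl
  simp only [h1]
  have hjm : Measurable fun q : ℝ × (ℝ × ℝ) => ρ q.2 * Fl ρ q.2 (2 * π * q.1 + π / 2) := by
    apply (hρ.meas.comp measurable_snd).mul
    exact (measurable_Fl hρ.meas).comp
      (f := fun q : ℝ × (ℝ × ℝ) => (q.2, 2 * π * q.1 + π / 2)) (by fun_prop)
  rw [lintegral_lintegral_swap hjm.aemeasurable, ← lintegral_const_mul _ hρ.meas]
  apply lintegral_mono
  intro y
  dsimp only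
  have hFm : Measurable fun θ : ℝ => Fl ρ y (2 * π * θ + π / 2) :=
    (measurable_Fl hρ.meas).comp (f := fun θ : ℝ => (y, 2 * π * θ + π / 2)) (by fun_prop)
  rw [lintegral_const_mul _ hFm]
  by_cases hy : y ∈ usq
  · rw [mul_comm]
    gcongr
    exact angle_total hH hρ hy _
  · rw [hρ.supp y hy, zero_mul]
    exact zero_le

end Pool.Agent.MP_5eff62_lc
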