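import Pool.Agent.Lib.MP_5eff62_lc.Trig

/-!
Primitive recursive approximations of the projections of a point.
-/

set_option autoImplicit false
set_option synthInstance.maxSize 100000

namespace Pool.Agent.MP_5eff62_lc

open Real

/-- Approximations of `2 ^ t * (2 + 2 * sin (2 * π * j / 2 ^ t))`. -/
def sinN (t j : ℕ) : ℕ := cosN (t + 2) (4 * j + 3 * 2 ^ t) / 4

theorem sinN_err (t j : ℕ) :
    |(sinN t j : ℝ) - 2 ^ t * (2 + 2 * Real.sin (2 * π * (j / 2 ^ t)))| ≤ 2 := by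
  have h1 := cosN_err (t + 2) (4 * j + 3 * 2 ^ t)
  have h2 := natDiv_err (cosN (t + 2) (4 * j + 3 * 2 ^ t)) 4 (by norm_num)
  have h3 : cosA (4 * j + 3 * 2 ^ t) (t + 2) = 2 + 2 * Real.sin (2 * π * (j / 2 ^ t)) := by
    unfold cosA
    have h : 2 * π * ((4 * j + 3 * 2 ^ t : ℕ) : ℝ) / 2 ^ (t + 2) =
        2 * π * (j / 2 ^ t) - π / 2 + 2 * π := by
      have h0 : (2 : ℝ) ^ t ≠ 0 := by positivity
      rw [pow_add]
      push_cast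
      field_simp
      ring
    rw [h, Real.cos_add_two_pi, Real.cos_sub_pi_div_two]
  rw [h3] at h1
  unfold sinN
  set q := cosN (t + 2) (4 * j + 3 * 2 ^ t)
  set w := 2 + 2 * Real.sin (2 * π * (j / 2 ^ t))
  have h5 : |(q : ℝ) / ((4 : ℕ) : ℝ) - 2 ^ t * w| ≤ 1 := by
    have : (q : ℝ) / ((4 : ℕ) : ℝ) - 2 ^ t * w = ((q : ℝ) - 2 ^ (t + 2) * w) / 4 := by
      rw [pow_add]; push_cast; ring
    rw [this, abs_div]
    rw [div_le_iff₀ (by norm_num)]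
    norm_num
    linarith
  calc _ ≤ |((q / 4 : ℕ) : ℝ) - (q : ℝ) / ((4 : ℕ) : ℝ)| +
        |(q : ℝ) / ((4 : ℕ) : ℝ) - 2 ^ t * w| := abs_sub_le _ _ _
    _ ≤ 2 := by linarith

theorem cosN_err' (t j : ℕ) :
    |(cosN t j : ℝ) - 2 ^ t * (2 + 2 * Real.cos (2 * π * (j / 2 ^ t)))| ≤ 2 := by
  have := cosN_err t j
  unfold cosA at this
  rwa [mul_div_assoc] at this

theorem sinN_le (t j : ℕ) : sinN t j ≤ 4 * 2 ^ t := by
  unfold sinN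
  apply Nat.div_le_of_le_mul
  have := cosN_le (t + 2) (4 * j + 3 * 2 ^ t)
  calc _ ≤ _ := this
    _ = _ := by rw [pow_add]; ring

theorem sin_lip (a b : ℝ) : |Real.sin a - Real.sin b| ≤ |a - b| := by
  have := Real.abs_cos_sub_cos_le (a - π / 2) (b - π / 2)
  rw [Real.cos_sub_pi_div_two, Real.cos_sub_pi_div_two] at this
  have h : a - π / 2 - (b - π / 2) = a - b := by ring
  rwa [h] at this

theorem four_pi_le : 4 * π ≤ 13 := by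
  have := Real.pi_lt_d2
  norm_num at this ⊢
  linarith

theorem angle_err (L j : ℕ) (θ : ℝ) (hθ : |θ - j / 2 ^ L| ≤ 1 / 2 ^ L) :
    2 ^ L * (2 * |2 * π * (j / 2 ^ L) - 2 * π * θ|) ≤ 13 := by
  have h1 : |2 * π * ((j : ℝ) / 2 ^ L) - 2 * π * θ| = 2 * π * |θ - j / 2 ^ L| := by
    rw [← mul_sub, abs_mul, abs_of_pos (by positivity), abs_sub_comm]
  rw [h1]
  calc (2 : ℝ) ^ L * (2 * (2 * π * |θ - j / 2 ^ L|)) ≤ 2 ^ L * (2 * (2 * π * (1 / 2 ^ L))) := by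
        gcongr
    _ = 4 * π := by field_simp; ring
    _ ≤ 13 := four_pi_le

theorem cosN_err2 (L j : ℕ) (θ : ℝ) (hθ : |θ - j / 2 ^ L| ≤ 1 / 2 ^ L) :
    |(cosN L j : ℝ) - 2 ^ L * (2 + 2 * Real.cos (2 * π * θ))| ≤ 15 := by
  have h1 := cosN_err' L j
  have h2 := angle_err L j θ hθ
  have h3 := Real.abs_cos_sub_cos_le (2 * π * (j / 2 ^ L)) (2 * π * θ)
  have h4 : |2 ^ L * (2 + 2 * Real.cos (2 * π * ((j : ℝ) / 2 ^ L))) -
      2 ^ L * (2 + 2 * Real.cos (2 * π * θ))| ≤ 13 := by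
    have : 2 ^ L * (2 + 2 * Real.cos (2 * π * ((j : ℝ) / 2 ^ L))) -
      2 ^ L * (2 + 2 * Real.cos (2 * π * θ)) = 2 ^ L * (2 * (Real.cos (2 * π * ((j : ℝ) / 2 ^ L)) -
        Real.cos (2 * π * θ))) := by ring
    rw [this, abs_mul, abs_mul, abs_of_pos (by positivity), abs_of_pos (by norm_num : (0 : ℝ) < 2)]
    refine le_trans ?_ h2
    gcongr
  calc _ ≤ _ := abs_sub_le _ (2 ^ L * (2 + 2 * Real.cos (2 * π * ((j : ℝ) / 2 ^ L)))) _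
    _ ≤ 15 := by linarith

theorem sinN_err2 (L j : ℕ) (θ : ℝ) (hθ : |θ - j / 2 ^ L| ≤ 1 / 2 ^ L) :
    |(sinN L j : ℝ) - 2 ^ L * (2 + 2 * Real.sin (2 * π * θ))| ≤ 15 := by
  have h1 := sinN_err L j
  have h2 := angle_err L j θ hθ
  have h3 := sin_lip (2 * π * (j / 2 ^ L)) (2 * π * θ)
  have h4 : |2 ^ L * (2 + 2 * Real.sin (2 * π * ((j : ℝ) / 2 ^ L))) -
      2 ^ L * (2 + 2 * Real.sin (2 * π * θ))| ≤ 13 := by
    have : 2 ^ L * (2 + 2 * Real.sin (2 * π * ((j : ℝ) / 2 ^ L))) -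
      2 ^ L * (2 + 2 * Real.sin (2 * π * θ)) = 2 ^ L * (2 * (Real.sin (2 * π * ((j : ℝ) / 2 ^ L)) -
        Real.sin (2 * π * θ))) := by ring
    rw [this, abs_mul, abs_mul, abs_of_pos (by positivity), abs_of_pos (by norm_num : (0 : ℝ) < 2)]
    refine le_trans ?_ h2
    gcongr
  calc _ ≤ _ := abs_sub_le _ (2 ^ L * (2 + 2 * Real.sin (2 * π * ((j : ℝ) / 2 ^ L)))) _
    _ ≤ 15 := by linarith

theorem prod_err (L X C Z : ℕ) (u A : ℝ) (hX : X ≤ (Z + 1) * 2 ^ L)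
    (hXu : |(X : ℝ) - 2 ^ L * u| ≤ 1) (hCA : |(C : ℝ) - 2 ^ L * A| ≤ 15) (hA0 : 0 ≤ A)
    (hA : A ≤ 4) : |((X * C / 2 ^ L : ℕ) : ℝ) - 2 ^ L * (u * A)| ≤ 15 * (Z + 1) + 5 := by
  have h0 : (0 : ℝ) < 2 ^ L := by positivity
  have h1 := natDiv_err (X * C) (2 ^ L) (by positivity)
  have hX' : (X : ℝ) / 2 ^ L ≤ Z + 1 := by
    rw [div_le_iff₀ h0]; exact_mod_cast hX
  have hX0 : 0 ≤ (X : ℝ) / 2 ^ L := by positivity
  have h2 : ((X * C : ℕ) : ℝ) / ((2 ^ L : ℕ) : ℝ) - 2 ^ L * (u * A) =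
      (X : ℝ) / 2 ^ L * ((C : ℝ) - 2 ^ L * A) + A * ((X : ℝ) - 2 ^ L * u) := by
    push_cast; field_simp; ring
  have h3 : |((X * C : ℕ) : ℝ) / ((2 ^ L : ℕ) : ℝ) - 2 ^ L * (u * A)| ≤ 15 * (Z + 1) + 4 := by
    rw [h2]
    calc _ ≤ |(X : ℝ) / 2 ^ L * ((C : ℝ) - 2 ^ L * A)| + |A * ((X : ℝ) - 2 ^ L * u)| :=
          abs_add_le _ _
      _ = (X : ℝ) / 2 ^ L * |(C : ℝ) - 2 ^ L * A| + A * |(X : ℝ) - 2 ^ L * u| := by
          rw [abs_mul, abs_mul, abs_of_nonneg hX0, abs_of_nonneg hA0]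
      _ ≤ (Z + 1) * 15 + 4 * 1 := by gcongr
      _ = _ := by ring
  calc _ ≤ _ := abs_sub_le _ (((X * C : ℕ) : ℝ) / ((2 ^ L : ℕ) : ℝ)) _
    _ ≤ _ := by linarith

/-- The approximation of the projection. -/
def projN (N Z₁ Z₂ K L a b j : ℕ) : ℕ :=
  ((Z₁ * 2 ^ L + a) * cosN L j / 2 ^ L + (Z₂ * 2 ^ L + b) * sinN L j / 2 ^ L + 2 * K * 2 ^ L -
    (2 * (Z₁ * 2 ^ L + a) + N * cosN L j + (2 * (Z₂ * 2 ^ L + b) + N * sinN L j))) / 2

theorem exists_projN (z₁ z₂ : ℤ) : ∃ (T E : ℕ) (P : ℕ → ℕ → ℕ → ℕ → ℕ),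
    PF (fun q : ℕ × ℕ × ℕ × ℕ => P q.1 q.2.1 q.2.2.1 q.2.2.2) ∧
    ∀ (L a b j : ℕ), a < 2 ^ L → b < 2 ^ L → ∀ x₁ x₂ θ : ℝ, |x₁ - (z₁ + a / 2 ^ L)| ≤ 1 / 2 ^ L →
      |x₂ - (z₂ + b / 2 ^ L)| ≤ 1 / 2 ^ L → |θ - j / 2 ^ L| ≤ 1 / 2 ^ L →
      E ≤ P L a b j ∧
      |2 ^ L * (Real.cos (2 * π * θ) * x₁ + Real.sin (2 * π * θ) * x₂ + T) - P L a b j| ≤ E := by
  obtain ⟨N, Z₁, Z₂, hZ₁, hZ₂, hN₁, hN₂⟩ : ∃ N Z₁ Z₂ : ℕ, (Z₁ : ℤ) = z₁ + N ∧ (Z₂ : ℤ) = z₂ + N ∧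
      Z₁ ≤ 2 * N ∧ Z₂ ≤ 2 * N := by
    refine ⟨z₁.natAbs + z₂.natAbs, (z₁ + (z₁.natAbs + z₂.natAbs : ℕ)).toNat,
      (z₂ + (z₁.natAbs + z₂.natAbs : ℕ)).toNat, ?_, ?_, ?_, ?_⟩ <;> omega
  obtain ⟨E, hE⟩ : ∃ E : ℕ, E = 100 * N + 100 := ⟨_, rfl⟩
  obtain ⟨K, hK⟩ : ∃ K : ℕ, K = 4 * N + 2 + 2 * E := ⟨_, rfl⟩
  refine ⟨K - 2 * N, E, projN N Z₁ Z₂ K, ?_, ?_⟩
  · unfold projN sinN
    infer_instance
  · intro L a b j ha hb x₁ x₂ θ hx₁ hx₂ hθ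
    have h0 : (0 : ℝ) < 2 ^ L := by positivity
    have hC := cosN_err2 L j θ hθ
    have hS := sinN_err2 L j θ hθ
    have hCle := cosN_le L j
    have hSle := sinN_le L j
    set C := cosN L j with hCdef
    set S := sinN L j with hSdef
    set c := Real.cos (2 * π * θ) with hc
    set s := Real.sin (2 * π * θ) with hs
    have hc1 : -1 ≤ c := Real.neg_one_le_cos _
    have hc2 : c ≤ 1 := Real.cos_le_one _
    have hs1 : -1 ≤ s := Real.neg_one_le_sin _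
    have hs2 : s ≤ 1 := Real.sin_le_one _
    obtain ⟨X, hX⟩ : ∃ X : ℕ, X = Z₁ * 2 ^ L + a := ⟨_, rfl⟩
    obtain ⟨Y, hY⟩ : ∃ Y : ℕ, Y = Z₂ * 2 ^ L + b := ⟨_, rfl⟩
    have hZ₁' : (Z₁ : ℝ) = z₁ + N := by exact_mod_cast hZ₁
    have hZ₂' : (Z₂ : ℝ) = z₂ + N := by exact_mod_cast hZ₂
    have hXu : |(X : ℝ) - 2 ^ L * (x₁ + N)| ≤ 1 := by
      have : (X : ℝ) - 2 ^ L * (x₁ + N) = - (2 ^ L * (x₁ - (z₁ + a / 2 ^ L))) := by
        rw [hX]; push_cast; rw [hZ₁']; field_simp; ring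
      rw [this, abs_neg, abs_mul, abs_of_pos h0]
      calc _ ≤ (2 : ℝ) ^ L * (1 / 2 ^ L) := by gcongr
        _ = 1 := by field_simp
    have hYu : |(Y : ℝ) - 2 ^ L * (x₂ + N)| ≤ 1 := by
      have : (Y : ℝ) - 2 ^ L * (x₂ + N) = - (2 ^ L * (x₂ - (z₂ + b / 2 ^ L))) := by
        rw [hY]; push_cast; rw [hZ₂']; field_simp; ring
      rw [this, abs_neg, abs_mul, abs_of_pos h0]
      calc _ ≤ (2 : ℝ) ^ L * (1 / 2 ^ L) := by gcongr
        _ = 1 := by field_simp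
    have hXle : X ≤ (Z₁ + 1) * 2 ^ L := by rw [hX, add_mul]; omega
    have hYle : Y ≤ (Z₂ + 1) * 2 ^ L := by rw [hY, add_mul]; omega
    have e1 := prod_err L X C Z₁ (x₁ + N) (2 + 2 * c) hXle hXu hC (by linarith) (by linarith)
    have e2 := prod_err L Y S Z₂ (x₂ + N) (2 + 2 * s) hYle hYu hS (by linarith) (by linarith)
    have hN₁' : (Z₁ : ℝ) ≤ 2 * N := by exact_mod_cast hN₁
    have hN₂' : (Z₂ : ℝ) ≤ 2 * N := by exact_mod_cast hN₂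
    -- the subtraction is exact
    have hneg : 2 * X + N * C + (2 * Y + N * S) ≤ 2 * K * 2 ^ L := by
      have q1 : N * C ≤ N * (4 * 2 ^ L) := Nat.mul_le_mul_left _ hCle
      have q2 : N * S ≤ N * (4 * 2 ^ L) := Nat.mul_le_mul_left _ hSle
      have q3 : X ≤ (2 * N + 1) * 2 ^ L := hXle.trans (Nat.mul_le_mul_right _ (by omega))
      have q4 : Y ≤ (2 * N + 1) * 2 ^ L := hYle.trans (Nat.mul_le_mul_right _ (by omega))
      calc 2 * X + N * C + (2 * Y + N * S) ≤ 2 * ((2 * N + 1) * 2 ^ L) + N * (4 * 2 ^ L) +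
            (2 * ((2 * N + 1) * 2 ^ L) + N * (4 * 2 ^ L)) := by gcongr
        _ = (16 * N + 4) * 2 ^ L := by ring
        _ ≤ 2 * K * 2 ^ L := Nat.mul_le_mul_right _ (by omega)
    have hP : |2 ^ L * (c * x₁ + s * x₂ + ((K - 2 * N : ℕ) : ℝ)) -
        projN N Z₁ Z₂ K L a b j| ≤ E := by
      unfold projN
      rw [← hX, ← hY, ← hCdef, ← hSdef]
      obtain ⟨M, hM⟩ : ∃ M : ℕ, M = X * C / 2 ^ L + Y * S / 2 ^ L + 2 * K * 2 ^ L -
        (2 * X + N * C + (2 * Y + N * S)) := ⟨_, rfl⟩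
      rw [← hM]
      have hMr : (M : ℝ) = ((X * C / 2 ^ L : ℕ) : ℝ) + ((Y * S / 2 ^ L : ℕ) : ℝ) +
          2 * K * 2 ^ L - (2 * X + N * C + (2 * Y + N * S)) := by
        rw [hM, Nat.cast_sub (hneg.trans (Nat.le_add_left _ _))]
        push_cast
        ring
      have hdiv := natDiv_err M 2 (by norm_num)
      have hK' : ((K - 2 * N : ℕ) : ℝ) = K - 2 * N := by
        rw [Nat.cast_sub (by omega)]; push_cast; ring
      have hNC : |(N : ℝ) * C - N * (2 ^ L * (2 + 2 * c))| ≤ N * 15 := by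
        rw [← mul_sub, abs_mul, abs_of_nonneg (Nat.cast_nonneg N)]
        gcongr
      have hNS : |(N : ℝ) * S - N * (2 ^ L * (2 + 2 * s))| ≤ N * 15 := by
        rw [← mul_sub, abs_mul, abs_of_nonneg (Nat.cast_nonneg N)]
        gcongr
      have hErr : (E : ℝ) = 100 * N + 100 := by rw [hE]; push_cast; ring
      have hident : (2 : ℝ) ^ L * (c * x₁ + s * x₂ + (K - 2 * N)) =
          (2 ^ L * ((x₁ + N) * (2 + 2 * c)) + 2 ^ L * ((x₂ + N) * (2 + 2 * s)) + 2 * K * 2 ^ L -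
            (2 * (2 ^ L * (x₁ + N)) + N * (2 ^ L * (2 + 2 * c)) +
              (2 * (2 ^ L * (x₂ + N)) + N * (2 ^ L * (2 + 2 * s))))) / 2 := by
        ring
      rw [hK', hident]
      push_cast at hdiv
      rw [abs_le] at e1 e2 hdiv hNC hNS hXu hYu ⊢
      rw [hMr] at hdiv
      rw [hErr]
      have hN0 : (0 : ℝ) ≤ N := Nat.cast_nonneg N
      constructor <;> linarith [e1.1, e1.2, e2.1, e2.2, hdiv.1, hdiv.2, hNC.1, hNC.2, hNS.1,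
        hNS.2, hXu.1, hXu.2, hYu.1, hYu.2]
    refine ⟨?_, hP⟩
    -- lower bound
    have hx₁b : |x₁| ≤ N + 1 := by
      have h1 : (0 : ℝ) ≤ (a : ℝ) / 2 ^ L := by positivity
      have h2 : ((a : ℝ) + 1) / 2 ^ L ≤ 1 := by
        rw [div_le_one h0]; exact_mod_cast ha
      rw [add_div] at h2
      have h3 : -(N : ℝ) ≤ z₁ := by
        have : (0 : ℤ) ≤ z₁ + N := by rw [← hZ₁]; exact Int.natCast_nonneg _
        have : (0 : ℝ) ≤ z₁ + N := by exact_mod_cast this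
        linarith
      have h4 : (z₁ : ℝ) ≤ N := by linarith
      have h5 : (1 : ℝ) / 2 ^ L ≤ 1 := by
        rw [div_le_one h0]; exact one_le_pow₀ (by norm_num)
      rw [abs_le] at hx₁ ⊢
      constructor <;> linarith [hx₁.1, hx₁.2]
    have hx₂b : |x₂| ≤ N + 1 := by
      have h1 : (0 : ℝ) ≤ (b : ℝ) / 2 ^ L := by positivity
      have h2 : ((b : ℝ) + 1) / 2 ^ L ≤ 1 := by
        rw [div_le_one h0]; exact_mod_cast hb
      rw [add_div] at h2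
      have h3 : -(N : ℝ) ≤ z₂ := by
        have : (0 : ℤ) ≤ z₂ + N := by rw [← hZ₂]; exact Int.natCast_nonneg _
        have : (0 : ℝ) ≤ z₂ + N := by exact_mod_cast this
        linarith
      have h4 : (z₂ : ℝ) ≤ N := by linarith
      have h5 : (1 : ℝ) / 2 ^ L ≤ 1 := by
        rw [div_le_one h0]; exact one_le_pow₀ (by norm_num)
      rw [abs_le] at hx₂ ⊢
      constructor <;> linarith [hx₂.1, hx₂.2]
    have hcx : |c * x₁| ≤ N + 1 := by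
      rw [abs_mul]
      calc |c| * |x₁| ≤ 1 * (N + 1) := by
            apply mul_le_mul (abs_le.2 ⟨hc1, hc2⟩) hx₁b (abs_nonneg _) (by norm_num)
        _ = _ := by ring
    have hsx : |s * x₂| ≤ N + 1 := by
      rw [abs_mul]
      calc |s| * |x₂| ≤ 1 * (N + 1) := by
            apply mul_le_mul (abs_le.2 ⟨hs1, hs2⟩) hx₂b (abs_nonneg _) (by norm_num)
        _ = _ := by ring
    have hK' : ((K - 2 * N : ℕ) : ℝ) = K - 2 * N := by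
      rw [Nat.cast_sub (by omega)]; push_cast; ring
    have hKr : (K : ℝ) = 4 * N + 2 + 2 * E := by rw [hK]; push_cast; ring
    have hE0 : (0 : ℝ) ≤ E := Nat.cast_nonneg E
    have hge : (2 * E : ℝ) ≤ 2 ^ L * (c * x₁ + s * x₂ + ((K - 2 * N : ℕ) : ℝ)) := by
      have h1 : (2 * E : ℝ) ≤ c * x₁ + s * x₂ + ((K - 2 * N : ℕ) : ℝ) := by
        rw [hK', hKr]
        rw [abs_le] at hcx hsx
        linarith [hcx.1, hsx.1]
      have h2 : (1 : ℝ) ≤ 2 ^ L := one_le_pow₀ (by norm_num)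
      nlinarith
    rw [abs_le] at hP
    have : (E : ℝ) ≤ projN N Z₁ Z₂ K L a b j := by linarith [hP.2]
    exact_mod_cast this

end Pool.Agent.MP_5eff62_lc
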