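import Pool.Agent.Lib.MP_5eff62_lc.Machine
import Pool.Agent.Lib.MP_5eff62_lc.Proj

/-!
The main theorem.
-/

set_option autoImplicit false
set_option synthInstance.maxSize 100000

namespace Pool.Agent.MP_5eff62_lc

open MeasureTheory Set
open scoped ENNReal

instance PF.unpair_self : PF Nat.unpair := ⟨Primrec.unpair⟩

theorem rat_code (a b N : ℕ) (hN : 1 ≤ N) :
    ((rat (Nat.pair a (Nat.pair b (N - 1))) : ℚ) : ℝ) = ((a : ℝ) - b) / N := by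
  unfold rat
  simp only [Nat.unpair_pair]
  rw [Nat.cast_sub hN]
  push_cast
  congr 1
  ring

/-- The code of the interval from `(a - b) / N` to `(a' - b') / N`. -/
def ivl (a b a' b' N : ℕ) : ℕ :=
  Nat.pair (Nat.pair a (Nat.pair b (N - 1))) (Nat.pair a' (Nat.pair b' (N - 1)))

theorem interval_ivl (a b a' b' N : ℕ) (hN : 1 ≤ N) :
    interval (ivl a b a' b' N) = Ioo (((a : ℝ) - b) / N) (((a' : ℝ) - b') / N) := by
  unfold interval ivl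
  simp only [Nat.unpair_pair]
  rw [rat_code _ _ _ hN, rat_code _ _ _ hN]

theorem not_dyadic {X : ℕ → ℕ} {θ : ℝ} (hr : MLRandom X θ) (j L : ℕ)
    (h : Int.fract θ = (j : ℝ) / 2 ^ L) : False := by
  obtain ⟨n, hn⟩ := hr (fun m => ivl (j * 2 ^ (m.unpair.1 + 1)) (2 ^ L)
    (j * 2 ^ (m.unpair.1 + 1) + 2 ^ L) 0 (2 ^ (L + (m.unpair.1 + 1)))) (by
      refine ⟨?_, ?_⟩
      · have h : PF (fun m : ℕ => ivl (j * 2 ^ (m.unpair.1 + 1)) (2 ^ L)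
            (j * 2 ^ (m.unpair.1 + 1) + 2 ^ L) 0 (2 ^ (L + (m.unpair.1 + 1)))) := by
          unfold ivl
          infer_instance
        exact TR.prim (Y := X) h.pr
      · intro n
        simp only [Nat.unpair_pair, iUnion_const]
        rw [interval_ivl _ _ _ _ _ Nat.one_le_two_pow, Real.volume_Ioo, ← ofReal_two_pow_inv]
        apply ENNReal.ofReal_le_ofReal
        apply le_of_eq
        push_cast
        rw [pow_add, pow_succ]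
        field_simp
        ring)
  apply hn
  rw [mem_iUnion]
  refine ⟨0, ?_⟩
  simp only [Nat.unpair_pair]
  rw [interval_ivl _ _ _ _ _ Nat.one_le_two_pow, h]
  have h0 : (0 : ℝ) < 2 ^ L := by positivity
  have h1 : (0 : ℝ) < 2 ^ (n + 1) := by positivity
  push_cast
  rw [pow_add 2 L]
  constructor
  · rw [div_lt_div_iff₀ (by positivity) h0]
    nlinarith [mul_pos h0 h0]
  · rw [div_lt_div_iff₀ h0 (by positivity)]
    nlinarith [mul_pos h0 h0]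

/-- The digits of the fractional part, from the oracle. -/
def digit (p m L w : ℕ) : ℕ :=
  (w.unpair.1 + m * 2 ^ L) - (w.unpair.2 + p * 2 ^ L)

theorem digit_oracle (x : ℝ) (L : ℕ) :
    digit ⌊x⌋.toNat (-⌊x⌋).toNat L (oracle x L) = ⌊2 ^ L * Int.fract x⌋₊ := by
  unfold digit oracle
  simp only [Nat.unpair_pair]
  have h1 : ⌊2 ^ L * x⌋ = ⌊2 ^ L * Int.fract x⌋ + 2 ^ L * ⌊x⌋ := by
    have e : 2 ^ L * x = 2 ^ L * Int.fract x + ((2 ^ L * ⌊x⌋ : ℤ) : ℝ) := by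
      push_cast
      rw [Int.fract]
      ring
    rw [e, Int.floor_add_intCast]
  have h2 : 0 ≤ ⌊2 ^ L * Int.fract x⌋ :=
    Int.floor_nonneg.2 (mul_nonneg (by positivity) (Int.fract_nonneg x))
  have h3 : ((⌊2 ^ L * Int.fract x⌋₊ : ℕ) : ℤ) = ⌊2 ^ L * Int.fract x⌋ := by
    rw [← Int.floor_toNat, Int.toNat_of_nonneg h2]
  have h4 : (((-⌊x⌋).toNat * 2 ^ L : ℕ) : ℤ) - ((⌊x⌋.toNat * 2 ^ L : ℕ) : ℤ) =
      - (2 ^ L * ⌊x⌋) := by
    have h5 : ((-⌊x⌋).toNat : ℤ) - (⌊x⌋.toNat : ℤ) = - ⌊x⌋ := by omega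
    push_cast
    calc ((-⌊x⌋).toNat : ℤ) * 2 ^ L - (⌊x⌋.toNat : ℤ) * 2 ^ L =
          (((-⌊x⌋).toNat : ℤ) - (⌊x⌋.toNat : ℤ)) * 2 ^ L := by ring
      _ = _ := by rw [h5]; ring
  have h6 : (⌊2 ^ L * x⌋.toNat : ℤ) - ((-⌊2 ^ L * x⌋).toNat : ℤ) = ⌊2 ^ L * x⌋ := by omega
  generalize (-⌊x⌋).toNat * 2 ^ L = A at h4 ⊢
  generalize ⌊x⌋.toNat * 2 ^ L = B at h4 ⊢
  generalize ⌊2 ^ L * x⌋.toNat = t at h6 ⊢
  generalize (-⌊2 ^ L * x⌋).toNat = t' at h6 ⊢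
  omega

open Classical in
/-- The test for the direction, relative to the point. -/
noncomputable def Data.tst (D : Data) (e₀ p₁ m₁ p₂ m₂ n k j w : ℕ) : ℕ :=
  if D.good0 (5 * (e₀ + n)) k (digit p₁ m₁ (D.H * k) w.unpair.1)
      (digit p₂ m₂ (D.H * k) w.unpair.2) j ∧ j < 2 ^ (D.H * k)
    then ivl j 0 (j + 1) 0 (2 ^ (D.H * k)) else ivl 0 0 0 0 1

theorem Data.primrec_tst (D : Data) (e₀ p₁ m₁ p₂ m₂ : ℕ) :
    PF (fun q : ℕ => D.tst e₀ p₁ m₁ p₂ m₂ q.unpair.1.unpair.1 q.unpair.1.unpair.2.unpair.1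
      q.unpair.1.unpair.2.unpair.2 q.unpair.2) := by
  unfold Data.tst ivl digit
  infer_instance

/-- The set of directions in the test. -/
def Data.Tset (D : Data) (n : ℕ) (y : ℝ × ℝ) : Set ℝ :=
  {θ | θ ∈ Ico (0 : ℝ) 1 ∧
    ∃ k, D.good0 n k ⌊2 ^ (D.H * k) * y.1⌋₊ ⌊2 ^ (D.H * k) * y.2⌋₊ ⌊2 ^ (D.H * k) * θ⌋₊}

theorem Data.volume_Tset (D : Data) (e : ℕ) (y : ℝ × ℝ)
    (hc : ∀ k, ¬ D.cert e k ⌊2 ^ (D.H * k) * y.1⌋₊ ⌊2 ^ (D.H * k) * y.2⌋₊) :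
    volume (D.Tset (5 * e) y) ≤ ((2 : ℝ≥0∞) ^ e)⁻¹ := by
  have hgood : ∀ (k : ℕ) (θ : ℝ), D.good (5 * e) k ⌊2 ^ (D.H * k) * y.1⌋₊ ⌊2 ^ (D.H * k) * y.2⌋₊
      ⌊2 ^ (D.H * k) * θ⌋₊ ↔ ∃ k', k' ≤ k ∧ D.good0 (5 * e) k' ⌊2 ^ (D.H * k') * y.1⌋₊
        ⌊2 ^ (D.H * k') * y.2⌋₊ ⌊2 ^ (D.H * k') * θ⌋₊ := by
    intro k θ
    constructor
    · rintro ⟨k', hk', h⟩
      rw [← floor_anc' hk', ← floor_anc' hk', ← floor_anc' hk'] at h
      exact ⟨k', hk', h⟩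
    · rintro ⟨k', hk', h⟩
      rw [floor_anc' hk' y.1, floor_anc' hk' y.2, floor_anc' hk' θ] at h
      exact ⟨k', hk', h⟩
  have h1 : D.Tset (5 * e) y = ⋃ k, D.Th (5 * e) (k, ⌊2 ^ (D.H * k) * y.1⌋₊,
      ⌊2 ^ (D.H * k) * y.2⌋₊) := by
    ext θ
    simp only [Data.Tset, Data.Th, mem_ofPred_eq, mem_iUnion, hgood]
    constructor
    · rintro ⟨h2, k, h3⟩
      exact ⟨k, h2, k, le_rfl, h3⟩
    · rintro ⟨k, h2, k', -, h3⟩
      exact ⟨h2, k', h3⟩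
  have hmono : Monotone (fun k => D.Th (5 * e) (k, ⌊2 ^ (D.H * k) * y.1⌋₊,
      ⌊2 ^ (D.H * k) * y.2⌋₊)) := by
    intro k k' hk θ hθ
    simp only [Data.Th, mem_ofPred_eq, hgood] at hθ ⊢
    obtain ⟨h2, k'', hk'', h3⟩ := hθ
    exact ⟨h2, k'', hk''.trans hk, h3⟩
  rw [h1, hmono.measure_iUnion]
  apply iSup_le
  intro k
  have := hc k
  rw [D.cert_volume e (k, ⌊2 ^ (D.H * k) * y.1⌋₊, ⌊2 ^ (D.H * k) * y.2⌋₊), not_lt] at this
  exact this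

theorem interval_empty : interval (ivl 0 0 0 0 1) = ∅ := by
  rw [interval_ivl _ _ _ _ _ le_rfl]
  simp

theorem Data.direction_contra (D : Data) (hH : 1 ≤ D.H) (hm : Mono D.ψ) (x : ℝ × ℝ) {T : ℕ}
    (hA : Approx D ⌊x.1⌋ ⌊x.2⌋ T) {θ : ℝ} (hθ : θ ∈ Ico (0 : ℝ) 1)
    (hr : MLRandom (oraclePt x) θ) (f : ℕ → ℕ)
    (hf : ∀ n : ℕ, volume (⋃ i : ℕ, interval (f (Nat.pair n i))) ≤ ((2 : ℝ≥0∞) ^ n)⁻¹)
    (hrep : Repr (oracle θ) D.ψ f)
    (hv : ∀ n, Int.fract (proj θ x) ∈ ⋃ i : ℕ, interval (f (Nat.pair n i)))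
    (e₀ : ℕ) (he : ∀ e, e₀ ≤ e → ∀ k, ¬ D.cert e k ⌊2 ^ (D.H * k) * Int.fract x.1⌋₊
      ⌊2 ^ (D.H * k) * Int.fract x.2⌋₊) : False := by
  have hfr : Int.fract θ = θ := Int.fract_eq_self.2 hθ
  set y : ℝ × ℝ := (Int.fract x.1, Int.fract x.2) with hy
  have hyu : y ∈ usq := ⟨⟨Int.fract_nonneg _, Int.fract_lt_one _⟩,
    ⟨Int.fract_nonneg _, Int.fract_lt_one _⟩⟩
  set g : ℕ → ℕ := fun q => D.tst e₀ ⌊x.1⌋.toNat (-⌊x.1⌋).toNat ⌊x.2⌋.toNat (-⌊x.2⌋).toNat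
    q.unpair.1 q.unpair.2.unpair.1 q.unpair.2.unpair.2 (oraclePt x (D.H * q.unpair.2.unpair.1))
    with hg
  have hgc : ComputableIn (oraclePt x) g := by
    have h1 := TR.prim (Y := oraclePt x)
      (D.primrec_tst e₀ ⌊x.1⌋.toNat (-⌊x.1⌋).toNat ⌊x.2⌋.toNat (-⌊x.2⌋).toNat).pr
    have h2 : TR (oraclePt x) fun q => D.H * q.unpair.2.unpair.1 :=
      TR.prim (inferInstance : PF fun q : ℕ => D.H * q.unpair.2.unpair.1).pr
    have h3 := h1.comp ((TR.prim (Y := oraclePt x) Primrec.id).pair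
      ((TR.oracle (oraclePt x)).comp h2))
    have h4 : (fun n => D.tst e₀ ⌊x.1⌋.toNat (-⌊x.1⌋).toNat ⌊x.2⌋.toNat (-⌊x.2⌋).toNat
        (Nat.pair (id n) (oraclePt x (D.H * n.unpair.2.unpair.1))).unpair.1.unpair.1
        (Nat.pair (id n) (oraclePt x (D.H * n.unpair.2.unpair.1))).unpair.1.unpair.2.unpair.1
        (Nat.pair (id n) (oraclePt x (D.H * n.unpair.2.unpair.1))).unpair.1.unpair.2.unpair.2
        (Nat.pair (id n) (oraclePt x (D.H * n.unpair.2.unpair.1))).unpair.2) = g := by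
      funext n
      simp only [Nat.unpair_pair, id_eq, hg]
    rw [h4] at h3
    exact h3
  have hval : ∀ n k j, g (Nat.pair n (Nat.pair k j)) =
      open Classical in if D.good0 (5 * (e₀ + n)) k ⌊2 ^ (D.H * k) * y.1⌋₊
        ⌊2 ^ (D.H * k) * y.2⌋₊ j ∧ j < 2 ^ (D.H * k)
      then ivl j 0 (j + 1) 0 (2 ^ (D.H * k)) else ivl 0 0 0 0 1 := by
    intro n k j
    simp only [hg, Nat.unpair_pair]
    unfold Data.tst oraclePt
    rw [Nat.unpair_pair]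
    dsimp only
    rw [digit_oracle, digit_oracle]
  have hcell : ∀ k j : ℕ, interval (ivl j 0 (j + 1) 0 (2 ^ (D.H * k))) =
      Ioo ((j : ℝ) / 2 ^ (D.H * k)) (((j : ℝ) + 1) / 2 ^ (D.H * k)) := by
    intro k j
    rw [interval_ivl _ _ _ _ _ Nat.one_le_two_pow]
    push_cast
    rw [sub_zero, sub_zero]
  have hvol : ∀ n : ℕ, volume (⋃ i : ℕ, interval (g (Nat.pair n i))) ≤ ((2 : ℝ≥0∞) ^ n)⁻¹ := by
    intro n
    have hsub : (⋃ i : ℕ, interval (g (Nat.pair n i))) ⊆ D.Tset (5 * (e₀ + n)) y := by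
      intro t ht
      rw [mem_iUnion] at ht
      obtain ⟨i, hi⟩ := ht
      obtain ⟨k, j, rfl⟩ : ∃ k j, i = Nat.pair k j := ⟨i.unpair.1, i.unpair.2, by simp⟩
      rw [hval] at hi
      split_ifs at hi with hgood
      · rw [hcell] at hi
        have hi' : t ∈ icell (D.H * k) j := ⟨hi.1.le, hi.2⟩
        refine ⟨icell_mem_Ico hgood.2 hi', k, ?_⟩
        rw [(mem_icell.1 hi').2]
        exact hgood.1
      · rw [interval_empty] at hi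
        exact absurd hi (notMem_empty _)
    calc volume (⋃ i : ℕ, interval (g (Nat.pair n i))) ≤ volume (D.Tset (5 * (e₀ + n)) y) :=
          measure_mono hsub
      _ ≤ ((2 : ℝ≥0∞) ^ (e₀ + n))⁻¹ :=
          D.volume_Tset _ y (fun k => he _ (Nat.le_add_right _ _) k)
      _ ≤ ((2 : ℝ≥0∞) ^ n)⁻¹ := by
          apply ENNReal.inv_le_inv.2
          exact pow_le_pow_right₀ (by norm_num) (Nat.le_add_left _ _)
  obtain ⟨n, hn⟩ := hr g ⟨hgc, hvol⟩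
  apply hn
  rw [hfr, mem_iUnion]
  have hproj : proj θ x = Real.cos (2 * Real.pi * θ) * (⌊x.1⌋ + y.1) +
      Real.sin (2 * Real.pi * θ) * (⌊x.2⌋ + y.2) := by
    unfold proj
    rw [hy]
    dsimp only
    rw [Int.floor_add_fract, Int.floor_add_fract]
  obtain ⟨k, hk⟩ := D.good0_complete hH hm hA (n := 5 * (e₀ + n)) hyu hθ f hf hrep (by
    rw [← hproj]; exact hv _)
  set j := ⌊2 ^ (D.H * k) * θ⌋₊ with hj
  refine ⟨Nat.pair k j, ?_⟩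
  rw [hval, if_pos ⟨hk, floor_lt _ hθ⟩, hcell]
  have hmem : θ ∈ icell (D.H * k) j := mem_icell.2 ⟨hθ.1, rfl⟩
  refine ⟨lt_of_le_of_ne hmem.1 ?_, hmem.2⟩
  intro hcon
  exact not_dyadic hr j (D.H * k) (by rw [hfr]; exact hcon.symm)

theorem main (U : List Bool →. ℕ) (hU : IsOptimal U) (x : ℝ × ℝ) (hx : 1 < effDim U x)
    (θ : ℝ) (hθ : θ ∈ Ico (0 : ℝ) 1) (hr : MLRandom (oraclePt x) θ) :
    MLRandom (oracle θ) (proj θ x) := by
  intro f hf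
  by_contra hcon
  push Not at hcon
  obtain ⟨ψ, hψ1, hψ2, hψ3⟩ := rep_exists (oracle θ) _ hf.1
  have hrep : Repr (oracle θ) ψ f := by
    intro n y
    rw [← hψ3 n y, Part.mem_some_iff]
  obtain ⟨T, E, P, hP, hA⟩ := exists_projN ⌊x.1⌋ ⌊x.2⌋
  -- the dimension
  obtain ⟨s', hs1, hs2⟩ := exists_between hx
  obtain ⟨s, hs, r₀, hr₀⟩ : ∃ s : ℝ, 1 < s ∧ ∃ r₀ : ℕ, ∀ r : ℕ, r₀ ≤ r →
      s * r ≤ KPrec U x r := by
    have hev := Filter.eventually_lt_of_lt_liminf hs2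
    rw [Filter.eventually_atTop] at hev
    obtain ⟨r₀, hr₀⟩ := hev
    have hne1 : s' ≠ ⊤ := by
      intro h
      rw [h] at hs2
      exact absurd hs2 (not_lt.2 le_top)
    have hne2 : s' ≠ ⊥ := by
      intro h
      rw [h] at hs1
      exact absurd hs1 (not_lt.2 bot_le)
    refine ⟨s'.toReal, ?_, r₀ + 1, ?_⟩
    · rw [← EReal.coe_toReal hne1 hne2] at hs1
      exact_mod_cast hs1
    · intro r hr
      have h1 := hr₀ r (by omega)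
      rw [← EReal.coe_toReal hne1 hne2] at h1
      have h2 : s'.toReal < (KPrec U x r : ℝ) / (r : ℝ) := by exact_mod_cast h1
      have h3 : (0 : ℝ) < r := by
        have : 0 < r := by omega
        exact_mod_cast this
      rw [lt_div_iff₀ h3] at h2
      exact h2.le
  obtain ⟨H, hH1, hH2⟩ : ∃ H : ℕ, 1 ≤ H ∧ (H : ℝ) + 2 ≤ s * H := by
    obtain ⟨H, hH⟩ := exists_nat_gt (2 / (s - 1))
    have hs0 : 0 < s - 1 := by linarith
    rw [div_lt_iff₀ hs0] at hH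
    refine ⟨H, ?_, ?_⟩
    · by_contra h0
      have : H = 0 := by omega
      rw [this] at hH
      norm_num at hH
    · nlinarith
  set D : Data := ⟨H, E, P, ψ, hP, hψ1⟩ with hD
  have hDH : D.H = H := rfl
  obtain ⟨C, hC⟩ := D.KPrec_le (by rw [hDH]; exact hH1) hψ2 hA hU
  set y : ℝ × ℝ := (Int.fract x.1, Int.fract x.2) with hy
  have hyu : y ∈ usq := ⟨⟨Int.fract_nonneg _, Int.fract_lt_one _⟩,
    ⟨Int.fract_nonneg _, Int.fract_lt_one _⟩⟩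
  have hxy : ((⌊x.1⌋ : ℝ) + y.1, (⌊x.2⌋ : ℝ) + y.2) = x := by
    rw [hy]
    dsimp only
    rw [Int.floor_add_fract, Int.floor_add_fract]
  have hlow : ∀ r : ℕ, s * r - s * r₀ ≤ KPrec U x r := by
    intro r
    rcases le_total r₀ r with h | h
    · have := hr₀ r h
      have h2 : (0 : ℝ) ≤ s * r₀ := by positivity
      linarith
    · have h2 : (r : ℝ) ≤ r₀ := by exact_mod_cast h
      have h3 : (0 : ℝ) ≤ KPrec U x r := Nat.cast_nonneg _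
      nlinarith
  obtain ⟨e₀, he₀⟩ := exists_nat_gt (max ((C + s + s * r₀) / 2) (H + 9 : ℝ))
  have he₁ : (C + s + s * r₀) / 2 < (e₀ : ℝ) := lt_of_le_of_lt (le_max_left _ _) he₀
  have he₂ : H + 9 < e₀ := by
    have : (H : ℝ) + 9 < e₀ := lt_of_le_of_lt (le_max_right _ _) he₀
    exact_mod_cast this
  refine D.direction_contra (by rw [hDH]; exact hH1) hψ2 x hA hθ hr f hf.2 hrep hcon e₀ ?_
  intro e he k hcert
  obtain ⟨k', hk', hsat⟩ := D.cert_sat (floor_lt _ hyu.1) (floor_lt _ hyu.2) hcert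
  change D.sat (k + 1) (D.proc e (k + 1)) k' (anc D.H k k' ⌊2 ^ (D.H * k) * y.1⌋₊)
    (anc D.H k k' ⌊2 ^ (D.H * k) * y.2⌋₊) at hsat
  rw [← floor_anc' hk', ← floor_anc' hk'] at hsat
  obtain ⟨h3e, hK⟩ := hC y hyu e k' (k + 1) (by omega) hsat
  rw [hDH] at h3e hK
  have hk1 : 1 ≤ k' := by
    by_contra h0
    have : k' = 0 := by omega
    rw [this] at h3e
    omega
  have hK1 := hK hk1
  rw [hxy] at hK1
  have hK2 : (KPrec U x (H * k' - 1) : ℝ) + 2 * e ≤ (H + 2) * k' + C := by exact_mod_cast hK1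
  have hl := hlow (H * k' - 1)
  have hHk : 1 ≤ H * k' := Nat.mul_pos hH1 hk1
  have hcast : ((H * k' - 1 : ℕ) : ℝ) = H * k' - 1 := by
    rw [Nat.cast_sub hHk]; push_cast; ring
  rw [hcast] at hl
  have hk0 : (0 : ℝ) ≤ k' := Nat.cast_nonneg k'
  have hmul : ((H : ℝ) + 2) * k' ≤ s * H * k' := mul_le_mul_of_nonneg_right hH2 hk0
  have hee : (e₀ : ℝ) ≤ e := by exact_mod_cast he
  nlinarith

end Pool.Agent.MP_5eff62_lc
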