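import Pool.Agent.Lib.MP_5eff62_lc.Energy

/-!
The bound for the total mass of a family of dyadic squares whose points have many projections in
small sets.
-/

set_option autoImplicit false

namespace Pool.Agent.MP_5eff62_lc

open MeasureTheory Set Real
open scoped ENNReal

/-- The square `q` lies below the square `(k, a, b)`. -/
def Below (H : ℕ) (q : ℕ × ℕ × ℕ) (k a b : ℕ) : Prop :=
  k ≤ q.1 ∧ anc H q.1 k q.2.1 = a ∧ anc H q.1 k q.2.2 = b

/-- The weight of a square of level `k`. -/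
noncomputable def wt (H k : ℕ) : ℝ≥0∞ := ((2 : ℝ≥0∞) ^ ((H + 1) * k))⁻¹

theorem wt_ne_zero (H k : ℕ) : wt H k ≠ 0 := by
  unfold wt
  rw [Ne, ENNReal.inv_eq_zero]
  exact ENNReal.pow_ne_top (by norm_num)

theorem wt_ne_top (H k : ℕ) : wt H k ≠ ⊤ := by
  unfold wt
  rw [Ne, ENNReal.inv_eq_top]
  positivity

/-- A family of squares satisfying the Frostman condition. -/
structure GoodS (H : ℕ) (S : Finset (ℕ × ℕ × ℕ)) : Prop where
  lt : ∀ q ∈ S, q.2.1 < 2 ^ (H * q.1) ∧ q.2.2 < 2 ^ (H * q.1)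
  frost : ∀ k a b, (∑ q ∈ S, open Classical in if Below H q k a b then wt H q.1 else 0) ≤ wt H k

theorem GoodS.antichain {H : ℕ} {S : Finset (ℕ × ℕ × ℕ)} (hS : GoodS H S) {q q' : ℕ × ℕ × ℕ}
    (hq : q ∈ S) (hq' : q' ∈ S) (h : Below H q' q.1 q.2.1 q.2.2) : q' = q := by
  classical
  by_contra hne
  have h1 := hS.frost q.1 q.2.1 q.2.2
  have h2 : (∑ p ∈ ({q, q'} : Finset (ℕ × ℕ × ℕ)),
      if Below H p q.1 q.2.1 q.2.2 then wt H p.1 else 0) ≤ wt H q.1 := by
    refine le_trans (Finset.sum_le_sum_of_subset ?_) h1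
    intro p hp
    rw [Finset.mem_insert, Finset.mem_singleton] at hp
    rcases hp with rfl | rfl <;> assumption
  have hself : Below H q q.1 q.2.1 q.2.2 := ⟨le_rfl, anc_self _ _ _, anc_self _ _ _⟩
  rw [Finset.sum_pair (Ne.symm hne), if_pos hself, if_pos h] at h2
  exact absurd h2 (not_le.2 (ENNReal.lt_add_right (wt_ne_top _ _) (wt_ne_zero _ _)))

/-- The density of a family of squares. -/
noncomputable def dens (H : ℕ) (S : Finset (ℕ × ℕ × ℕ)) (y : ℝ × ℝ) : ℝ≥0∞ :=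
  ∑ q ∈ S, (wt H q.1 * (2 ^ (H * q.1) * 2 ^ (H * q.1))) *
    (sqr H q.1 q.2.1 q.2.2).indicator (fun _ => 1) y

theorem measurable_dens (H : ℕ) (S : Finset (ℕ × ℕ × ℕ)) : Measurable (dens H S) := by
  unfold dens
  apply Finset.measurable_sum
  intro q _
  apply Measurable.const_mul
  exact measurable_const.indicator (measurableSet_sqr _ _ _ _)

theorem sqr_subset_usq {H k a b : ℕ} (ha : a < 2 ^ (H * k)) (hb : b < 2 ^ (H * k)) :
    sqr H k a b ⊆ usq := fun _ hy => ⟨icell_mem_Ico ha hy.1, icell_mem_Ico hb hy.2⟩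

theorem pow_inv_cancel (n : ℕ) : (2 : ℝ≥0∞) ^ n * ((2 : ℝ≥0∞) ^ n)⁻¹ = 1 :=
  ENNReal.mul_inv_cancel (by positivity) (ENNReal.pow_ne_top (by norm_num))

theorem wt_level (H k i : ℕ) (hH : 1 ≤ H) (h : k ≤ i) :
    wt H k * (2 ^ (H * k) * 2 ^ (H * k)) *
      (((2 : ℝ≥0∞) ^ (H * i))⁻¹ * ((2 : ℝ≥0∞) ^ (H * i))⁻¹) ≤ wt H i := by
  obtain ⟨d, rfl⟩ := Nat.exists_eq_add_of_le h
  unfold wt
  have e1 : ((2 : ℝ≥0∞) ^ (H * (k + d)))⁻¹ =
      ((2 : ℝ≥0∞) ^ (H * k))⁻¹ * ((2 : ℝ≥0∞) ^ (H * d))⁻¹ := by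
    rw [mul_add, pow_add, ENNReal.mul_inv (Or.inl (by positivity))
      (Or.inl (ENNReal.pow_ne_top (by norm_num)))]
  have e2 : ((2 : ℝ≥0∞) ^ ((H + 1) * (k + d)))⁻¹ =
      ((2 : ℝ≥0∞) ^ ((H + 1) * k))⁻¹ * ((2 : ℝ≥0∞) ^ ((H + 1) * d))⁻¹ := by
    rw [mul_add, pow_add, ENNReal.mul_inv (Or.inl (by positivity))
      (Or.inl (ENNReal.pow_ne_top (by norm_num)))]
  rw [e1, e2]
  calc ((2 : ℝ≥0∞) ^ ((H + 1) * k))⁻¹ * (2 ^ (H * k) * 2 ^ (H * k)) *
        (((2 : ℝ≥0∞) ^ (H * k))⁻¹ * ((2 : ℝ≥0∞) ^ (H * d))⁻¹ *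
          (((2 : ℝ≥0∞) ^ (H * k))⁻¹ * ((2 : ℝ≥0∞) ^ (H * d))⁻¹)) =
        ((2 : ℝ≥0∞) ^ ((H + 1) * k))⁻¹ * (((2 : ℝ≥0∞) ^ (H * d))⁻¹ * ((2 : ℝ≥0∞) ^ (H * d))⁻¹) *
          ((2 ^ (H * k) * ((2 : ℝ≥0∞) ^ (H * k))⁻¹) *
            (2 ^ (H * k) * ((2 : ℝ≥0∞) ^ (H * k))⁻¹)) := by ring
    _ = ((2 : ℝ≥0∞) ^ ((H + 1) * k))⁻¹ *
          (((2 : ℝ≥0∞) ^ (H * d))⁻¹ * ((2 : ℝ≥0∞) ^ (H * d))⁻¹) := by
        rw [pow_inv_cancel, one_mul, mul_one]
    _ ≤ ((2 : ℝ≥0∞) ^ ((H + 1) * k))⁻¹ * ((2 : ℝ≥0∞) ^ ((H + 1) * d))⁻¹ := by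
        gcongr
        rw [← ENNReal.mul_inv (Or.inl (by positivity))
          (Or.inl (ENNReal.pow_ne_top (by norm_num))), ← pow_add]
        apply ENNReal.inv_le_inv.2
        apply pow_le_pow_right₀ (by norm_num)
        nlinarith

theorem GoodS.toFrost {H : ℕ} (hH : 1 ≤ H) {S : Finset (ℕ × ℕ × ℕ)} (hS : GoodS H S) :
    Frost H (dens H S) := by
  classical
  refine ⟨measurable_dens H S, ?_, ?_⟩
  · intro y hy
    unfold dens
    apply Finset.sum_eq_zero
    intro q hq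
    rw [indicator_of_notMem, mul_zero]
    intro h
    exact hy (sqr_subset_usq (hS.lt q hq).1 (hS.lt q hq).2 h)
  · intro i a b
    have h1 : ∫⁻ y in sqr H i a b, dens H S y =
        ∑ q ∈ S, (wt H q.1 * (2 ^ (H * q.1) * 2 ^ (H * q.1))) *
          volume (sqr H q.1 q.2.1 q.2.2 ∩ sqr H i a b) := by
      unfold dens
      rw [lintegral_finsetSum]
      · apply Finset.sum_congr rfl
        intro q _
        rw [lintegral_const_mul _ (measurable_const.indicator (measurableSet_sqr _ _ _ _)),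
          lintegral_indicator_const (measurableSet_sqr _ _ _ _), one_mul,
          Measure.restrict_apply (measurableSet_sqr _ _ _ _)]
      · intro q _
        exact (measurable_const.indicator (measurableSet_sqr _ _ _ _)).const_mul _
    rw [h1]
    change _ ≤ wt H i
    by_cases hex : ∃ q₀ ∈ S, q₀.1 < i ∧ anc H i q₀.1 a = q₀.2.1 ∧ anc H i q₀.1 b = q₀.2.2
    · obtain ⟨q₀, hq₀, hlt, ha₀, hb₀⟩ := hex
      rw [Finset.sum_eq_single_of_mem q₀ hq₀]
      · refine le_trans ?_ (wt_level H q₀.1 i hH hlt.le)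
        gcongr
        rw [← volume_sqr H i a b]
        exact measure_mono inter_subset_right
      · intro q hq hne
        have hemp : sqr H q.1 q.2.1 q.2.2 ∩ sqr H i a b = ∅ := by
          rw [eq_empty_iff_forall_notMem]
          rintro y ⟨hy1, hy2⟩
          rw [mem_sqr] at hy1 hy2
          obtain ⟨_, hya, hyb⟩ := hy1
          obtain ⟨_, hyc, hyd⟩ := hy2
          -- the floor at the level of `q₀`
          have f1 : ⌊2 ^ (H * q₀.1) * y.1⌋₊ = q₀.2.1 := by
            rw [floor_anc' hlt.le, hyc, ha₀]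
          have f2 : ⌊2 ^ (H * q₀.1) * y.2⌋₊ = q₀.2.2 := by
            rw [floor_anc' hlt.le, hyd, hb₀]
          rcases le_total q₀.1 q.1 with h | h
          · apply hne
            apply hS.antichain hq₀ hq
            refine ⟨h, ?_, ?_⟩
            · rw [← hya, ← floor_anc' h, f1]
            · rw [← hyb, ← floor_anc' h, f2]
          · apply hne
            symm
            apply hS.antichain hq hq₀
            refine ⟨h, ?_, ?_⟩
            · rw [← f1, ← floor_anc' h, hya]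
            · rw [← f2, ← floor_anc' h, hyb]
        rw [hemp, measure_empty, mul_zero]
    · refine le_trans ?_ (hS.frost i a b)
      apply Finset.sum_le_sum
      intro q hq
      by_cases hb : Below H q i a b
      · rw [if_pos hb]
        calc _ ≤ (wt H q.1 * (2 ^ (H * q.1) * 2 ^ (H * q.1))) *
              volume (sqr H q.1 q.2.1 q.2.2) := by
              gcongr
              exact inter_subset_left
          _ = wt H q.1 * ((2 ^ (H * q.1) * ((2 : ℝ≥0∞) ^ (H * q.1))⁻¹) *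
                (2 ^ (H * q.1) * ((2 : ℝ≥0∞) ^ (H * q.1))⁻¹)) := by
              rw [volume_sqr]; ring
          _ = wt H q.1 := by rw [pow_inv_cancel, one_mul, mul_one]
          _ ≤ _ := le_rfl
      · rw [if_neg hb]
        have hemp : sqr H q.1 q.2.1 q.2.2 ∩ sqr H i a b = ∅ := by
          rw [eq_empty_iff_forall_notMem]
          rintro y ⟨hy1, hy2⟩
          rw [mem_sqr] at hy1 hy2
          obtain ⟨_, hya, hyb⟩ := hy1
          obtain ⟨_, hyc, hyd⟩ := hy2
          rcases lt_or_ge q.1 i with h | h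
          · apply hex
            refine ⟨q, hq, h, ?_, ?_⟩
            · rw [← hyc, ← floor_anc' h.le, hya]
            · rw [← hyd, ← floor_anc' h.le, hyb]
          · apply hb
            refine ⟨h, ?_, ?_⟩
            · rw [← hya, ← floor_anc' h, hyc]
            · rw [← hyb, ← floor_anc' h, hyd]
        rw [hemp, measure_empty, mul_zero]

theorem lintegral_dens_eq {H : ℕ} {S : Finset (ℕ × ℕ × ℕ)} :
    ∫⁻ y, dens H S y = ∑ q ∈ S, wt H q.1 := by
  unfold dens
  rw [lintegral_finsetSum]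
  · apply Finset.sum_congr rfl
    intro q _
    rw [lintegral_const_mul _ (measurable_const.indicator (measurableSet_sqr _ _ _ _)),
      lintegral_indicator_const (measurableSet_sqr _ _ _ _), one_mul, volume_sqr]
    calc wt H q.1 * (2 ^ (H * q.1) * 2 ^ (H * q.1)) * (((2 : ℝ≥0∞) ^ (H * q.1))⁻¹ *
          ((2 : ℝ≥0∞) ^ (H * q.1))⁻¹) = wt H q.1 * ((2 ^ (H * q.1) *
          ((2 : ℝ≥0∞) ^ (H * q.1))⁻¹) * (2 ^ (H * q.1) * ((2 : ℝ≥0∞) ^ (H * q.1))⁻¹)) := by ring
      _ = wt H q.1 := by rw [pow_inv_cancel, one_mul, mul_one]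
  · intro q _
    exact (measurable_const.indicator (measurableSet_sqr _ _ _ _)).const_mul _

theorem window_measure (B : Set ℝ) (τ : ℝ) :
    volume {t : ℝ | Int.fract (t + τ) ∈ B ∧ t ∈ Ioo (-2 : ℝ) 2} ≤ 5 * volume B := by
  set m := ⌊τ - 2⌋ with hm
  have hsub : {t : ℝ | Int.fract (t + τ) ∈ B ∧ t ∈ Ioo (-2 : ℝ) 2} ⊆
      ⋃ i ∈ Finset.range 5, (fun t : ℝ => t + (τ - ((m + i : ℤ) : ℝ))) ⁻¹' B := by
    rintro t ⟨ht, ht1, ht2⟩
    have h1 : m ≤ ⌊t + τ⌋ := Int.floor_le_floor (by linarith)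
    have h2 : ⌊t + τ⌋ ≤ m + 4 := by
      rw [hm]
      have : ⌊t + τ⌋ ≤ ⌊τ - 2 + ((4 : ℤ) : ℝ)⌋ := Int.floor_le_floor (by push_cast; linarith)
      rwa [Int.floor_add_intCast] at this
    rw [mem_iUnion₂]
    refine ⟨(⌊t + τ⌋ - m).toNat, ?_, ?_⟩
    · rw [Finset.mem_range]; omega
    · rw [mem_preimage]
      have h3 : t + (τ - ((m + ((⌊t + τ⌋ - m).toNat : ℕ) : ℤ) : ℝ)) = Int.fract (t + τ) := by
        have h4 : (m + ((⌊t + τ⌋ - m).toNat : ℕ) : ℤ) = ⌊t + τ⌋ := by omega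
        rw [h4, Int.fract]
        ring
      rw [h3]
      exact ht
  refine (measure_mono hsub).trans ((measure_biUnion_finset_le _ _).trans ?_)
  have h5 : ∀ i ∈ Finset.range 5,
      volume ((fun t : ℝ => t + (τ - ((m + i : ℤ) : ℝ))) ⁻¹' B) = volume B := by
    intro i _
    exact measure_preimage_add_right _ _ _
  rw [Finset.sum_congr rfl h5, Finset.sum_const, Finset.card_range, nsmul_eq_mul]
  norm_num

theorem gd_dens_zero {H : ℕ} (hH : 1 ≤ H) {S : Finset (ℕ × ℕ × ℕ)} (hS : GoodS H S) (θ t : ℝ)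
    (ht : t ∉ Ioo (-2 : ℝ) 2) : gd (dens H S) θ t = 0 := by
  have hm3 : Measurable fun u : ℝ =>
      dens H S (rot (cos (2 * π * θ)) (sin (2 * π * θ)) (t, u)) :=
    (measurable_rot_prod (measurable_dens H S) _ _).comp (measurable_prodMk_left (x := t))
  unfold gd
  rw [lintegral_eq_zero_iff hm3]
  apply Filter.Eventually.of_forall
  intro u
  change dens H S _ = 0
  apply (hS.toFrost hH).supp
  intro hu
  apply ht
  set c := cos (2 * π * θ) with hc
  set s := sin (2 * π * θ) with hs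
  have h1 : c ^ 2 + s ^ 2 = 1 := Real.cos_sq_add_sin_sq _
  have h2 : (rot c s (t, u)).1 ^ 2 + (rot c s (t, u)).2 ^ 2 = t ^ 2 + u ^ 2 := by
    unfold rot
    dsimp only
    calc _ = (c ^ 2 + s ^ 2) * (t ^ 2 + u ^ 2) := by ring
      _ = _ := by rw [h1, one_mul]
  obtain ⟨⟨h3, h4⟩, ⟨h5, h6⟩⟩ := hu
  have h7 : t ^ 2 < 4 := by nlinarith [sq_nonneg u]
  constructor <;> nlinarith

theorem split_le (f g lam : ℝ≥0∞) (hf : f = 0 ∨ f = 1) (hl : lam ≠ 0) (hlt : lam ≠ ⊤) :
    f * g ≤ lam * f + lam⁻¹ * (g * g) := by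
  rcases hf with rfl | rfl
  · rw [zero_mul]; exact zero_le
  · rw [one_mul, mul_one]
    rcases le_total g lam with h | h
    · exact h.trans (le_add_of_nonneg_right zero_le)
    · refine le_trans ?_ (le_add_of_nonneg_left zero_le)
      calc g = lam⁻¹ * (lam * g) := by
            rw [← mul_assoc, ENNReal.inv_mul_cancel hl hlt, one_mul]
        _ ≤ lam⁻¹ * (g * g) := by gcongr

theorem mass_bound {H : ℕ} (hH : 1 ≤ H) {S : Finset (ℕ × ℕ × ℕ)} (hS : GoodS H S) (z₁ z₂ : ℝ)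
    (B : ℝ → Set ℝ) (hBm : ∀ θ, MeasurableSet (B θ)) (δ : ℝ≥0∞)
    (hB : ∀ θ ∈ Ico (0 : ℝ) 1, volume (B θ) ≤ δ) (e : ℕ) (Θ : ℕ × ℕ × ℕ → Set ℝ)
    (hΘm : ∀ q, MeasurableSet (Θ q)) (hΘ1 : ∀ q, Θ q ⊆ Ico (0 : ℝ) 1)
    (hΘ : ∀ q ∈ S, ((2 : ℝ≥0∞) ^ e)⁻¹ ≤ volume (Θ q))
    (hΘB : ∀ q ∈ S, ∀ θ ∈ Θ q, ∀ y ∈ sqr H q.1 q.2.1 q.2.2,
      Int.fract (cos (2 * π * θ) * (z₁ + y.1) + sin (2 * π * θ) * (z₂ + y.2)) ∈ B θ) :
    ∑ q ∈ S, wt H q.1 ≤ 20 * (1 + 18 * 2 ^ H) * (2 ^ e * 2 ^ e) * δ := by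
  classical
  set C₁ : ℝ≥0∞ := 1 + 18 * 2 ^ H with hC₁
  have hC₁0 : C₁ ≠ 0 := by
    rw [hC₁]
    exact (lt_of_lt_of_le one_pos (le_add_of_nonneg_right zero_le)).ne'
  have hC₁t : C₁ ≠ ⊤ := by
    rw [hC₁]
    exact ENNReal.add_ne_top.2 ⟨ENNReal.one_ne_top,
      ENNReal.mul_ne_top (by norm_num) (ENNReal.pow_ne_top (by norm_num))⟩
  set M : ℝ≥0∞ := ∑ q ∈ S, wt H q.1 with hM
  have hMt : M ≠ ⊤ := by
    rw [hM]
    exact ENNReal.sum_ne_top.2 fun q _ => wt_ne_top _ _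
  have hFr := hS.toFrost hH
  have hE2 : (2 : ℝ≥0∞) ^ e ≠ 0 := by positivity
  have hE2t : (2 : ℝ≥0∞) ^ e ≠ ⊤ := ENNReal.pow_ne_top (by norm_num)
  set lam : ℝ≥0∞ := 2 * C₁ * 2 ^ e with hlam
  have hl0 : lam ≠ 0 := mul_ne_zero (mul_ne_zero (by norm_num) hC₁0) hE2
  have hlt : lam ≠ ⊤ := ENNReal.mul_ne_top (ENNReal.mul_ne_top (by norm_num) hC₁t) hE2t
  -- the upper bound for every direction
  set c : ℝ → ℝ := fun θ => cos (2 * π * θ) with hc
  set s : ℝ → ℝ := fun θ => sin (2 * π * θ) with hs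
  set τ : ℝ → ℝ := fun θ => c θ * z₁ + s θ * z₂ with hτ
  set f : ℝ → ℝ → ℝ≥0∞ := fun θ => {t : ℝ | Int.fract (t + τ θ) ∈ B θ}.indicator (fun _ => 1)
    with hf
  have hfset : ∀ θ, MeasurableSet {t : ℝ | Int.fract (t + τ θ) ∈ B θ} := by
    intro θ
    have : Measurable fun t : ℝ => Int.fract (t + τ θ) :=
      measurable_fract.comp (measurable_add_const _)
    exact this (hBm θ)
  have hfm : ∀ θ, Measurable (f θ) := fun θ => measurable_const.indicator (hfset θ)
  have hupper : ∀ θ ∈ Ico (0 : ℝ) 1,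
      ∫⁻ y : ℝ × ℝ, f θ (c θ * y.1 + s θ * y.2) * dens H S y ≤
        lam * (5 * δ) + lam⁻¹ * ∫⁻ t, gd (dens H S) θ t * gd (dens H S) θ t := by
    intro θ hθ
    rw [← lintegral_gd (measurable_dens H S) θ (f θ) (hfm θ)]
    have hw : MeasurableSet {t : ℝ | Int.fract (t + τ θ) ∈ B θ ∧ t ∈ Ioo (-2 : ℝ) 2} :=
      (hfset θ).inter measurableSet_Ioo
    calc ∫⁻ t, f θ t * gd (dens H S) θ t
        ≤ ∫⁻ t, (lam * {t : ℝ | Int.fract (t + τ θ) ∈ B θ ∧ t ∈ Ioo (-2 : ℝ) 2}.indicator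
            (fun _ => 1) t + lam⁻¹ * (gd (dens H S) θ t * gd (dens H S) θ t)) := by
          apply lintegral_mono
          intro t
          dsimp only
          by_cases ht : t ∈ Ioo (-2 : ℝ) 2
          · have h1 : {t : ℝ | Int.fract (t + τ θ) ∈ B θ ∧ t ∈ Ioo (-2 : ℝ) 2}.indicator
                (fun _ => (1 : ℝ≥0∞)) t = f θ t := by
              rw [hf]
              dsimp only
              by_cases h2 : Int.fract (t + τ θ) ∈ B θ
              · rw [indicator_of_mem (show t ∈ {t : ℝ | Int.fract (t + τ θ) ∈ B θ} from h2),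
                  indicator_of_mem (show t ∈ {t : ℝ | Int.fract (t + τ θ) ∈ B θ ∧
                    t ∈ Ioo (-2 : ℝ) 2} from ⟨h2, ht⟩)]
              · rw [indicator_of_notMem (show t ∉ {t : ℝ | Int.fract (t + τ θ) ∈ B θ} from h2),
                  indicator_of_notMem (show t ∉ {t : ℝ | Int.fract (t + τ θ) ∈ B θ ∧
                    t ∈ Ioo (-2 : ℝ) 2} from fun h => h2 h.1)]
            rw [h1]
            apply split_le _ _ _ _ hl0 hlt
            rw [hf]
            dsimp only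
            by_cases h2 : Int.fract (t + τ θ) ∈ B θ
            · right
              rw [indicator_of_mem (show t ∈ {t : ℝ | Int.fract (t + τ θ) ∈ B θ} from h2)]
            · left
              rw [indicator_of_notMem (show t ∉ {t : ℝ | Int.fract (t + τ θ) ∈ B θ} from h2)]
          · rw [gd_dens_zero hH hS θ t ht, mul_zero]
            exact zero_le
      _ = lam * volume {t : ℝ | Int.fract (t + τ θ) ∈ B θ ∧ t ∈ Ioo (-2 : ℝ) 2} +
            lam⁻¹ * ∫⁻ t, gd (dens H S) θ t * gd (dens H S) θ t := by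
          have hg2 : Measurable fun t => gd (dens H S) θ t * gd (dens H S) θ t :=
            (measurable_gd (measurable_dens H S) θ).mul (measurable_gd (measurable_dens H S) θ)
          rw [lintegral_add_left ((measurable_const.indicator hw).const_mul _),
            lintegral_const_mul _ (measurable_const.indicator hw),
            lintegral_indicator_const hw, one_mul,
            lintegral_const_mul _ hg2]
      _ ≤ _ := by
          gcongr
          exact (window_measure (B θ) (τ θ)).trans (by gcongr; exact hB θ hθ)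
  -- integrate over the directions
  have hint : ∫⁻ θ in Ico (0 : ℝ) 1, ∫⁻ y : ℝ × ℝ, f θ (c θ * y.1 + s θ * y.2) * dens H S y ≤
      lam * (5 * δ) + lam⁻¹ * (C₁ * M) := by
    calc _ ≤ ∫⁻ θ in Ico (0 : ℝ) 1, (lam * (5 * δ) +
          lam⁻¹ * ∫⁻ t, gd (dens H S) θ t * gd (dens H S) θ t) :=
          setLIntegral_mono' measurableSet_Ico hupper
      _ = lam * (5 * δ) + lam⁻¹ * ∫⁻ θ in Ico (0 : ℝ) 1,
            ∫⁻ t, gd (dens H S) θ t * gd (dens H S) θ t := by
          rw [lintegral_add_left measurable_const, lintegral_const,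
            lintegral_const_mul' _ _ (ENNReal.inv_ne_top.2 hl0)]
          simp
      _ ≤ _ := by
          gcongr
          have := energy hH hFr
          rwa [lintegral_dens_eq] at this
  -- the lower bound
  have hlower : ((2 : ℝ≥0∞) ^ e)⁻¹ * M ≤
      ∫⁻ θ in Ico (0 : ℝ) 1, ∫⁻ y : ℝ × ℝ, f θ (c θ * y.1 + s θ * y.2) * dens H S y := by
    have h1 : ∀ θ, (∑ q ∈ S, wt H q.1 * (Θ q).indicator (fun _ => 1) θ) ≤
        ∫⁻ y : ℝ × ℝ, f θ (c θ * y.1 + s θ * y.2) * dens H S y := by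
      intro θ
      have h2 : ∀ y : ℝ × ℝ, (∑ q ∈ S, (wt H q.1 * (Θ q).indicator (fun _ => 1) θ *
          (2 ^ (H * q.1) * 2 ^ (H * q.1))) * (sqr H q.1 q.2.1 q.2.2).indicator (fun _ => 1) y) ≤
          f θ (c θ * y.1 + s θ * y.2) * dens H S y := by
        intro y
        unfold dens
        rw [Finset.mul_sum]
        apply Finset.sum_le_sum
        intro q hq
        by_cases hθ : θ ∈ Θ q
        · by_cases hy : y ∈ sqr H q.1 q.2.1 q.2.2
          · rw [indicator_of_mem hθ, indicator_of_mem hy, hf]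
            dsimp only
            rw [indicator_of_mem]
            · simp
            · rw [mem_ofPred_eq]
              have h3 := hΘB q hq θ hθ y hy
              have h4 : c θ * y.1 + s θ * y.2 + τ θ =
                  cos (2 * π * θ) * (z₁ + y.1) + sin (2 * π * θ) * (z₂ + y.2) := by
                rw [hτ]; dsimp only; rw [hc, hs]; ring
              rw [h4]
              exact h3
          · rw [indicator_of_notMem hy, mul_zero]
            exact zero_le
        · rw [indicator_of_notMem hθ, mul_zero, zero_mul, zero_mul]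
          exact zero_le
      refine le_trans (le_of_eq ?_) (lintegral_mono h2)
      rw [lintegral_finsetSum]
      · apply Finset.sum_congr rfl
        intro q _
        rw [lintegral_const_mul _ (measurable_const.indicator (measurableSet_sqr _ _ _ _)),
          lintegral_indicator_const (measurableSet_sqr _ _ _ _), one_mul, volume_sqr]
        calc wt H q.1 * (Θ q).indicator (fun _ => 1) θ = wt H q.1 *
              (Θ q).indicator (fun _ => 1) θ * ((2 ^ (H * q.1) *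
              ((2 : ℝ≥0∞) ^ (H * q.1))⁻¹) * (2 ^ (H * q.1) * ((2 : ℝ≥0∞) ^ (H * q.1))⁻¹)) := by
              rw [pow_inv_cancel, one_mul, mul_one]
          _ = _ := by ring
      · intro q _
        exact (measurable_const.indicator (measurableSet_sqr _ _ _ _)).const_mul _
    refine le_trans ?_ (lintegral_mono h1)
    rw [lintegral_finsetSum]
    · rw [hM, Finset.mul_sum]
      apply Finset.sum_le_sum
      intro q hq
      rw [lintegral_const_mul _ (measurable_const.indicator (hΘm q)),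
        lintegral_indicator_const (hΘm q), one_mul, Measure.restrict_apply (hΘm q),
        inter_eq_self_of_subset_left (hΘ1 q), mul_comm]
      gcongr
      exact hΘ q hq
    · intro q _
      exact (measurable_const.indicator (hΘm q)).const_mul _
  -- conclusion
  have hx := hlower.trans hint
  set y : ℝ≥0∞ := lam⁻¹ * (C₁ * M) with hy
  have hxy : ((2 : ℝ≥0∞) ^ e)⁻¹ * M = y + y := by
    have h2 : y + y = (2 * C₁) * lam⁻¹ * M := by rw [hy]; ring
    rw [h2, hlam, ENNReal.mul_inv (Or.inl (mul_ne_zero (by norm_num) hC₁0))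
      (Or.inl (ENNReal.mul_ne_top (by norm_num) hC₁t)), ← mul_assoc,
      ENNReal.mul_inv_cancel (mul_ne_zero (by norm_num) hC₁0)
        (ENNReal.mul_ne_top (by norm_num) hC₁t), one_mul]
  have hyt : y ≠ ⊤ := by
    rw [hy]
    exact ENNReal.mul_ne_top (ENNReal.inv_ne_top.2 hl0) (ENNReal.mul_ne_top hC₁t hMt)
  rw [hxy] at hx
  have hy2 : y ≤ lam * (5 * δ) := by
    exact (ENNReal.add_le_add_iff_right hyt).1 hx
  calc M = 2 ^ e * (((2 : ℝ≥0∞) ^ e)⁻¹ * M) := by
        rw [← mul_assoc, ENNReal.mul_inv_cancel hE2 hE2t, one_mul]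
    _ = 2 ^ e * (y + y) := by rw [hxy]
    _ ≤ 2 ^ e * (lam * (5 * δ) + lam * (5 * δ)) := by gcongr
    _ = 20 * C₁ * (2 ^ e * 2 ^ e) * δ := by rw [hlam]; ring

end Pool.Agent.MP_5eff62_lc
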