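import Pool.Agent.Lib.MP_5eff62_lc.Meas
import Pool.Agent.Lib.MP_5eff62_lc.Mass

/-!
The greedy selection of certified squares, the saturated squares and their number.
-/

set_option autoImplicit false
set_option synthInstance.maxSize 100000

namespace Pool.Agent.MP_5eff62_lc

open MeasureTheory Set
open scoped ENNReal

instance PF.list_foldr {α β σ : Type*} [Primcodable α] [Primcodable β] [Primcodable σ]
    (f : α → List β) (s : α → σ) (g : α → β → σ → σ) [hf : PF f] [hs : PF s]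
    [hg : PF (fun q : α × (β × σ) => g q.1 q.2.1 q.2.2)] :
    PF (fun a => (f a).foldr (fun b x => g a b x) (s a)) :=
  ⟨Primrec.list_foldr (h := fun a q => g a q.1 q.2) hf.pr hs.pr hg.pr⟩

instance PP.Below {α : Type*} [Primcodable α] (H : ℕ) (f₁ : α → ℕ × ℕ × ℕ) (f₂ f₃ f₄ : α → ℕ)
    [PF f₁] [PF f₂] [PF f₃] [PF f₄] :
    PP (fun a => Below H (f₁ a) (f₂ a) (f₃ a) (f₄ a)) := by
  unfold MP_5eff62_lc.Below
  infer_instance

namespace Data

open Classical in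
/-- The mass below a square, in units of the weight of the squares of level `K`. -/
noncomputable def imass (D : Data) (K : ℕ) (S : List (ℕ × ℕ × ℕ)) (k a b : ℕ) : ℕ :=
  S.foldr (fun q s => (if Below D.H q k a b then 2 ^ ((D.H + 1) * (K - q.1)) else 0) + s) 0

open Classical in
/-- One step of the selection. -/
noncomputable def step (D : Data) (e K : ℕ) (S : List (ℕ × ℕ × ℕ)) (c : ℕ) :
    List (ℕ × ℕ × ℕ) :=
  if D.cert e K (c / 2 ^ (D.H * K)) (c % 2 ^ (D.H * K)) ∧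
      ∀ k', k' ≤ K → D.imass K S k' (anc D.H K k' (c / 2 ^ (D.H * K)))
        (anc D.H K k' (c % 2 ^ (D.H * K))) < 2 ^ ((D.H + 1) * (K - k'))
    then (K, c / 2 ^ (D.H * K), c % 2 ^ (D.H * K)) :: S else S

/-- The selected squares of level less than `K`. -/
noncomputable def proc (D : Data) (e : ℕ) : ℕ → List (ℕ × ℕ × ℕ)
  | 0 => []
  | K + 1 => (List.range (2 ^ (D.H * K) * 2 ^ (D.H * K))).foldl (fun S c => D.step e K S c)
      (proc D e K)

/-- The square is saturated. -/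
def sat (D : Data) (K : ℕ) (S : List (ℕ × ℕ × ℕ)) (k a b : ℕ) : Prop :=
  2 ^ ((D.H + 1) * (K - k)) ≤ D.imass K S k a b

open Classical in
/-- The enumeration of the saturated squares of level `k`. -/
noncomputable def enum (D : Data) (e k : ℕ) : ℕ → List ℕ
  | 0 => []
  | m + 1 => enum D e k m ++ (List.range (2 ^ (D.H * k) * 2 ^ (D.H * k))).filter (fun c =>
      decide (k ≤ m ∧ D.sat m (D.proc e m) k (c / 2 ^ (D.H * k)) (c % 2 ^ (D.H * k)) ∧
        ¬ c ∈ enum D e k m))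

end Data

section

variable {α : Type} [Primcodable α]

instance PF.imass (D : Data) (f₁ : α → ℕ) (f₂ : α → List (ℕ × ℕ × ℕ)) (f₃ f₄ f₅ : α → ℕ)
    [h1 : PF f₁] [h2 : PF f₂] [h3 : PF f₃] [h4 : PF f₄] [h5 : PF f₅] :
    PF (fun a => D.imass (f₁ a) (f₂ a) (f₃ a) (f₄ a) (f₅ a)) := by
  have h : PF (fun q : ℕ × List (ℕ × ℕ × ℕ) × ℕ × ℕ × ℕ =>
      D.imass q.1 q.2.1 q.2.2.1 q.2.2.2.1 q.2.2.2.2) := by
    unfold Data.imass
    infer_instance
  exact PF.comp h (g := fun a => (f₁ a, f₂ a, f₃ a, f₄ a, f₅ a)) inferInstance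

instance PP.sat (D : Data) (f₁ : α → ℕ) (f₂ : α → List (ℕ × ℕ × ℕ)) (f₃ f₄ f₅ : α → ℕ)
    [h1 : PF f₁] [h2 : PF f₂] [h3 : PF f₃] [h4 : PF f₄] [h5 : PF f₅] :
    PP (fun a => D.sat (f₁ a) (f₂ a) (f₃ a) (f₄ a) (f₅ a)) := by
  unfold Data.sat
  infer_instance

instance PF.step (D : Data) (f₁ f₂ : α → ℕ) (f₃ : α → List (ℕ × ℕ × ℕ)) (f₄ : α → ℕ)
    [h1 : PF f₁] [h2 : PF f₂] [h3 : PF f₃] [h4 : PF f₄] :
    PF (fun a => D.step (f₁ a) (f₂ a) (f₃ a) (f₄ a)) := by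
  have h : PF (fun q : ℕ × ℕ × List (ℕ × ℕ × ℕ) × ℕ =>
      D.step q.1 q.2.1 q.2.2.1 q.2.2.2) := by
    unfold Data.step
    infer_instance
  exact PF.comp h (g := fun a => (f₁ a, f₂ a, f₃ a, f₄ a)) inferInstance

instance PF.proc (D : Data) (f₁ f₂ : α → ℕ) [h1 : PF f₁] [h2 : PF f₂] :
    PF (fun a => D.proc (f₁ a) (f₂ a)) := by
  have h : PF (fun q : ℕ × ℕ => D.proc q.1 q.2) := by
    have h := PF.nat_rec (α := ℕ × ℕ) (σ := List (ℕ × ℕ × ℕ)) (fun q => q.2) (fun _ => [])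
      (fun q K S => (List.range (2 ^ (D.H * K) * 2 ^ (D.H * K))).foldl
        (fun S c => D.step q.1 K S c) S) inferInstance inferInstance inferInstance
    refine h.of_eq ?_
    rintro ⟨e, K⟩
    dsimp only
    induction K with
    | zero => rfl
    | succ K ih => rw [Data.proc, ← ih]
  exact PF.comp h (g := fun a => (f₁ a, f₂ a)) inferInstance

instance PF.enum (D : Data) (f₁ f₂ f₃ : α → ℕ) [h1 : PF f₁] [h2 : PF f₂] [h3 : PF f₃] :
    PF (fun a => D.enum (f₁ a) (f₂ a) (f₃ a)) := by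
  classical
  have h : PF (fun q : (ℕ × ℕ) × ℕ => D.enum q.1.1 q.1.2 q.2) := by
    have h := PF.nat_rec (α := (ℕ × ℕ) × ℕ) (σ := List ℕ) (fun q => q.2) (fun _ => [])
      (fun q m L => L ++ (List.range (2 ^ (D.H * q.1.2) * 2 ^ (D.H * q.1.2))).filter (fun c =>
        Decidable.decide (q.1.2 ≤ m ∧ D.sat m (D.proc q.1.1 m) q.1.2 (c / 2 ^ (D.H * q.1.2))
          (c % 2 ^ (D.H * q.1.2)) ∧ ¬ c ∈ L))) inferInstance inferInstance inferInstance
    refine h.of_eq ?_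
    rintro ⟨⟨e, k⟩, m⟩
    dsimp only
    induction m with
    | zero => rfl
    | succ m ih =>
      rw [Data.enum, ← ih]
  exact PF.comp h (g := fun a => ((f₁ a, f₂ a), f₃ a)) inferInstance

end

/-! ### Invariants -/

/-- The invariant of the selection, at the scale of level `K`. -/
structure Inv (D : Data) (e K : ℕ) (S : List (ℕ × ℕ × ℕ)) : Prop where
  nodup : S.Nodup
  lvl : ∀ q ∈ S, q.1 ≤ K ∧ q.2.1 < 2 ^ (D.H * q.1) ∧ q.2.2 < 2 ^ (D.H * q.1) ∧
    D.cert e q.1 q.2.1 q.2.2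
  mass : ∀ k ≤ K, ∀ a b, D.imass K S k a b ≤ 2 ^ ((D.H + 1) * (K - k))

open Classical in
theorem Data.imass_cons (D : Data) (K : ℕ) (q : ℕ × ℕ × ℕ) (S : List (ℕ × ℕ × ℕ)) (k a b : ℕ) :
    D.imass K (q :: S) k a b =
      (if Below D.H q k a b then 2 ^ ((D.H + 1) * (K - q.1)) else 0) + D.imass K S k a b := rfl

theorem Data.imass_nil (D : Data) (K k a b : ℕ) : D.imass K [] k a b = 0 := rfl

theorem code_lt {N c : ℕ} (hN : 0 < N) (hc : c < N * N) : c / N < N ∧ c % N < N :=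
  ⟨Nat.div_lt_of_lt_mul hc, Nat.mod_lt _ hN⟩

theorem Data.step_cases (D : Data) (e K : ℕ) (S : List (ℕ × ℕ × ℕ)) (c : ℕ) :
    (D.step e K S c = S ∧ ¬ (D.cert e K (c / 2 ^ (D.H * K)) (c % 2 ^ (D.H * K)) ∧
      ∀ k', k' ≤ K → D.imass K S k' (anc D.H K k' (c / 2 ^ (D.H * K)))
        (anc D.H K k' (c % 2 ^ (D.H * K))) < 2 ^ ((D.H + 1) * (K - k')))) ∨
    (D.step e K S c = (K, c / 2 ^ (D.H * K), c % 2 ^ (D.H * K)) :: S ∧
      D.cert e K (c / 2 ^ (D.H * K)) (c % 2 ^ (D.H * K)) ∧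
      ∀ k', k' ≤ K → D.imass K S k' (anc D.H K k' (c / 2 ^ (D.H * K)))
        (anc D.H K k' (c % 2 ^ (D.H * K))) < 2 ^ ((D.H + 1) * (K - k'))) := by
  unfold Data.step
  split_ifs with h
  · right; exact ⟨rfl, h⟩
  · left; exact ⟨rfl, h⟩

theorem Data.imass_pos_of_mem (D : Data) {K : ℕ} {S : List (ℕ × ℕ × ℕ)} {q : ℕ × ℕ × ℕ}
    (hq : q ∈ S) : 2 ^ ((D.H + 1) * (K - q.1)) ≤ D.imass K S q.1 q.2.1 q.2.2 := by
  induction S with
  | nil => simp at hq
  | cons p S ih =>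
    rw [D.imass_cons]
    rcases List.mem_cons.1 hq with h | h
    · subst h
      rw [if_pos ⟨le_rfl, anc_self _ _ _, anc_self _ _ _⟩]
      exact Nat.le_add_right _ _
    · exact (ih h).trans (Nat.le_add_left _ _)

theorem Inv.step {D : Data} {e K : ℕ} {S : List (ℕ × ℕ × ℕ)} (h : Inv D e K S) {c : ℕ}
    (hc : c < 2 ^ (D.H * K) * 2 ^ (D.H * K)) : Inv D e K (D.step e K S c) := by
  rcases D.step_cases e K S c with ⟨h1, -⟩ | ⟨h1, hcert, hmass⟩
  · rw [h1]; exact h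
  · rw [h1]
    obtain ⟨ha, hb⟩ := code_lt (by positivity) hc
    set a := c / 2 ^ (D.H * K)
    set b := c % 2 ^ (D.H * K)
    have hself := hmass K le_rfl
    rw [anc_self, anc_self, Nat.sub_self, mul_zero, pow_zero] at hself
    refine ⟨?_, ?_, ?_⟩
    · rw [List.nodup_cons]
      refine ⟨fun hmem => ?_, h.nodup⟩
      have := D.imass_pos_of_mem (K := K) hmem
      dsimp only at this
      rw [Nat.sub_self, mul_zero, pow_zero] at this
      omega
    · intro q hq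
      rcases List.mem_cons.1 hq with rfl | hq
      · exact ⟨le_rfl, ha, hb, hcert⟩
      · exact h.lvl q hq
    · intro k hk a' b'
      rw [D.imass_cons]
      split_ifs with hB
      · obtain ⟨-, h2, h3⟩ := hB
        dsimp only at h2 h3
        rw [Nat.sub_self, mul_zero, pow_zero, ← h2, ← h3]
        have := hmass k hk
        omega
      · rw [zero_add]; exact h.mass k hk a' b'

theorem Data.imass_up (D : Data) {K : ℕ} {S : List (ℕ × ℕ × ℕ)} (h : ∀ q ∈ S, q.1 ≤ K)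
    (k a b : ℕ) : D.imass (K + 1) S k a b = 2 ^ (D.H + 1) * D.imass K S k a b := by
  induction S with
  | nil => rfl
  | cons q S ih =>
    rw [D.imass_cons, D.imass_cons, ih (fun p hp => h p (List.mem_cons_of_mem _ hp)), mul_add]
    congr 1
    split_ifs
    · rw [← pow_add]
      congr 1
      have := h q List.mem_cons_self
      have e : K + 1 - q.1 = (K - q.1) + 1 := by omega
      rw [e]; ring
    · rfl

theorem Data.imass_high (D : Data) {K k : ℕ} {S : List (ℕ × ℕ × ℕ)} (h : ∀ q ∈ S, q.1 < k)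
    (a b : ℕ) : D.imass K S k a b = 0 := by
  induction S with
  | nil => rfl
  | cons q S ih =>
    rw [D.imass_cons, ih (fun p hp => h p (List.mem_cons_of_mem _ hp)), if_neg]
    rintro ⟨h1, -⟩
    have := h q List.mem_cons_self
    omega

theorem Inv.up {D : Data} {e K : ℕ} {S : List (ℕ × ℕ × ℕ)} (h : Inv D e K S) :
    Inv D e (K + 1) S := by
  refine ⟨h.nodup, fun q hq => ?_, fun k hk a b => ?_⟩
  · obtain ⟨h1, h2⟩ := h.lvl q hq
    exact ⟨by omega, h2⟩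
  · rcases Nat.lt_or_ge K k with hk' | hk'
    · rw [D.imass_high (fun q hq => lt_of_le_of_lt (h.lvl q hq).1 hk')]
      exact Nat.zero_le _
    · rw [D.imass_up (fun q hq => (h.lvl q hq).1)]
      calc 2 ^ (D.H + 1) * D.imass K S k a b ≤ 2 ^ (D.H + 1) * 2 ^ ((D.H + 1) * (K - k)) :=
            Nat.mul_le_mul_left _ (h.mass k hk' a b)
        _ = 2 ^ ((D.H + 1) * (K + 1 - k)) := by
            rw [← pow_add]
            congr 1
            have e : K + 1 - k = (K - k) + 1 := by omega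
            rw [e]; ring

theorem Inv.fold {D : Data} {e K : ℕ} (l : List ℕ)
    (hl : ∀ c ∈ l, c < 2 ^ (D.H * K) * 2 ^ (D.H * K)) {S : List (ℕ × ℕ × ℕ)}
    (h : Inv D e K S) : Inv D e K (l.foldl (fun S c => D.step e K S c) S) := by
  induction l generalizing S with
  | nil => exact h
  | cons c l ih =>
    rw [List.foldl_cons]
    exact ih (fun c' hc' => hl c' (List.mem_cons_of_mem _ hc')) (h.step (hl c List.mem_cons_self))

theorem Data.inv_proc (D : Data) (e K : ℕ) : Inv D e K (D.proc e K) := by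
  induction K with
  | zero =>
    refine ⟨List.nodup_nil, fun q hq => ?_, fun k _ a b => ?_⟩
    · simp [Data.proc] at hq
    · exact Nat.zero_le _
  | succ K ih =>
    apply Inv.up
    exact ih.fold _ (fun c hc => List.mem_range.1 hc)

/-! ### Saturation -/

theorem Data.sat_step (D : Data) {e K : ℕ} {S : List (ℕ × ℕ × ℕ)} {k a b : ℕ}
    (h : D.sat K S k a b) (c : ℕ) : D.sat K (D.step e K S c) k a b := by
  rcases D.step_cases e K S c with ⟨h1, -⟩ | ⟨h1, -, -⟩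
  · rw [h1]; exact h
  · rw [h1]
    unfold Data.sat at h ⊢
    rw [D.imass_cons]
    omega

theorem Data.sat_fold (D : Data) {e K : ℕ} (l : List ℕ) {S : List (ℕ × ℕ × ℕ)} {k a b : ℕ}
    (h : D.sat K S k a b) : D.sat K (l.foldl (fun S c => D.step e K S c) S) k a b := by
  induction l generalizing S with
  | nil => exact h
  | cons c l ih => rw [List.foldl_cons]; exact ih (D.sat_step h c)

theorem Data.sat_up (D : Data) {K : ℕ} {S : List (ℕ × ℕ × ℕ)} (hS : ∀ q ∈ S, q.1 ≤ K)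
    {k a b : ℕ} (hk : k ≤ K) (h : D.sat K S k a b) : D.sat (K + 1) S k a b := by
  unfold Data.sat at h ⊢
  rw [D.imass_up hS]
  calc 2 ^ ((D.H + 1) * (K + 1 - k)) = 2 ^ (D.H + 1) * 2 ^ ((D.H + 1) * (K - k)) := by
        rw [← pow_add]
        congr 1
        have e : K + 1 - k = (K - k) + 1 := by omega
        rw [e]; ring
    _ ≤ _ := Nat.mul_le_mul_left _ h

theorem Data.sat_proc_succ (D : Data) {e m k a b : ℕ} (hk : k ≤ m)
    (h : D.sat m (D.proc e m) k a b) : D.sat (m + 1) (D.proc e (m + 1)) k a b := by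
  rw [Data.proc]
  apply D.sat_up _ hk (D.sat_fold _ h)
  intro q hq
  exact (((D.inv_proc e m).fold _ (fun c hc => List.mem_range.1 hc)).lvl q hq).1

theorem Data.sat_proc_le (D : Data) {e m m' k a b : ℕ} (hk : k ≤ m) (hm : m ≤ m')
    (h : D.sat m (D.proc e m) k a b) : D.sat m' (D.proc e m') k a b := by
  induction m', hm using Nat.le_induction with
  | base => exact h
  | succ m' hm' ih => exact D.sat_proc_succ (hk.trans hm') ih

theorem Data.step_sat (D : Data) {e K : ℕ} (S : List (ℕ × ℕ × ℕ)) {c : ℕ}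
    (hc : D.cert e K (c / 2 ^ (D.H * K)) (c % 2 ^ (D.H * K))) :
    ∃ k', k' ≤ K ∧ D.sat K (D.step e K S c) k' (anc D.H K k' (c / 2 ^ (D.H * K)))
      (anc D.H K k' (c % 2 ^ (D.H * K))) := by
  rcases D.step_cases e K S c with ⟨h1, h2⟩ | ⟨h1, h2, h3⟩
  · rw [h1]
    by_contra hcon
    apply h2
    refine ⟨hc, fun k' hk' => ?_⟩
    by_contra hcon2
    exact hcon ⟨k', hk', not_lt.1 hcon2⟩
  · refine ⟨K, le_rfl, ?_⟩
    rw [h1]
    unfold Data.sat
    rw [D.imass_cons, if_pos ⟨le_rfl, rfl, rfl⟩]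
    exact Nat.le_add_right _ _

theorem Data.cert_sat (D : Data) {e k a b : ℕ} (ha : a < 2 ^ (D.H * k)) (hb : b < 2 ^ (D.H * k))
    (hc : D.cert e k a b) : ∃ k', k' ≤ k ∧
      D.sat (k + 1) (D.proc e (k + 1)) k' (anc D.H k k' a) (anc D.H k k' b) := by
  set N := 2 ^ (D.H * k) with hN
  have hN0 : 0 < N := by positivity
  obtain ⟨c, hcdef⟩ : ∃ c, c = N * a + b := ⟨_, rfl⟩
  have hca : c / N = a := by
    rw [hcdef, Nat.mul_add_div hN0, Nat.div_eq_of_lt hb, add_zero]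
  have hcb : c % N = b := by
    rw [hcdef, Nat.mul_add_mod, Nat.mod_eq_of_lt hb]
  have hcN : c < N * N := by
    have : N * (a + 1) ≤ N * N := Nat.mul_le_mul_left _ ha
    rw [hcdef]
    calc N * a + b < N * a + N := by omega
      _ = N * (a + 1) := by ring
      _ ≤ N * N := this
  obtain ⟨l₁, l₂, hl⟩ := List.append_of_mem (List.mem_range.2 hcN)
  obtain ⟨k', hk', hs⟩ := D.step_sat (e := e) (K := k)
    (l₁.foldl (fun S c => D.step e k S c) (D.proc e k)) (c := c) (by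
      rw [← hN, hca, hcb]; exact hc)
  rw [← hN, hca, hcb] at hs
  refine ⟨k', hk', ?_⟩
  have hinv := (D.inv_proc e k).fold (List.range (N * N)) (fun c hc => List.mem_range.1 hc)
  have hs2 := D.sat_fold (e := e) l₂ hs
  have hfold : (List.range (N * N)).foldl (fun S c => D.step e k S c) (D.proc e k) =
      l₂.foldl (fun S c => D.step e k S c) (D.step e k
        (l₁.foldl (fun S c => D.step e k S c) (D.proc e k)) c) := by
    rw [hl, List.foldl_append, List.foldl_cons]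
  rw [Data.proc, ← hN, hfold]
  apply D.sat_up _ hk' hs2
  intro q hq
  rw [← hfold] at hq
  exact (hinv.lvl q hq).1

/-! ### The enumeration of the saturated squares -/

theorem Data.mem_enum_succ (D : Data) {e k m c : ℕ} : c ∈ D.enum e k (m + 1) ↔
    c ∈ D.enum e k m ∨ (c < 2 ^ (D.H * k) * 2 ^ (D.H * k) ∧ k ≤ m ∧
      D.sat m (D.proc e m) k (c / 2 ^ (D.H * k)) (c % 2 ^ (D.H * k))) := by
  classical
  rw [Data.enum, List.mem_append, List.mem_filter, List.mem_range, decide_eq_true_iff]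
  constructor
  · rintro (h | ⟨h1, h2, h3, -⟩)
    · exact Or.inl h
    · exact Or.inr ⟨h1, h2, h3⟩
  · rintro (h | ⟨h1, h2, h3⟩)
    · exact Or.inl h
    · by_cases h4 : c ∈ D.enum e k m
      · exact Or.inl h4
      · exact Or.inr ⟨h1, h2, h3, h4⟩

theorem Data.enum_nodup (D : Data) (e k m : ℕ) : (D.enum e k m).Nodup := by
  classical
  induction m with
  | zero => exact List.nodup_nil
  | succ m ih =>
    rw [Data.enum, List.nodup_append]
    refine ⟨ih, List.nodup_range.filter _, ?_⟩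
    intro a ha b hb hab
    rw [List.mem_filter, decide_eq_true_iff] at hb
    rw [← hab] at hb
    exact hb.2.2.2 ha

theorem Data.enum_le (D : Data) {e k m m' : ℕ} (h : m ≤ m') :
    ∃ τ, D.enum e k m' = D.enum e k m ++ τ := by
  induction m', h using Nat.le_induction with
  | base => exact ⟨[], (List.append_nil _).symm⟩
  | succ m' _ ih =>
    obtain ⟨τ, hτ⟩ := ih
    rw [Data.enum, hτ, List.append_assoc]
    exact ⟨_, rfl⟩

theorem Data.enum_sat (D : Data) {e k m c : ℕ} (h : c ∈ D.enum e k m) :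
    c < 2 ^ (D.H * k) * 2 ^ (D.H * k) ∧ k ≤ m ∧
      D.sat m (D.proc e m) k (c / 2 ^ (D.H * k)) (c % 2 ^ (D.H * k)) := by
  induction m with
  | zero => simp [Data.enum] at h
  | succ m ih =>
    rw [D.mem_enum_succ] at h
    have : c < 2 ^ (D.H * k) * 2 ^ (D.H * k) ∧ k ≤ m ∧
        D.sat m (D.proc e m) k (c / 2 ^ (D.H * k)) (c % 2 ^ (D.H * k)) := by
      rcases h with h | h
      · exact ih h
      · exact h
    exact ⟨this.1, by omega, D.sat_proc_succ this.2.1 this.2.2⟩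

/-! ### The number of saturated squares -/

theorem wt_scale (H K j : ℕ) (h : j ≤ K) :
    wt H j = ((2 ^ ((H + 1) * (K - j)) : ℕ) : ℝ≥0∞) * ((2 : ℝ≥0∞) ^ ((H + 1) * K))⁻¹ := by
  obtain ⟨d, rfl⟩ := Nat.exists_eq_add_of_le h
  rw [Nat.add_sub_cancel_left]
  unfold wt
  push_cast
  rw [mul_add (H + 1) j d, pow_add, ENNReal.mul_inv (Or.inl (by positivity))
    (Or.inl (ENNReal.pow_ne_top (by norm_num)))]
  calc ((2 : ℝ≥0∞) ^ ((H + 1) * j))⁻¹ = ((2 : ℝ≥0∞) ^ ((H + 1) * j))⁻¹ *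
        (2 ^ ((H + 1) * d) * ((2 : ℝ≥0∞) ^ ((H + 1) * d))⁻¹) := by rw [pow_inv_cancel, mul_one]
    _ = _ := by ring

open Classical in
theorem Inv.imass_eq {D : Data} {e K : ℕ} {S : List (ℕ × ℕ × ℕ)} (h : Inv D e K S)
    (k a b : ℕ) : (∑ q ∈ S.toFinset, if Below D.H q k a b then wt D.H q.1 else 0) =
      (D.imass K S k a b : ℝ≥0∞) * ((2 : ℝ≥0∞) ^ ((D.H + 1) * K))⁻¹ := by
  have hnd := h.nodup
  have hlv : ∀ q ∈ S, q.1 ≤ K := fun q hq => (h.lvl q hq).1
  clear h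
  have hws : ∀ j ≤ K, wt D.H j = ((2 ^ ((D.H + 1) * (K - j)) : ℕ) : ℝ≥0∞) *
      ((2 : ℝ≥0∞) ^ ((D.H + 1) * K))⁻¹ := fun j hj => wt_scale D.H K j hj
  generalize ((2 : ℝ≥0∞) ^ ((D.H + 1) * K))⁻¹ = w at hws ⊢
  induction S with
  | nil => simp [Data.imass_nil]
  | cons q S ih =>
    rw [List.nodup_cons] at hnd
    rw [List.toFinset_cons, Finset.sum_insert (by simpa using hnd.1), D.imass_cons,
      ih hnd.2 (fun p hp => hlv p (List.mem_cons_of_mem _ hp))]
    rw [Nat.cast_add, add_mul _ _ w]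
    congr 1
    split_ifs
    · exact hws q.1 (hlv q List.mem_cons_self)
    · simp

theorem Inv.goodS {D : Data} {e K : ℕ} {S : List (ℕ × ℕ × ℕ)} (h : Inv D e K S) :
    GoodS D.H S.toFinset := by
  classical
  refine ⟨fun q hq => ?_, fun k a b => ?_⟩
  · have := h.lvl q (List.mem_toFinset.1 hq)
    exact ⟨this.2.1, this.2.2.1⟩
  · rw [h.imass_eq]
    rcases Nat.lt_or_ge K k with hk | hk
    · rw [D.imass_high (fun q hq => lt_of_le_of_lt (h.lvl q hq).1 hk)]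
      simp
    · rw [wt_scale D.H K k hk]
      gcongr
      exact_mod_cast h.mass k hk a b

theorem Inv.count_sat {D : Data} {e K : ℕ} {S : List (ℕ × ℕ × ℕ)} (h : Inv D e K S) {k : ℕ}
    (hk : k ≤ K) (C : Finset ℕ)
    (hC : ∀ c ∈ C, D.sat K S k (c / 2 ^ (D.H * k)) (c % 2 ^ (D.H * k))) :
    (C.card : ℝ≥0∞) * wt D.H k ≤ ∑ q ∈ S.toFinset, wt D.H q.1 := by
  classical
  calc (C.card : ℝ≥0∞) * wt D.H k = ∑ _c ∈ C, wt D.H k := by
        rw [Finset.sum_const, nsmul_eq_mul]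
    _ ≤ ∑ c ∈ C, ∑ q ∈ S.toFinset,
          (if Below D.H q k (c / 2 ^ (D.H * k)) (c % 2 ^ (D.H * k)) then wt D.H q.1 else 0) := by
        apply Finset.sum_le_sum
        intro c hc
        rw [h.imass_eq, wt_scale D.H K k hk]
        gcongr
        exact_mod_cast hC c hc
    _ = ∑ q ∈ S.toFinset, ∑ c ∈ C,
          (if Below D.H q k (c / 2 ^ (D.H * k)) (c % 2 ^ (D.H * k)) then wt D.H q.1 else 0) :=
        Finset.sum_comm
    _ ≤ ∑ q ∈ S.toFinset, wt D.H q.1 := by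
        apply Finset.sum_le_sum
        intro q _
        set c₀ := 2 ^ (D.H * k) * anc D.H q.1 k q.2.1 + anc D.H q.1 k q.2.2 with hc₀
        calc _ ≤ ∑ c ∈ C, (if c = c₀ then wt D.H q.1 else 0) := by
              apply Finset.sum_le_sum
              intro c _
              by_cases hB : Below D.H q k (c / 2 ^ (D.H * k)) (c % 2 ^ (D.H * k))
              · have : c = c₀ := by
                  rw [hc₀, hB.2.1, hB.2.2, Nat.div_add_mod]
                rw [if_pos this, if_pos hB]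
              · rw [if_neg hB]; exact zero_le
          _ ≤ wt D.H q.1 := by
              rw [Finset.sum_ite_eq']
              split_ifs <;> simp

/-- The directions for which the square is good. -/
def Data.Th (D : Data) (n : ℕ) (q : ℕ × ℕ × ℕ) : Set ℝ :=
  {θ | θ ∈ Ico (0 : ℝ) 1 ∧ D.good n q.1 q.2.1 q.2.2 ⌊2 ^ (D.H * q.1) * θ⌋₊}

theorem Data.measurable_Th (D : Data) (n : ℕ) (q : ℕ × ℕ × ℕ) : MeasurableSet (D.Th n q) := by
  have h : D.Th n q = Ico (0 : ℝ) 1 ∩ {θ : ℝ | D.good n q.1 q.2.1 q.2.2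
    ⌊2 ^ (D.H * q.1) * θ⌋₊} := rfl
  rw [h]
  exact measurableSet_Ico.inter (measurable_floor_set _ _)

theorem Data.cert_volume (D : Data) (e : ℕ) (q : ℕ × ℕ × ℕ) :
    D.cert e q.1 q.2.1 q.2.2 ↔ ((2 : ℝ≥0∞) ^ e)⁻¹ < volume (D.Th (5 * e) q) := by
  have h : volume (D.Th (5 * e) q) =
      (cnt (2 ^ (D.H * q.1)) (fun j => D.good (5 * e) q.1 q.2.1 q.2.2 j) : ℝ≥0∞) *
        ((2 : ℝ≥0∞) ^ (D.H * q.1))⁻¹ := volume_cells _ _
  rw [h, lt_frac_iff]
  rfl

theorem Data.good_sound (D : Data) {z₁ z₂ : ℤ} {T : ℕ} (hA : Approx D z₁ z₂ T) {n k : ℕ}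
    {y : ℝ × ℝ} (hy : y ∈ usq) {θ : ℝ} (hθ : θ ∈ Ico (0 : ℝ) 1)
    (hg : D.good n k ⌊2 ^ (D.H * k) * y.1⌋₊ ⌊2 ^ (D.H * k) * y.2⌋₊ ⌊2 ^ (D.H * k) * θ⌋₊) :
    Int.fract (Real.cos (2 * Real.pi * θ) * (z₁ + y.1) +
      Real.sin (2 * Real.pi * θ) * (z₂ + y.2)) ∈ D.B n θ := by
  obtain ⟨k', hk', hg0⟩ := hg
  rw [← floor_anc' hk', ← floor_anc' hk', ← floor_anc' hk'] at hg0
  exact D.good0_sound hA hy hθ hg0

theorem Data.mass_proc (D : Data) (hH : 1 ≤ D.H) (hm : Mono D.ψ) {z₁ z₂ : ℤ} {T : ℕ}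
    (hA : Approx D z₁ z₂ T) (e m : ℕ) :
    ∑ q ∈ (D.proc e m).toFinset, wt D.H q.1 ≤
      20 * (1 + 18 * 2 ^ D.H) * (2 ^ e * 2 ^ e) * ((2 : ℝ≥0∞) ^ (5 * e))⁻¹ := by
  have hinv := D.inv_proc e m
  refine mass_bound hH hinv.goodS (z₁ : ℝ) (z₂ : ℝ) (D.B (5 * e)) (D.measurable_B (5 * e)) _
    (fun θ _ => D.volume_B hm (5 * e) θ) e (D.Th (5 * e)) (D.measurable_Th (5 * e))
    (fun q θ hθ => hθ.1) ?_ ?_
  · intro q hq
    exact ((D.cert_volume e q).1 (hinv.lvl q (List.mem_toFinset.1 hq)).2.2.2).le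
  · intro q hq θ hθ y hy
    have hlv := hinv.lvl q (List.mem_toFinset.1 hq)
    have hyu : y ∈ usq := sqr_subset_usq hlv.2.1 hlv.2.2.1 hy
    rw [mem_sqr] at hy
    apply D.good_sound hA (k := q.1) hyu hθ.1
    rw [hy.2.1, hy.2.2]
    exact hθ.2

theorem Data.enum_length (D : Data) (hH : 1 ≤ D.H) (hm : Mono D.ψ) {z₁ z₂ : ℤ} {T : ℕ}
    (hA : Approx D z₁ z₂ T) (e k m : ℕ) :
    (D.enum e k m).length * 2 ^ (3 * e) ≤ 2 ^ ((D.H + 1) * k + (D.H + 9)) := by
  by_cases h0 : D.enum e k m = []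
  · rw [h0]; simp
  have hkm : k ≤ m := by
    obtain ⟨c, hc⟩ := List.exists_mem_of_ne_nil _ h0
    exact (D.enum_sat hc).2.1
  have h1 := (D.inv_proc e m).count_sat hkm (D.enum e k m).toFinset
    (fun c hc => (D.enum_sat (List.mem_toFinset.1 hc)).2.2)
  rw [List.toFinset_card_of_nodup (D.enum_nodup e k m)] at h1
  have h2 := h1.trans (D.mass_proc hH hm hA e m)
  set n := (D.enum e k m).length
  have hk0 : (2 : ℝ≥0∞) ^ ((D.H + 1) * k) ≠ 0 := by positivity
  have hkt : (2 : ℝ≥0∞) ^ ((D.H + 1) * k) ≠ ⊤ := ENNReal.pow_ne_top (by norm_num)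
  have h3 : (n : ℝ≥0∞) * 2 ^ (3 * e) ≤ 2 ^ ((D.H + 1) * k + (D.H + 9)) := by
    calc (n : ℝ≥0∞) * 2 ^ (3 * e)
        = (n : ℝ≥0∞) * wt D.H k * (2 ^ ((D.H + 1) * k) * 2 ^ (3 * e)) := by
          unfold wt
          calc (n : ℝ≥0∞) * 2 ^ (3 * e) = n * (2 ^ ((D.H + 1) * k) *
                ((2 : ℝ≥0∞) ^ ((D.H + 1) * k))⁻¹) * 2 ^ (3 * e) := by
                rw [pow_inv_cancel, mul_one]
            _ = _ := by ring
      _ ≤ (20 * (1 + 18 * 2 ^ D.H) * (2 ^ e * 2 ^ e) * ((2 : ℝ≥0∞) ^ (5 * e))⁻¹) *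
            (2 ^ ((D.H + 1) * k) * 2 ^ (3 * e)) := by gcongr
      _ = 20 * (1 + 18 * 2 ^ D.H) * 2 ^ ((D.H + 1) * k) *
            (2 ^ (5 * e) * ((2 : ℝ≥0∞) ^ (5 * e))⁻¹) := by
          have e1 : (2 : ℝ≥0∞) ^ (5 * e) = 2 ^ e * 2 ^ e * 2 ^ (3 * e) := by
            rw [← pow_add, ← pow_add]; congr 1; ring
          calc _ = 20 * (1 + 18 * 2 ^ D.H) * 2 ^ ((D.H + 1) * k) *
                ((2 ^ e * 2 ^ e * 2 ^ (3 * e)) * ((2 : ℝ≥0∞) ^ (5 * e))⁻¹) := by ring
            _ = _ := by rw [← e1]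
      _ = 20 * (1 + 18 * 2 ^ D.H) * 2 ^ ((D.H + 1) * k) := by
          rw [pow_inv_cancel, mul_one]
      _ ≤ 2 ^ (D.H + 9) * 2 ^ ((D.H + 1) * k) := by
          gcongr
          have hnat : 20 * (1 + 18 * 2 ^ D.H) ≤ 2 ^ (D.H + 9) := by
            have : 1 ≤ 2 ^ D.H := Nat.one_le_two_pow
            rw [pow_add]
            omega
          exact_mod_cast hnat
      _ = _ := by rw [← pow_add, add_comm]
  exact_mod_cast h3

end Pool.Agent.MP_5eff62_lc
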