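import Pool.Agent.Lib.MP_5eff62_lc.Greedy

/-!
The prefix-free machine that enumerates the saturated squares, and the resulting bounds for the
complexity.
-/

set_option autoImplicit false
set_option synthInstance.maxSize 100000

namespace Pool.Agent.MP_5eff62_lc

instance PF.option_map {α β σ : Type*} [Primcodable α] [Primcodable β] [Primcodable σ]
    (o : α → Option β) (g : α → β → σ) [ho : PF o] [hg : PF (fun q : α × β => g q.1 q.2)] :
    PF (fun a => (o a).map (fun b => g a b)) :=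
  ⟨Primrec.option_map ho.pr hg.pr⟩

/-- The number of leading ones. -/
def lead (p : List Bool) : ℕ := p.findIdx (fun b => decide (b = false))

/-- The rest after the first zero. -/
def rest (p : List Bool) : List Bool := p.drop (lead p + 1)

/-- The number with the given binary digits. -/
def value (p : List Bool) : ℕ := p.foldl (fun n b => 2 * n + if b = true then 1 else 0) 0

instance PF.lead {α : Type*} [Primcodable α] (f : α → List Bool) [hf : PF f] :
    PF (fun a => lead (f a)) := by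
  have h : PF (fun p : List Bool => MP_5eff62_lc.lead p) := by
    exact PF.list_findIdx (fun p : List Bool => p) (fun _ b => b = false)
  exact PF.comp h hf

instance PF.rest {α : Type*} [Primcodable α] (f : α → List Bool) [hf : PF f] :
    PF (fun a => rest (f a)) := by
  unfold MP_5eff62_lc.rest
  infer_instance

instance PF.value {α : Type*} [Primcodable α] (f : α → List Bool) [hf : PF f] :
    PF (fun a => value (f a)) := by
  have h : PF (fun p : List Bool => MP_5eff62_lc.value p) := by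
    exact PF.list_foldl (fun p : List Bool => p) (fun _ => (0 : ℕ))
      (fun _ n b => 2 * n + if b = true then 1 else 0)
  exact PF.comp h hf

/-- The program with the given data. -/
def mkProg (n : ℕ) (r : List Bool) : List Bool := List.replicate n true ++ false :: r

theorem mkProg_length (n : ℕ) (r : List Bool) : (mkProg n r).length = n + 1 + r.length := by
  unfold mkProg
  simp
  omega

theorem lead_mkProg (n : ℕ) (r : List Bool) : lead (mkProg n r) = n := by
  unfold lead mkProg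
  induction n with
  | zero => simp [List.findIdx_cons]
  | succ n ih =>
    rw [List.replicate_succ, List.cons_append, List.findIdx_cons, ih]
    simp

theorem rest_mkProg (n : ℕ) (r : List Bool) : rest (mkProg n r) = r := by
  unfold rest
  rw [lead_mkProg]
  unfold mkProg
  rw [List.drop_append]
  simp

theorem lead_append {p t : List Bool} (h : lead p < p.length) : lead (p ++ t) = lead p := by
  unfold lead at h ⊢
  rw [List.findIdx_append, if_pos h]

theorem rest_append {p t : List Bool} (h : lead p < p.length) : rest (p ++ t) = rest p ++ t := by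
  unfold rest
  rw [lead_append h, List.drop_append_of_le_length h]

theorem value_append (p : List Bool) (b : Bool) :
    value (p ++ [b]) = 2 * value p + if b = true then 1 else 0 := by
  unfold value
  rw [List.foldl_append]
  rfl

theorem exists_value (l i : ℕ) (h : i < 2 ^ l) : ∃ p : List Bool, p.length = l ∧ value p = i := by
  induction l generalizing i with
  | zero =>
    refine ⟨[], rfl, ?_⟩
    have : i = 0 := by simpa using h
    rw [this]
    rfl
  | succ l ih =>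
    obtain ⟨p, hp, hv⟩ := ih (i / 2) (by
      rw [pow_succ] at h
      omega)
    refine ⟨p ++ [decide (i % 2 = 1)], by simp [hp], ?_⟩
    rw [value_append, hv]
    rcases Nat.mod_two_eq_zero_or_one i with h2 | h2
    · rw [h2]
      simp
      omega
    · rw [h2]
      simp
      omega

/-- The program is well formed. -/
def Data.valid (D : Data) (p : List Bool) : Prop :=
  (lead p < p.length ∧ lead (rest p) < (rest p).length) ∧
    3 * lead p ≤ (D.H + 1) * lead (rest p) + (D.H + 9) ∧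
    (rest (rest p)).length = (D.H + 1) * lead (rest p) + (D.H + 9) - 3 * lead p

instance PP.valid {α : Type*} [Primcodable α] (D : Data) (f : α → List Bool) [hf : PF f] :
    PP (fun a => D.valid (f a)) := by
  unfold Data.valid
  infer_instance

/-- The code of the corner of a square. -/
def Data.out (D : Data) (p₁ m₁ p₂ m₂ k c : ℕ) : ℕ :=
  Nat.pair
    (Nat.pair (p₁ * 2 ^ (D.H * k) + c / 2 ^ (D.H * k))
      (Nat.pair (m₁ * 2 ^ (D.H * k)) (2 ^ (D.H * k) - 1)))
    (Nat.pair (p₂ * 2 ^ (D.H * k) + c % 2 ^ (D.H * k))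
      (Nat.pair (m₂ * 2 ^ (D.H * k)) (2 ^ (D.H * k) - 1)))

open Classical in
/-- The approximation of the machine. -/
noncomputable def Data.VN (D : Data) (p₁ m₁ p₂ m₂ : ℕ) (p : List Bool) (m : ℕ) : Option ℕ :=
  if D.valid p then ((D.enum (lead p) (lead (rest p)) m)[value (rest (rest p))]?).map
    (fun c => D.out p₁ m₁ p₂ m₂ (lead (rest p)) c) else none

theorem Data.primrec_VN (D : Data) (p₁ m₁ p₂ m₂ : ℕ) :
    PF (fun q : List Bool × ℕ => D.VN p₁ m₁ p₂ m₂ q.1 q.2) := by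
  unfold Data.VN Data.out
  infer_instance

/-- The machine. -/
noncomputable def Data.V (D : Data) (p₁ m₁ p₂ m₂ : ℕ) : List Bool →. ℕ :=
  fun p => Nat.rfindOpt (D.VN p₁ m₁ p₂ m₂ p)

theorem Data.partrec_V (D : Data) (p₁ m₁ p₂ m₂ : ℕ) : Partrec (D.V p₁ m₁ p₂ m₂) := by
  unfold Data.V
  apply Partrec.rfindOpt
  exact (D.primrec_VN p₁ m₁ p₂ m₂).pr.to_comp

theorem Data.VN_mono (D : Data) (p₁ m₁ p₂ m₂ : ℕ) (p : List Bool) {a m n : ℕ} (h : m ≤ n)
    (ha : a ∈ D.VN p₁ m₁ p₂ m₂ p m) : a ∈ D.VN p₁ m₁ p₂ m₂ p n := by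
  unfold Data.VN at ha ⊢
  split_ifs at ha ⊢ with hv
  · rw [Option.mem_def, Option.map_eq_some_iff] at ha ⊢
    obtain ⟨c, hc, rfl⟩ := ha
    refine ⟨c, ?_, rfl⟩
    obtain ⟨τ, hτ⟩ := D.enum_le (e := lead p) (k := lead (rest p)) h
    have hlt : value (rest (rest p)) < (D.enum (lead p) (lead (rest p)) m).length := by
      by_contra hcon
      rw [List.getElem?_eq_none (not_lt.1 hcon)] at hc
      exact absurd hc (by simp)
    rw [hτ, List.getElem?_append_left hlt]
    exact hc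
  · simp at ha

theorem Data.mem_V (D : Data) (p₁ m₁ p₂ m₂ : ℕ) (p : List Bool) (a : ℕ) :
    a ∈ D.V p₁ m₁ p₂ m₂ p ↔ ∃ m, a ∈ D.VN p₁ m₁ p₂ m₂ p m :=
  Nat.rfindOpt_mono (fun h ha => D.VN_mono p₁ m₁ p₂ m₂ p h ha)

theorem Data.valid_of_dom (D : Data) {p₁ m₁ p₂ m₂ : ℕ} {p : List Bool}
    (h : (D.V p₁ m₁ p₂ m₂ p).Dom) : D.valid p := by
  obtain ⟨a, ha⟩ := Part.dom_iff_mem.1 h
  rw [D.mem_V] at ha
  obtain ⟨m, hm⟩ := ha
  by_contra hcon
  unfold Data.VN at hm
  rw [if_neg hcon] at hm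
  simp at hm

theorem Data.prefixFree_V (D : Data) (p₁ m₁ p₂ m₂ : ℕ) : IsPrefixFree (D.V p₁ m₁ p₂ m₂) := by
  rintro p q hp hq ⟨t, rfl⟩
  obtain ⟨⟨h1, h2⟩, h3, h4⟩ := D.valid_of_dom hp
  obtain ⟨⟨h1', h2'⟩, h3', h4'⟩ := D.valid_of_dom hq
  rw [rest_append h1, rest_append h2, lead_append h1, lead_append h2, List.length_append, h4] at h4'
  have : t.length = 0 := by omega
  rw [List.length_eq_zero_iff] at this
  rw [this, List.append_nil]

theorem Data.program (D : Data) (hH : 1 ≤ D.H) (hm : Mono D.ψ) {z₁ z₂ : ℤ} {T : ℕ}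
    (hA : Approx D z₁ z₂ T) {p₁ m₁ p₂ m₂ e k m c : ℕ} (hc : c ∈ D.enum e k m) :
    3 * e ≤ (D.H + 1) * k + (D.H + 9) ∧
      ∃ p : List Bool, p.length + 2 * e = (D.H + 2) * k + (D.H + 11) ∧
        D.out p₁ m₁ p₂ m₂ k c ∈ D.V p₁ m₁ p₂ m₂ p := by
  obtain ⟨i, hi⟩ := List.mem_iff_getElem?.1 hc
  have hlt : i < (D.enum e k m).length := by
    by_contra hcon
    rw [List.getElem?_eq_none (not_lt.1 hcon)] at hi
    exact absurd hi (by simp)
  have hlen := D.enum_length hH hm hA e k m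
  have h1 : (i + 1) * 2 ^ (3 * e) ≤ 2 ^ ((D.H + 1) * k + (D.H + 9)) :=
    (Nat.mul_le_mul_right _ hlt).trans hlen
  have h3e : 3 * e ≤ (D.H + 1) * k + (D.H + 9) := by
    have : 2 ^ (3 * e) ≤ 2 ^ ((D.H + 1) * k + (D.H + 9)) :=
      le_trans (Nat.le_mul_of_pos_left _ (Nat.succ_pos i)) h1
    exact (Nat.pow_le_pow_iff_right (by norm_num)).1 this
  refine ⟨h3e, ?_⟩
  obtain ⟨d, hd⟩ := Nat.exists_eq_add_of_le h3e
  have h2 : i < 2 ^ d := by
    rw [hd, pow_add, mul_comm (2 ^ (3 * e))] at h1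
    have := Nat.le_of_mul_le_mul_right h1 (by positivity)
    omega
  obtain ⟨b, hb, hv⟩ := exists_value d i h2
  refine ⟨mkProg e (mkProg k b), ?_, ?_⟩
  · rw [mkProg_length, mkProg_length, hb]
    have e1 : (D.H + 2) * k = (D.H + 1) * k + k := by ring
    omega
  · rw [D.mem_V]
    refine ⟨m, ?_⟩
    have hvalid : D.valid (mkProg e (mkProg k b)) := by
      unfold Data.valid
      rw [rest_mkProg, rest_mkProg, lead_mkProg, lead_mkProg, mkProg_length, mkProg_length, hb]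
      refine ⟨⟨by omega, by omega⟩, h3e, by omega⟩
    unfold Data.VN
    rw [if_pos hvalid, rest_mkProg, rest_mkProg, lead_mkProg, lead_mkProg, hv, hi]
    rfl

theorem ratPoint_out (D : Data) (z₁ z₂ : ℤ) (k c : ℕ) :
    ratPoint (D.out z₁.toNat (-z₁).toNat z₂.toNat (-z₂).toNat k c) =
      ((z₁ : ℚ) + ((c / 2 ^ (D.H * k) : ℕ) : ℚ) / 2 ^ (D.H * k),
        (z₂ : ℚ) + ((c % 2 ^ (D.H * k) : ℕ) : ℚ) / 2 ^ (D.H * k)) := by
  have hN : 1 ≤ 2 ^ (D.H * k) := Nat.one_le_two_pow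
  have hz : ∀ z : ℤ, (z : ℚ) = (z.toNat : ℚ) - ((-z).toNat : ℚ) := by
    intro z
    have : z = (z.toNat : ℤ) - ((-z).toNat : ℤ) := by omega
    exact_mod_cast congrArg (fun w : ℤ => (w : ℚ)) this
  have hN0 : (2 : ℚ) ^ (D.H * k) ≠ 0 := by positivity
  unfold ratPoint Data.out rat
  simp only [Nat.unpair_pair]
  rw [Nat.cast_sub hN]
  generalize c / 2 ^ (D.H * k) = a
  generalize c % 2 ^ (D.H * k) = b
  have e1 := hz z₁
  have e2 := hz z₂
  push_cast
  ext
  · dsimp only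
    rw [e1]
    field_simp
    ring
  · dsimp only
    rw [e2]
    field_simp
    ring

/-- The complexity of points in saturated squares. -/
theorem Data.KPrec_le (D : Data) (hH : 1 ≤ D.H) (hm : Mono D.ψ) {z₁ z₂ : ℤ} {T : ℕ}
    (hA : Approx D z₁ z₂ T) {U : List Bool →. ℕ} (hU : IsOptimal U) :
    ∃ C : ℕ, ∀ (y : ℝ × ℝ), y ∈ usq → ∀ e k m : ℕ, k ≤ m →
      D.sat m (D.proc e m) k ⌊2 ^ (D.H * k) * y.1⌋₊ ⌊2 ^ (D.H * k) * y.2⌋₊ →
      3 * e ≤ (D.H + 1) * k + (D.H + 9) ∧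
      (1 ≤ k → KPrec U (z₁ + y.1, z₂ + y.2) (D.H * k - 1) + 2 * e ≤ (D.H + 2) * k + C) := by
  obtain ⟨C, hC⟩ := hU.2.2 (D.V z₁.toNat (-z₁).toNat z₂.toNat (-z₂).toNat) (D.partrec_V _ _ _ _)
    (D.prefixFree_V _ _ _ _)
  refine ⟨D.H + 11 + C, ?_⟩
  intro y hy e k m hk hsat
  set N := 2 ^ (D.H * k) with hN
  have hN0 : 0 < N := by positivity
  have ha : ⌊2 ^ (D.H * k) * y.1⌋₊ < N := floor_lt _ hy.1
  have hb : ⌊2 ^ (D.H * k) * y.2⌋₊ < N := floor_lt _ hy.2
  set a := ⌊2 ^ (D.H * k) * y.1⌋₊ with hadef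
  set b := ⌊2 ^ (D.H * k) * y.2⌋₊ with hbdef
  obtain ⟨c, hcdef⟩ : ∃ c, c = N * a + b := ⟨_, rfl⟩
  have hca : c / N = a := by
    rw [hcdef, Nat.mul_add_div hN0, Nat.div_eq_of_lt hb, add_zero]
  have hcb : c % N = b := by
    rw [hcdef, Nat.mul_add_mod, Nat.mod_eq_of_lt hb]
  have hcN : c < N * N := by
    have : N * (a + 1) ≤ N * N := Nat.mul_le_mul_left _ ha
    rw [hcdef]
    calc N * a + b < N * a + N := by omega
      _ = N * (a + 1) := by ring
      _ ≤ N * N := this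
  have hmem : c ∈ D.enum e k (m + 1) := by
    rw [D.mem_enum_succ]
    right
    refine ⟨hcN, hk, ?_⟩
    rw [← hN, hca, hcb]
    exact hsat
  obtain ⟨h3e, p, hp, hV⟩ := D.program hH hm hA (p₁ := z₁.toNat) (m₁ := (-z₁).toNat)
    (p₂ := z₂.toNat) (m₂ := (-z₂).toNat) hmem
  refine ⟨h3e, fun hk1 => ?_⟩
  obtain ⟨q, hq, hqU⟩ := hC p _ hV
  have hKP : KPoint U (ratPoint (D.out z₁.toNat (-z₁).toNat z₂.toNat (-z₂).toNat k c)) ≤
      q.length := Nat.sInf_le ⟨q, rfl, _, hqU, rfl⟩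
  have hKr : KPrec U (z₁ + y.1, z₂ + y.2) (D.H * k - 1) ≤
      KPoint U (ratPoint (D.out z₁.toNat (-z₁).toNat z₂.toNat (-z₂).toNat k c)) := by
    apply Nat.sInf_le
    refine ⟨_, ?_, rfl⟩
    rw [ratPoint_out, ← hN, hca, hcb]
    dsimp only
    have h0 : (0 : ℝ) < 2 ^ (D.H * k) := by positivity
    have hd1 := cell_near (L := D.H * k) hy.1.1
    have hd2 := cell_near (L := D.H * k) hy.2.1
    rw [← hadef] at hd1
    rw [← hbdef] at hd2
    push_cast
    have hHk : 1 ≤ D.H * k := Nat.mul_pos hH hk1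
    have hhalf : (1 / 2 : ℝ) ^ (D.H * k - 1) = 2 * (1 / 2 ^ (D.H * k)) := by
      obtain ⟨w, hw⟩ := Nat.exists_eq_add_of_le hHk
      rw [hw, Nat.add_sub_cancel_left, pow_add, pow_one, one_div_pow]
      field_simp
    rw [hhalf]
    apply Real.sqrt_le_iff.2
    refine ⟨by positivity, ?_⟩
    have e1 : ((z₁ : ℝ) + (a : ℝ) / 2 ^ (D.H * k) - (z₁ + y.1)) ^ 2 ≤ (1 / 2 ^ (D.H * k)) ^ 2 := by
      rw [← sq_abs]
      apply pow_le_pow_left₀ (abs_nonneg _)
      rw [abs_sub_comm]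
      have : (z₁ : ℝ) + y.1 - (z₁ + (a : ℝ) / 2 ^ (D.H * k)) = y.1 - (a : ℝ) / 2 ^ (D.H * k) := by
        ring
      rw [this]
      exact hd1
    have e2 : ((z₂ : ℝ) + (b : ℝ) / 2 ^ (D.H * k) - (z₂ + y.2)) ^ 2 ≤ (1 / 2 ^ (D.H * k)) ^ 2 := by
      rw [← sq_abs]
      apply pow_le_pow_left₀ (abs_nonneg _)
      rw [abs_sub_comm]
      have : (z₂ : ℝ) + y.2 - (z₂ + (b : ℝ) / 2 ^ (D.H * k)) = y.2 - (b : ℝ) / 2 ^ (D.H * k) := by
        ring
      rw [this]
      exact hd2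
    have e3 : 0 ≤ (1 / (2 : ℝ) ^ (D.H * k)) ^ 2 := by positivity
    calc _ ≤ (1 / (2 : ℝ) ^ (D.H * k)) ^ 2 + (1 / 2 ^ (D.H * k)) ^ 2 := add_le_add e1 e2
      _ ≤ _ := by rw [mul_pow]; linarith
  omega

end Pool.Agent.MP_5eff62_lc
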