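import Pool.Agent.Lib.MP_5eff62_lc.Tests

/-!
Measure and correctness of the trimmed tests and of certified squares.
-/

set_option autoImplicit false

namespace Pool.Agent.MP_5eff62_lc

open MeasureTheory Set
open scoped ENNReal

theorem Data.gN_mono (D : Data) (hm : Mono D.ψ) {n l l' j c : ℕ} (h : l ≤ l')
    (hg : D.gN n l (j / 2 ^ (l' - l)) (c / 2 ^ (l' - l))) : D.gN n l' j c := by
  obtain ⟨d, rfl⟩ := Nat.exists_eq_add_of_le h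
  rw [Nat.add_sub_cancel_left] at hg
  have hd : 0 < 2 ^ d := by positivity
  have h1 : c < (c / 2 ^ d + 1) * 2 ^ d := by
    have := Nat.lt_mul_div_succ c hd
    rwa [mul_comm] at this
  have h2 : c / 2 ^ d * 2 ^ d ≤ c := Nat.div_mul_le_self c _
  have hp : 2 ^ (l + d) = 2 ^ l * 2 ^ d := pow_add _ _ _
  rcases hg with (hg | hg) | ⟨i, hi, m, hψ, hc⟩
  · left; left
    rw [hp]
    calc (c + 1) * 2 ^ (n + 2) ≤ ((c / 2 ^ d + 1) * 2 ^ d) * 2 ^ (n + 2) :=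
          Nat.mul_le_mul_right _ h1
      _ = ((c / 2 ^ d + 1) * 2 ^ (n + 2)) * 2 ^ d := by ring
      _ ≤ 2 ^ l * 2 ^ d := Nat.mul_le_mul_right _ hg
  · left; right
    rw [hp]
    calc 2 ^ l * 2 ^ d * 2 ^ (n + 2) = (2 ^ l * 2 ^ (n + 2)) * 2 ^ d := by ring
      _ ≤ (c / 2 ^ d * 2 ^ (n + 2) + 2 ^ l) * 2 ^ d := Nat.mul_le_mul_right _ hg
      _ = (c / 2 ^ d * 2 ^ d) * 2 ^ (n + 2) + 2 ^ l * 2 ^ d := by ring
      _ ≤ c * 2 ^ (n + 2) + 2 ^ l * 2 ^ d := by gcongr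
  · right
    refine ⟨i, by omega, m, ?_, ?_⟩
    · obtain ⟨τ, hτ⟩ := sig_append (Nat.le_add_right l d) j
      rw [Nat.add_sub_cancel_left] at hτ
      rw [hτ]
      exact hm _ _ _ _ hψ
    · rw [coversN_iff] at hc ⊢
      have h0 : (0 : ℝ) < 2 ^ l := by positivity
      have h0' : (0 : ℝ) < 2 ^ (l + d) := by positivity
      constructor
      · refine lt_of_lt_of_le hc.1 ?_
        rw [div_le_div_iff₀ h0 h0', pow_add]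
        have : ((c / 2 ^ d : ℕ) : ℝ) * 2 ^ d ≤ c := by exact_mod_cast h2
        calc ((c / 2 ^ d : ℕ) : ℝ) * (2 ^ l * 2 ^ d) =
              (((c / 2 ^ d : ℕ) : ℝ) * 2 ^ d) * 2 ^ l := by ring
          _ ≤ c * 2 ^ l := by gcongr
      · refine lt_of_le_of_lt ?_ hc.2
        rw [div_le_div_iff₀ h0' h0, pow_add]
        have : (c : ℝ) + 1 ≤ (((c / 2 ^ d : ℕ) : ℝ) + 1) * 2 ^ d := by exact_mod_cast h1
        calc ((c : ℝ) + 1) * 2 ^ l ≤ ((((c / 2 ^ d : ℕ) : ℝ) + 1) * 2 ^ d) * 2 ^ l := by gcongr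
          _ = _ := by ring

/-- The set of the test at a finite level. -/
def Data.A (D : Data) (n : ℕ) (θ : ℝ) (l : ℕ) : Set ℝ :=
  {v | v ∈ Ico (0 : ℝ) 1 ∧ D.gN n l ⌊2 ^ l * θ⌋₊ ⌊2 ^ l * v⌋₊}

theorem Data.A_mono (D : Data) (hm : Mono D.ψ) (n : ℕ) (θ : ℝ) : Monotone (D.A n θ) := by
  intro l l' h v hv
  refine ⟨hv.1, D.gN_mono hm h ?_⟩
  rw [← floor_anc h, ← floor_anc h]
  exact hv.2

theorem Data.volume_A (D : Data) (n : ℕ) (θ : ℝ) (l : ℕ) :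
    volume (D.A n θ l) = (cnt (2 ^ l) (fun c => D.gN n l ⌊2 ^ l * θ⌋₊ c) : ℝ≥0∞) *
      ((2 : ℝ≥0∞) ^ l)⁻¹ :=
  volume_cells l _

theorem frac_le_iff (c n l : ℕ) : (c : ℝ≥0∞) * ((2 : ℝ≥0∞) ^ l)⁻¹ ≤ ((2 : ℝ≥0∞) ^ n)⁻¹ ↔
    c * 2 ^ n ≤ 2 ^ l := by
  have hl : (2 : ℝ≥0∞) ^ l ≠ 0 := by positivity
  have hlt : (2 : ℝ≥0∞) ^ l ≠ ⊤ := ENNReal.pow_ne_top (by norm_num)
  have hn : (2 : ℝ≥0∞) ^ n ≠ 0 := by positivity
  have hnt : (2 : ℝ≥0∞) ^ n ≠ ⊤ := ENNReal.pow_ne_top (by norm_num)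
  rw [← div_eq_mul_inv, ENNReal.div_le_iff hl hlt, mul_comm (((2 : ℝ≥0∞) ^ n)⁻¹),
    ← div_eq_mul_inv, ENNReal.le_div_iff_mul_le (Or.inl hn) (Or.inl hnt)]
  constructor
  · intro h; exact_mod_cast h
  · intro h; exact_mod_cast h

theorem lt_frac_iff (c n l : ℕ) : ((2 : ℝ≥0∞) ^ n)⁻¹ < (c : ℝ≥0∞) * ((2 : ℝ≥0∞) ^ l)⁻¹ ↔
    2 ^ l < c * 2 ^ n := by
  rw [← not_le, frac_le_iff, not_le]

theorem Data.okN_iff (D : Data) (n : ℕ) (θ : ℝ) (l : ℕ) :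
    D.okN n l ⌊2 ^ l * θ⌋₊ ↔ volume (D.A n θ l) ≤ ((2 : ℝ≥0∞) ^ n)⁻¹ := by
  rw [D.volume_A, frac_le_iff]
  rfl

/-- The trimmed test, as a family of sets. -/
def Data.B (D : Data) (n : ℕ) (θ : ℝ) : Set ℝ :=
  {v | v ∈ Ico (0 : ℝ) 1 ∧ ∃ l, D.gt n l ⌊2 ^ l * θ⌋₊ ⌊2 ^ l * v⌋₊}

theorem measurable_floor_set (l : ℕ) (p : ℕ → Prop) :
    MeasurableSet {v : ℝ | p ⌊2 ^ l * v⌋₊} := by
  have h : Measurable fun v : ℝ => ⌊2 ^ l * v⌋₊ :=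
    Nat.measurable_floor.comp (measurable_const_mul _)
  exact h (MeasurableSet.of_discrete (s := {c | p c}))

theorem Data.measurable_B (D : Data) (n : ℕ) (θ : ℝ) : MeasurableSet (D.B n θ) := by
  have h : D.B n θ = Ico (0 : ℝ) 1 ∩ ⋃ l, {v : ℝ | D.gt n l ⌊2 ^ l * θ⌋₊ ⌊2 ^ l * v⌋₊} := by
    ext v
    simp [Data.B]
  rw [h]
  exact measurableSet_Ico.inter (MeasurableSet.iUnion fun l =>
    measurable_floor_set l (fun c => D.gt n l ⌊2 ^ l * θ⌋₊ c))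

theorem Data.volume_B (D : Data) (hm : Mono D.ψ) (n : ℕ) (θ : ℝ) :
    volume (D.B n θ) ≤ ((2 : ℝ≥0∞) ^ n)⁻¹ := by
  have h : D.B n θ = ⋃ l, {v | D.okN n l ⌊2 ^ l * θ⌋₊ ∧ v ∈ D.A n θ l} := by
    ext v
    simp only [Data.B, Data.A, Data.gt, mem_ofPred_eq, mem_iUnion]
    constructor
    · rintro ⟨h1, l, h2, h3⟩
      exact ⟨l, h2, h1, h3⟩
    · rintro ⟨l, h2, h1, h3⟩
      exact ⟨h1, l, h2, h3⟩
  have hdir : Directed (· ⊆ ·) (fun l => {v | D.okN n l ⌊2 ^ l * θ⌋₊ ∧ v ∈ D.A n θ l}) := by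
    intro l l'
    by_cases hok : D.okN n (max l l') ⌊2 ^ (max l l') * θ⌋₊
    · refine ⟨max l l', ?_, ?_⟩
      · rintro v ⟨-, hv⟩
        exact ⟨hok, D.A_mono hm n θ (le_max_left l l') hv⟩
      · rintro v ⟨-, hv⟩
        exact ⟨hok, D.A_mono hm n θ (le_max_right l l') hv⟩
    · rcases le_total l l' with hl | hl
      · rw [max_eq_right hl] at hok
        refine ⟨l, subset_rfl, ?_⟩
        rintro v ⟨hv, -⟩
        exact absurd hv hok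
      · rw [max_eq_left hl] at hok
        refine ⟨l', ?_, subset_rfl⟩
        rintro v ⟨hv, -⟩
        exact absurd hv hok
  rw [h, hdir.measure_iUnion]
  apply iSup_le
  intro l
  by_cases hok : D.okN n l ⌊2 ^ l * θ⌋₊
  · refine le_trans (measure_mono ?_) ((D.okN_iff n θ l).1 hok)
    rintro v ⟨-, hv⟩
    exact hv
  · have : {v | D.okN n l ⌊2 ^ l * θ⌋₊ ∧ v ∈ D.A n θ l} = ∅ := by
      ext v; simp [hok]
    rw [this]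
    simp

/-- `f` is represented by `ψ` relative to the oracle `X`. -/
def Repr (X : ℕ → ℕ) (ψ : List ℕ → ℕ → Option ℕ) (f : ℕ → ℕ) : Prop :=
  ∀ n y, y = f n ↔ ∃ s, ψ (res X s) n = some y

theorem cell_bounds {l : ℕ} {v : ℝ} (hv : 0 ≤ v) :
    (⌊2 ^ l * v⌋₊ : ℝ) / 2 ^ l ≤ v ∧ v < ((⌊2 ^ l * v⌋₊ : ℝ) + 1) / 2 ^ l := by
  have := (mem_icell (L := l) (c := ⌊2 ^ l * v⌋₊) (x := v)).2 ⟨hv, rfl⟩
  exact this

theorem Data.okN_true (D : Data) {θ : ℝ} (hθ : θ ∈ Ico (0 : ℝ) 1) (f : ℕ → ℕ)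
    (hf : ∀ n : ℕ, volume (⋃ i : ℕ, interval (f (Nat.pair n i))) ≤ ((2 : ℝ≥0∞) ^ n)⁻¹)
    (hrep : Repr (oracle θ) D.ψ f) (n l : ℕ) : D.okN n l ⌊2 ^ l * θ⌋₊ := by
  rw [D.okN_iff]
  have hl0 : (0 : ℝ) < 2 ^ l := by positivity
  have hn0 : (0 : ℝ) < 2 ^ (n + 2) := by positivity
  have hsub : D.A n θ l ⊆ (Ico (0 : ℝ) (1 / 2 ^ (n + 2)) ∪ Ico (1 - 1 / 2 ^ (n + 2)) 1) ∪
      ⋃ i : ℕ, interval (f (Nat.pair (n + 1) i)) := by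
    rintro v ⟨hv, hg⟩
    obtain ⟨hc1, hc2⟩ := cell_bounds (l := l) hv.1
    rcases hg with (hg | hg) | ⟨i, hi, m, hψ, hc⟩
    · left; left
      refine ⟨hv.1, lt_of_lt_of_le hc2 ?_⟩
      rw [div_le_div_iff₀ hl0 hn0, one_mul]
      exact_mod_cast hg
    · left; right
      refine ⟨le_trans ?_ hc1, hv.2⟩
      have hg' : (2 : ℝ) ^ l * 2 ^ (n + 2) ≤ ⌊2 ^ l * v⌋₊ * 2 ^ (n + 2) + 2 ^ l := by
        exact_mod_cast hg
      rw [le_div_iff₀ hl0, sub_mul, one_mul, sub_le_iff_le_add]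
      have h3 : (2 : ℝ) ^ l ≤ (⌊2 ^ l * v⌋₊ * 2 ^ (n + 2) + 2 ^ l) / 2 ^ (n + 2) := by
        rw [le_div_iff₀ hn0]; exact hg'
      calc (2 : ℝ) ^ l ≤ _ := h3
        _ = _ := by field_simp
    · right
      rw [mem_iUnion]
      refine ⟨i, ?_⟩
      rw [sig_eq_res hθ] at hψ
      have := (hrep _ m).2 ⟨_, hψ⟩
      rw [← this]
      rw [coversN_iff] at hc
      exact ⟨lt_of_lt_of_le hc.1 hc1, hc2.trans hc.2⟩
  have e1 : ENNReal.ofReal (1 / 2 ^ (n + 2)) = ((2 : ℝ≥0∞) ^ (n + 2))⁻¹ := ofReal_two_pow_inv _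
  calc volume (D.A n θ l) ≤ _ := measure_mono hsub
    _ ≤ (volume (Ico (0 : ℝ) (1 / 2 ^ (n + 2))) + volume (Ico (1 - 1 / 2 ^ (n + 2) : ℝ) 1)) +
          volume (⋃ i : ℕ, interval (f (Nat.pair (n + 1) i))) :=
        (measure_union_le _ _).trans (add_le_add_left (measure_union_le _ _) _)
    _ ≤ (((2 : ℝ≥0∞) ^ (n + 2))⁻¹ + ((2 : ℝ≥0∞) ^ (n + 2))⁻¹) + ((2 : ℝ≥0∞) ^ (n + 1))⁻¹ := by
        apply add_le_add _ (hf (n + 1))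
        rw [Real.volume_Ico, Real.volume_Ico, sub_zero, sub_sub_cancel, e1]
    _ = ((2 : ℝ≥0∞) ^ n)⁻¹ := by
        have h1 : ∀ m : ℕ, ((2 : ℝ≥0∞) ^ (m + 1))⁻¹ + ((2 : ℝ≥0∞) ^ (m + 1))⁻¹ =
            ((2 : ℝ≥0∞) ^ m)⁻¹ := by
          intro m
          rw [pow_succ, ENNReal.mul_inv (Or.inl (by positivity))
            (Or.inl (ENNReal.pow_ne_top (by norm_num))), ← mul_add, ENNReal.inv_two_add_inv_two,
            mul_one]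
        rw [h1 (n + 1), h1 n]

theorem Data.hit (D : Data) (hm : Mono D.ψ) {θ : ℝ} (hθ : θ ∈ Ico (0 : ℝ) 1) (f : ℕ → ℕ)
    (hf : ∀ n : ℕ, volume (⋃ i : ℕ, interval (f (Nat.pair n i))) ≤ ((2 : ℝ≥0∞) ^ n)⁻¹)
    (hrep : Repr (oracle θ) D.ψ f) (n : ℕ) {u : ℝ} (hu : 0 ≤ u)
    (hv : Int.fract u ∈ ⋃ i : ℕ, interval (f (Nat.pair (n + 1) i))) :
    ∃ l, ∀ c : ℕ, |(c : ℝ) - 2 ^ l * u| < 2 → D.gt n l ⌊2 ^ l * θ⌋₊ (c % 2 ^ l) := by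
  suffices h : ∃ l, ∀ c : ℕ, |(c : ℝ) - 2 ^ l * u| < 2 → D.gN n l ⌊2 ^ l * θ⌋₊ (c % 2 ^ l) by
    obtain ⟨l, hl⟩ := h
    exact ⟨l, fun c hc => ⟨D.okN_true hθ f hf hrep n l, hl c hc⟩⟩
  obtain ⟨U, hU⟩ : ∃ U : ℕ, u = U + Int.fract u := by
    refine ⟨⌊u⌋.toNat, ?_⟩
    have h1 : ((⌊u⌋.toNat : ℕ) : ℤ) = ⌊u⌋ := Int.toNat_of_nonneg (Int.floor_nonneg.2 hu)
    have h2 : ((⌊u⌋.toNat : ℕ) : ℝ) = (⌊u⌋ : ℝ) := by exact_mod_cast h1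
    rw [h2, Int.floor_add_fract]
  set v := Int.fract u with hvdef
  have hv0 : 0 ≤ v := Int.fract_nonneg u
  have hv1 : v < 1 := Int.fract_lt_one u
  rcases hv0.eq_or_lt with h0 | h0
  · -- the fractional part is zero
    refine ⟨n + 4, fun c hc => ?_⟩
    rw [hU, ← h0, add_zero] at hc
    have hc' : |(c : ℤ) - 2 ^ (n + 4) * U| < 2 := by exact_mod_cast hc
    rw [abs_lt] at hc'
    have hpow : 2 ^ (n + 4) = 4 * 2 ^ (n + 2) := by ring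
    have hpos : 0 < 2 ^ (n + 2) := by positivity
    obtain ⟨h1, h2⟩ := hc'
    have hcases : c = 2 ^ (n + 4) * U ∨ c = 2 ^ (n + 4) * U + 1 ∨ c + 1 = 2 ^ (n + 4) * U := by
      have h3 : ((2 ^ (n + 4) * U : ℕ) : ℤ) = 2 ^ (n + 4) * (U : ℤ) := by push_cast; ring
      rw [← h3] at h1 h2
      omega
    left
    rcases hcases with h | h | h
    · left
      rw [h, Nat.mul_mod_right, hpow]
      omega
    · left
      rw [h, Nat.mul_add_mod, Nat.mod_eq_of_lt (by rw [hpow]; omega), hpow]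
      omega
    · right
      have h3 : c % 2 ^ (n + 4) = 2 ^ (n + 4) - 1 := by
        have hU1 : 1 ≤ U := by
          by_contra hcon
          have : U = 0 := by omega
          rw [this] at h
          omega
        obtain ⟨U', rfl⟩ := Nat.exists_eq_add_of_le hU1
        have h4 : c = 2 ^ (n + 4) * U' + (2 ^ (n + 4) - 1) := by
          have h5 : 2 ^ (n + 4) * (1 + U') = 2 ^ (n + 4) * U' + 2 ^ (n + 4) := by ring
          have h6 : 0 < 2 ^ (n + 4) := by positivity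
          omega
        rw [h4, Nat.mul_add_mod, Nat.mod_eq_of_lt (Nat.sub_lt (by positivity) one_pos)]
      rw [h3]
      obtain ⟨w, hw⟩ : ∃ w, 2 ^ (n + 4) = w + 1 := ⟨2 ^ (n + 4) - 1, by
        have : 0 < 2 ^ (n + 4) := by positivity
        omega⟩
      have h7 : 2 ^ (n + 2) ≤ 2 ^ (n + 4) := by rw [hpow]; omega
      rw [hw] at h7 ⊢
      rw [Nat.add_sub_cancel]
      calc (w + 1) * 2 ^ (n + 2) = w * 2 ^ (n + 2) + 2 ^ (n + 2) := by ring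
        _ ≤ _ := by omega
  · rw [mem_iUnion] at hv
    obtain ⟨i, hi⟩ := hv
    obtain ⟨s, hs⟩ := (hrep (Nat.pair (n + 1) i) _).1 rfl
    set m := f (Nat.pair (n + 1) i) with hmdef
    set p : ℝ := ((rat m.unpair.1 : ℚ) : ℝ) with hp
    set q : ℝ := ((rat m.unpair.2 : ℚ) : ℝ) with hq
    obtain ⟨hi1, hi2⟩ : p < v ∧ v < q := hi
    obtain ⟨ε, hε, he1, he2, he3, he4⟩ : ∃ ε : ℝ, 0 < ε ∧ ε ≤ v - p ∧ ε ≤ q - v ∧ ε ≤ v ∧
        ε ≤ 1 - v := by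
      refine ⟨min (min (v - p) (q - v)) (min v (1 - v)), ?_, ?_, ?_, ?_, ?_⟩
      · apply lt_min <;> apply lt_min <;> linarith
      · exact (min_le_left _ _).trans (min_le_left _ _)
      · exact (min_le_left _ _).trans (min_le_right _ _)
      · exact (min_le_right _ _).trans (min_le_left _ _)
      · exact (min_le_right _ _).trans (min_le_right _ _)
    obtain ⟨l₀, hl₀⟩ : ∃ l₀ : ℕ, 3 / ε < 2 ^ l₀ := pow_unbounded_of_one_lt _ (by norm_num)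
    refine ⟨max l₀ (max i s), fun c hc => ?_⟩
    set l := max l₀ (max i s) with hl
    have hl0 : (0 : ℝ) < 2 ^ l := by positivity
    have hbig : 3 / 2 ^ l < ε := by
      rw [div_lt_iff₀ hl0]
      rw [div_lt_iff₀ hε] at hl₀
      have : (2 : ℝ) ^ l₀ ≤ 2 ^ l := pow_le_pow_right₀ (by norm_num) (le_max_left _ _)
      nlinarith
    have hil : i ≤ l := (le_max_left i s).trans (le_max_right _ _)
    have hsl : s ≤ l := (le_max_right i s).trans (le_max_right _ _)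
    -- the position of `c`
    have hcd : |(c : ℝ) / 2 ^ l - u| < 2 / 2 ^ l := by
      have : (c : ℝ) / 2 ^ l - u = ((c : ℝ) - 2 ^ l * u) / 2 ^ l := by field_simp
      rw [this, abs_div, abs_of_pos hl0]
      exact div_lt_div_of_pos_right hc hl0
    rw [abs_lt] at hcd
    have e32 : (3 : ℝ) / 2 ^ l = 2 / 2 ^ l + 1 / 2 ^ l := by ring
    have hinv : 0 < 1 / (2 : ℝ) ^ l := by positivity
    have hlow : (U : ℝ) < (c : ℝ) / 2 ^ l := by linarith [hcd.1]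
    have hhigh : ((c : ℝ) + 1) / 2 ^ l < U + 1 := by
      rw [add_div]; linarith [hcd.2]
    have hc1 : U * 2 ^ l ≤ c := by
      rw [lt_div_iff₀ hl0] at hlow
      have : U * 2 ^ l < c := by exact_mod_cast hlow
      exact this.le
    have hc2 : c < (U + 1) * 2 ^ l := by
      rw [div_lt_iff₀ hl0] at hhigh
      have : c + 1 < (U + 1) * 2 ^ l := by exact_mod_cast hhigh
      omega
    obtain ⟨c₀, hc₀⟩ := Nat.exists_eq_add_of_le hc1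
    have hc₀lt : c₀ < 2 ^ l := by
      rw [hc₀, add_mul, one_mul] at hc2
      omega
    have hmod : c % 2 ^ l = c₀ := by
      rw [hc₀, Nat.mul_comm U, Nat.mul_add_mod, Nat.mod_eq_of_lt hc₀lt]
    have hc₀r : (c : ℝ) / 2 ^ l = U + (c₀ : ℝ) / 2 ^ l := by
      rw [hc₀]; push_cast; field_simp
    rw [hmod]
    right
    refine ⟨i, hil, m, ?_, ?_⟩
    · rw [sig_eq_res hθ]
      exact hm.le (oracle θ) (by omega) hs
    · rw [coversN_iff]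
      constructor
      · change p < _
        linarith [hcd.1]
      · change _ < q
        rw [add_div]
        linarith [hcd.2]

/-- The functions `P` approximate the projections. -/
def Approx (D : Data) (z₁ z₂ : ℤ) (T : ℕ) : Prop :=
  ∀ (L a b j : ℕ), a < 2 ^ L → b < 2 ^ L → ∀ x₁ x₂ θ : ℝ, |x₁ - (z₁ + a / 2 ^ L)| ≤ 1 / 2 ^ L →
      |x₂ - (z₂ + b / 2 ^ L)| ≤ 1 / 2 ^ L → |θ - j / 2 ^ L| ≤ 1 / 2 ^ L →
      D.E ≤ D.P L a b j ∧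
      |2 ^ L * (Real.cos (2 * Real.pi * θ) * x₁ + Real.sin (2 * Real.pi * θ) * x₂ + T) -
        D.P L a b j| ≤ D.E

theorem cell_near {L : ℕ} {x : ℝ} (hx : 0 ≤ x) :
    |x - (⌊2 ^ L * x⌋₊ : ℝ) / 2 ^ L| ≤ 1 / 2 ^ L := by
  obtain ⟨h1, h2⟩ := cell_bounds (l := L) hx
  rw [add_div] at h2
  rw [abs_le]
  constructor
  · have : 0 < 1 / (2 : ℝ) ^ L := by positivity
    linarith
  · linarith

theorem Data.floor_between (D : Data) {z₁ z₂ : ℤ} {T : ℕ} (hA : Approx D z₁ z₂ T) (k : ℕ)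
    {y : ℝ × ℝ} (hy : y ∈ usq) {θ : ℝ} (hθ : θ ∈ Ico (0 : ℝ) 1) {l : ℕ} (hl : l ≤ D.H * k)
    {u : ℝ} (hu : u = Real.cos (2 * Real.pi * θ) * (z₁ + y.1) +
      Real.sin (2 * Real.pi * θ) * (z₂ + y.2) + T) :
    D.E ≤ D.P (D.H * k) ⌊2 ^ (D.H * k) * y.1⌋₊ ⌊2 ^ (D.H * k) * y.2⌋₊ ⌊2 ^ (D.H * k) * θ⌋₊ ∧
    0 ≤ u ∧
    (D.P (D.H * k) ⌊2 ^ (D.H * k) * y.1⌋₊ ⌊2 ^ (D.H * k) * y.2⌋₊ ⌊2 ^ (D.H * k) * θ⌋₊ - D.E) /
      2 ^ (D.H * k - l) ≤ ⌊2 ^ l * u⌋₊ ∧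
    ⌊2 ^ l * u⌋₊ ≤
      (D.P (D.H * k) ⌊2 ^ (D.H * k) * y.1⌋₊ ⌊2 ^ (D.H * k) * y.2⌋₊ ⌊2 ^ (D.H * k) * θ⌋₊ + D.E) /
      2 ^ (D.H * k - l) := by
  set L := D.H * k with hL
  have h1 := hA L ⌊2 ^ L * y.1⌋₊ ⌊2 ^ L * y.2⌋₊ ⌊2 ^ L * θ⌋₊ (floor_lt L hy.1) (floor_lt L hy.2)
    (z₁ + y.1) (z₂ + y.2) θ (by
      have := cell_near (L := L) hy.1.1
      have e : (z₁ : ℝ) + y.1 - (z₁ + (⌊2 ^ L * y.1⌋₊ : ℝ) / 2 ^ L) =
        y.1 - (⌊2 ^ L * y.1⌋₊ : ℝ) / 2 ^ L := by ring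
      rw [e]; exact this) (by
      have := cell_near (L := L) hy.2.1
      have e : (z₂ : ℝ) + y.2 - (z₂ + (⌊2 ^ L * y.2⌋₊ : ℝ) / 2 ^ L) =
        y.2 - (⌊2 ^ L * y.2⌋₊ : ℝ) / 2 ^ L := by ring
      rw [e]; exact this) (cell_near hθ.1)
  rw [← hu] at h1
  obtain ⟨hE, h2⟩ := h1
  set p := D.P L ⌊2 ^ L * y.1⌋₊ ⌊2 ^ L * y.2⌋₊ ⌊2 ^ L * θ⌋₊ with hp
  rw [abs_le] at h2
  have hlow : ((p - D.E : ℕ) : ℝ) ≤ 2 ^ L * u := by
    rw [Nat.cast_sub hE]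
    linarith [h2.1]
  have hhigh : 2 ^ L * u ≤ ((p + D.E : ℕ) : ℝ) := by
    push_cast
    linarith [h2.2]
  have hu0 : 0 ≤ u := by
    have h0 : (0 : ℝ) < 2 ^ L := by positivity
    have h3 : 0 ≤ 2 ^ L * u := le_trans (Nat.cast_nonneg _) hlow
    by_contra hcon
    have := mul_neg_of_pos_of_neg h0 (not_le.1 hcon)
    linarith
  refine ⟨hE, hu0, ?_, ?_⟩
  · rw [floor_anc hl]
    exact Nat.div_le_div_right (Nat.le_floor hlow)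
  · rw [floor_anc hl]
    apply Nat.div_le_div_right
    exact Nat.floor_le_of_le hhigh

theorem floor_fract {u : ℝ} (hu : 0 ≤ u) (l : ℕ) :
    ⌊2 ^ l * Int.fract u⌋₊ = ⌊2 ^ l * u⌋₊ % 2 ^ l := by
  obtain ⟨U, hU⟩ : ∃ U : ℕ, u = U + Int.fract u := by
    refine ⟨⌊u⌋.toNat, ?_⟩
    have h1 : ((⌊u⌋.toNat : ℕ) : ℤ) = ⌊u⌋ := Int.toNat_of_nonneg (Int.floor_nonneg.2 hu)
    have h2 : ((⌊u⌋.toNat : ℕ) : ℝ) = (⌊u⌋ : ℝ) := by exact_mod_cast h1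
    rw [h2, Int.floor_add_fract]
  have hv : Int.fract u ∈ Ico (0 : ℝ) 1 := ⟨Int.fract_nonneg u, Int.fract_lt_one u⟩
  have h3 : 2 ^ l * u = 2 ^ l * Int.fract u + ((2 ^ l * U : ℕ) : ℝ) := by
    conv_lhs => rw [hU]
    push_cast
    ring
  rw [h3, Nat.floor_add_natCast (mul_nonneg (by positivity) hv.1), Nat.add_mul_mod_self_left,
    Nat.mod_eq_of_lt (floor_lt l hv)]

theorem Data.good0_sound (D : Data) {z₁ z₂ : ℤ} {T : ℕ} (hA : Approx D z₁ z₂ T) {n k : ℕ}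
    {y : ℝ × ℝ} (hy : y ∈ usq) {θ : ℝ} (hθ : θ ∈ Ico (0 : ℝ) 1)
    (hg : D.good0 n k ⌊2 ^ (D.H * k) * y.1⌋₊ ⌊2 ^ (D.H * k) * y.2⌋₊ ⌊2 ^ (D.H * k) * θ⌋₊) :
    Int.fract (Real.cos (2 * Real.pi * θ) * (z₁ + y.1) +
      Real.sin (2 * Real.pi * θ) * (z₂ + y.2)) ∈ D.B n θ := by
  obtain ⟨l, hl, hle, hg1, hg2⟩ := hg
  obtain ⟨hE, hu0, h1, h2⟩ := D.floor_between hA k hy hθ hl rfl
  set p := D.P (D.H * k) ⌊2 ^ (D.H * k) * y.1⌋₊ ⌊2 ^ (D.H * k) * y.2⌋₊ ⌊2 ^ (D.H * k) * θ⌋₊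
  set w := Real.cos (2 * Real.pi * θ) * (z₁ + y.1) + Real.sin (2 * Real.pi * θ) * (z₂ + y.2)
    with hw
  have hfr : Int.fract (w + T) = Int.fract w := Int.fract_add_natCast w T
  rw [← hfr]
  refine ⟨⟨Int.fract_nonneg _, Int.fract_lt_one _⟩, l, ?_⟩
  rw [floor_fract hu0, floor_anc (x := θ) hl]
  have hcase : ⌊2 ^ l * (w + T)⌋₊ = (p - D.E) / 2 ^ (D.H * k - l) ∨
      ⌊2 ^ l * (w + T)⌋₊ = (p + D.E) / 2 ^ (D.H * k - l) := by omega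
  rcases hcase with h | h
  · rw [h]; exact hg1
  · rw [h]; exact hg2

theorem Data.good0_complete (D : Data) (hH : 1 ≤ D.H) (hm : Mono D.ψ) {z₁ z₂ : ℤ} {T : ℕ}
    (hA : Approx D z₁ z₂ T) {n : ℕ} {y : ℝ × ℝ} (hy : y ∈ usq) {θ : ℝ}
    (hθ : θ ∈ Ico (0 : ℝ) 1) (f : ℕ → ℕ)
    (hf : ∀ n : ℕ, volume (⋃ i : ℕ, interval (f (Nat.pair n i))) ≤ ((2 : ℝ≥0∞) ^ n)⁻¹)
    (hrep : Repr (oracle θ) D.ψ f)
    (hv : Int.fract (Real.cos (2 * Real.pi * θ) * (z₁ + y.1) +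
      Real.sin (2 * Real.pi * θ) * (z₂ + y.2)) ∈ ⋃ i : ℕ, interval (f (Nat.pair (n + 1) i))) :
    ∃ k, D.good0 n k ⌊2 ^ (D.H * k) * y.1⌋₊ ⌊2 ^ (D.H * k) * y.2⌋₊ ⌊2 ^ (D.H * k) * θ⌋₊ := by
  set w := Real.cos (2 * Real.pi * θ) * (z₁ + y.1) + Real.sin (2 * Real.pi * θ) * (z₂ + y.2)
    with hw
  have hfr : Int.fract (w + T) = Int.fract w := Int.fract_add_natCast w T
  have hu0 : 0 ≤ w + T := (D.floor_between hA 0 hy hθ (l := 0) (by omega) rfl).2.1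
  obtain ⟨l, hl⟩ := D.hit hm hθ f hf hrep n (u := w + T) hu0 (by rw [hfr]; exact hv)
  have hk : l + (2 * D.E + 1) ≤ D.H * (l + (2 * D.E + 1)) := Nat.le_mul_of_pos_left _ hH
  refine ⟨l + (2 * D.E + 1), l, by omega, ?_⟩
  set k := l + (2 * D.E + 1) with hkdef
  obtain ⟨hE, -, h1, h2⟩ := D.floor_between hA k hy hθ (l := l) (by omega) (u := w + T) rfl
  set p := D.P (D.H * k) ⌊2 ^ (D.H * k) * y.1⌋₊ ⌊2 ^ (D.H * k) * y.2⌋₊ ⌊2 ^ (D.H * k) * θ⌋₊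
  have hpow : 2 * D.E ≤ 2 ^ (D.H * k - l) := by
    calc 2 * D.E ≤ 2 ^ (2 * D.E) := Nat.lt_two_pow_self.le
      _ ≤ _ := Nat.pow_le_pow_right (by norm_num) (by omega)
  have hclose : (p + D.E) / 2 ^ (D.H * k - l) ≤ (p - D.E) / 2 ^ (D.H * k - l) + 1 := by
    have e : p + D.E = p - D.E + 2 * D.E := by omega
    rw [e]
    calc (p - D.E + 2 * D.E) / 2 ^ (D.H * k - l)
        ≤ (p - D.E + 2 ^ (D.H * k - l)) / 2 ^ (D.H * k - l) := Nat.div_le_div_right (by omega)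
      _ = _ := Nat.add_div_right _ (by positivity)
  have hfl1 : ((⌊2 ^ l * (w + T)⌋₊ : ℕ) : ℝ) ≤ 2 ^ l * (w + T) :=
    Nat.floor_le (mul_nonneg (by positivity) hu0)
  have hfl2 : 2 ^ l * (w + T) < ((⌊2 ^ l * (w + T)⌋₊ : ℕ) : ℝ) + 1 := Nat.lt_floor_add_one _
  refine ⟨hclose, ?_, ?_⟩
  · rw [← floor_anc (x := θ) (show l ≤ D.H * k by omega)]
    apply hl
    have c1 : ((p - D.E) / 2 ^ (D.H * k - l) : ℕ) ≤ ⌊2 ^ l * (w + T)⌋₊ := h1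
    have c2 : ⌊2 ^ l * (w + T)⌋₊ ≤ (p - D.E) / 2 ^ (D.H * k - l) + 1 := h2.trans hclose
    have c1' : (((p - D.E) / 2 ^ (D.H * k - l) : ℕ) : ℝ) ≤ (⌊2 ^ l * (w + T)⌋₊ : ℕ) := by
      exact_mod_cast c1
    have c2' : ((⌊2 ^ l * (w + T)⌋₊ : ℕ) : ℝ) ≤
        (((p - D.E) / 2 ^ (D.H * k - l) : ℕ) : ℝ) + 1 := by exact_mod_cast c2
    rw [abs_lt]
    constructor <;> linarith
  · rw [← floor_anc (x := θ) (show l ≤ D.H * k by omega)]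
    apply hl
    have c1 : ⌊2 ^ l * (w + T)⌋₊ ≤ ((p + D.E) / 2 ^ (D.H * k - l) : ℕ) := h2
    have c2 : (p + D.E) / 2 ^ (D.H * k - l) ≤ ⌊2 ^ l * (w + T)⌋₊ + 1 := by omega
    have c1' : ((⌊2 ^ l * (w + T)⌋₊ : ℕ) : ℝ) ≤ (((p + D.E) / 2 ^ (D.H * k - l) : ℕ) : ℝ) := by
      exact_mod_cast c1
    have c2' : (((p + D.E) / 2 ^ (D.H * k - l) : ℕ) : ℝ) ≤
        ((⌊2 ^ l * (w + T)⌋₊ : ℕ) : ℝ) + 1 := by exact_mod_cast c2
    rw [abs_lt]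
    constructor <;> linarith

end Pool.Agent.MP_5eff62_lc
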