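import Mathlib

/-!
Automatic proofs of primitive recursiveness by instance resolution.
-/

set_option autoImplicit false

namespace Pool.Agent.MP_5eff62_lc

open Classical

/-- Primitive recursive functions, as a class. -/
class PF {α β : Type*} [Primcodable α] [Primcodable β] (f : α → β) : Prop where
  pr : Primrec f

/-- Primitive recursive predicates, as a class. -/
class PP {α : Type*} [Primcodable α] (p : α → Prop) : Prop where
  pr : PrimrecPred p

section

variable {α β γ δ σ : Type*} [Primcodable α] [Primcodable β] [Primcodable γ] [Primcodable δ]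
  [Primcodable σ]

instance PF.const (c : β) : PF (fun _ : α => c) := ⟨Primrec.const c⟩
instance PF.id : PF (fun a : α => a) := ⟨Primrec.id⟩
instance PF.fst (f : α → β × γ) [hf : PF f] : PF (fun a => (f a).1) := ⟨Primrec.fst.comp hf.pr⟩
instance PF.snd (f : α → β × γ) [hf : PF f] : PF (fun a => (f a).2) := ⟨Primrec.snd.comp hf.pr⟩
instance PF.pair (f : α → β) (g : α → γ) [hf : PF f] [hg : PF g] : PF (fun a => (f a, g a)) :=
  ⟨hf.pr.pair hg.pr⟩

instance PF.add (f g : α → ℕ) [hf : PF f] [hg : PF g] : PF (fun a => f a + g a) :=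
  ⟨Primrec.nat_add.comp hf.pr hg.pr⟩
instance PF.sub (f g : α → ℕ) [hf : PF f] [hg : PF g] : PF (fun a => f a - g a) :=
  ⟨Primrec.nat_sub.comp hf.pr hg.pr⟩
instance PF.mul (f g : α → ℕ) [hf : PF f] [hg : PF g] : PF (fun a => f a * g a) :=
  ⟨Primrec.nat_mul.comp hf.pr hg.pr⟩
instance PF.div (f g : α → ℕ) [hf : PF f] [hg : PF g] : PF (fun a => f a / g a) :=
  ⟨Primrec.nat_div.comp hf.pr hg.pr⟩
instance PF.mod (f g : α → ℕ) [hf : PF f] [hg : PF g] : PF (fun a => f a % g a) :=
  ⟨Primrec.nat_mod.comp hf.pr hg.pr⟩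
instance PF.succ (f : α → ℕ) [hf : PF f] : PF (fun a => Nat.succ (f a)) :=
  ⟨Primrec.succ.comp hf.pr⟩
instance PF.max (f g : α → ℕ) [hf : PF f] [hg : PF g] : PF (fun a => Max.max (f a) (g a)) :=
  ⟨Primrec.nat_max.comp hf.pr hg.pr⟩
instance PF.min (f g : α → ℕ) [hf : PF f] [hg : PF g] : PF (fun a => Min.min (f a) (g a)) :=
  ⟨Primrec.nat_min.comp hf.pr hg.pr⟩

theorem primrec_pow : Primrec₂ (fun a b : ℕ => a ^ b) :=
  Primrec₂.unpaired'.1 Nat.Primrec.pow

instance PF.pow (f g : α → ℕ) [hf : PF f] [hg : PF g] : PF (fun a => f a ^ g a) :=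
  ⟨primrec_pow.comp hf.pr hg.pr⟩
instance PF.natPair (f g : α → ℕ) [hf : PF f] [hg : PF g] : PF (fun a => Nat.pair (f a) (g a)) :=
  ⟨Primrec₂.natPair.comp hf.pr hg.pr⟩
instance PF.unpair (f : α → ℕ) [hf : PF f] : PF (fun a => (f a).unpair) :=
  ⟨Primrec.unpair.comp hf.pr⟩

theorem primrec_sqrt : Primrec Nat.sqrt := by
  have h : Primrec fun n : ℕ => Nat.findGreatest (fun k => k * k ≤ n) n := by
    refine Primrec.nat_findGreatest (f := fun n : ℕ => n) (p := fun n k => k * k ≤ n)
      Primrec.id ?_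
    exact Primrec.nat_le.comp (Primrec.nat_mul.comp Primrec.snd Primrec.snd) Primrec.fst
  refine h.of_eq fun n => ?_
  rw [Nat.findGreatest_eq_iff]
  refine ⟨Nat.sqrt_le_self n, fun _ => Nat.sqrt_le n, ?_⟩
  intro m hm _ hle
  have := Nat.sqrt_lt.1 hm
  omega

instance PF.sqrt (f : α → ℕ) [hf : PF f] : PF (fun a => Nat.sqrt (f a)) :=
  ⟨primrec_sqrt.comp hf.pr⟩

instance PF.ite (p : α → Prop) (f g : α → β) [∀ a, Decidable (p a)] [hp : PP p] [hf : PF f]
    [hg : PF g] : PF (fun a => if p a then f a else g a) :=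
  ⟨Primrec.ite hp.pr hf.pr hg.pr⟩

instance PF.some (f : α → β) [hf : PF f] : PF (fun a => Option.some (f a)) :=
  ⟨Primrec.option_some.comp hf.pr⟩

instance PF.getD (f : α → Option β) (g : α → β) [hf : PF f] [hg : PF g] :
    PF (fun a => (f a).getD (g a)) :=
  ⟨Primrec.option_getD.comp hf.pr hg.pr⟩

instance PF.list_range (f : α → ℕ) [hf : PF f] : PF (fun a => List.range (f a)) :=
  ⟨Primrec.list_range.comp hf.pr⟩
instance PF.list_length (f : α → List β) [hf : PF f] : PF (fun a => (f a).length) :=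
  ⟨Primrec.list_length.comp hf.pr⟩
instance PF.list_append (f g : α → List β) [hf : PF f] [hg : PF g] : PF (fun a => f a ++ g a) :=
  ⟨Primrec.list_append.comp hf.pr hg.pr⟩
instance PF.list_cons (f : α → β) (g : α → List β) [hf : PF f] [hg : PF g] :
    PF (fun a => f a :: g a) :=
  ⟨Primrec.list_cons.comp hf.pr hg.pr⟩
instance PF.list_getElem? (f : α → List β) (g : α → ℕ) [hf : PF f] [hg : PF g] :
    PF (fun a => (f a)[g a]?) :=
  ⟨Primrec.list_getElem?.comp hf.pr hg.pr⟩
instance PF.list_drop (f : α → ℕ) (g : α → List β) [hf : PF f] [hg : PF g] :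
    PF (fun a => (g a).drop (f a)) :=
  ⟨Primrec.list_drop.comp hf.pr hg.pr⟩

instance PF.list_map (f : α → List β) (g : α → β → γ) [hf : PF f]
    [hg : PF (fun q : α × β => g q.1 q.2)] : PF (fun a => (f a).map (fun b => g a b)) :=
  ⟨Primrec.list_map hf.pr hg.pr⟩

instance PF.list_foldl (f : α → List β) (s : α → σ) (g : α → σ → β → σ) [hf : PF f] [hs : PF s]
    [hg : PF (fun q : α × (σ × β) => g q.1 q.2.1 q.2.2)] :
    PF (fun a => (f a).foldl (fun x b => g a x b) (s a)) :=
  ⟨Primrec.list_foldl (h := fun a q => g a q.1 q.2) hf.pr hs.pr hg.pr⟩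

instance PF.list_filter (f : α → List β) (p : α → β → Prop) [∀ a b, Decidable (p a b)]
    [hf : PF f] [hp : PP (fun q : α × β => p q.1 q.2)] :
    PF (fun a => (f a).filter (fun b => decide (p a b))) := by
  constructor
  have h : Primrec fun a => (f a).filterMap (fun b => if p a b then Option.some b else none) := by
    refine Primrec.listFilterMap hf.pr ?_
    exact Primrec.ite hp.pr (Primrec.option_some.comp Primrec.snd) (Primrec.const none)
  refine h.of_eq fun a => ?_
  induction f a with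
  | nil => rfl
  | cons b l ih => by_cases hb : p a b <;> simp [hb, ih]

instance PF.list_findIdx (f : α → List β) (p : α → β → Prop) [∀ a b, Decidable (p a b)]
    [hf : PF f] [hp : PP (fun q : α × β => p q.1 q.2)] :
    PF (fun a => (f a).findIdx (fun b => decide (p a b))) := by
  constructor
  refine Primrec.list_findIdx hf.pr ?_
  exact PrimrecPred.decide hp.pr

instance PF.decide (p : α → Prop) [∀ a, Decidable (p a)] [hp : PP p] :
    PF (fun a => Decidable.decide (p a)) :=
  ⟨PrimrecPred.decide hp.pr⟩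

theorem PF.nat_rec (n : α → ℕ) (g : α → σ) (h : α → ℕ → σ → σ) (hn : PF n)
    (hg : PF g) (hh : PF (fun q : α × (ℕ × σ) => h q.1 q.2.1 q.2.2)) :
    PF (fun a => (Nat.rec (motive := fun _ => σ) (g a) (fun k s => h a k s) (n a) : σ)) := by
  constructor
  exact Primrec.nat_rec' (h := fun a q => h a q.1 q.2) hn.pr hg.pr hh.pr

theorem PF.comp {f : β → γ} {g : α → β} (hf : PF f) (hg : PF g) : PF (fun a => f (g a)) :=
  ⟨hf.pr.comp hg.pr⟩

theorem PP.comp {f : β → Prop} {g : α → β} (hf : PP f) (hg : PF g) : PP (fun a => f (g a)) :=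
  ⟨hf.pr.comp hg.pr⟩

theorem PF.of_eq {f g : α → β} (hf : PF f) (h : ∀ a, f a = g a) : PF g := ⟨hf.pr.of_eq h⟩

theorem PP.of_iff {f g : α → Prop} (hf : PP f) (h : ∀ a, f a ↔ g a) : PP g := ⟨hf.pr.of_eq h⟩

instance PP.const (p : Prop) : PP (fun _ : α => p) := by
  constructor
  exact ⟨fun _ => Classical.dec p, Primrec.const _⟩
instance PP.not (p : α → Prop) [hp : PP p] : PP (fun a => ¬ p a) := ⟨hp.pr.not⟩
instance PP.and (p q : α → Prop) [hp : PP p] [hq : PP q] : PP (fun a => p a ∧ q a) :=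
  ⟨hp.pr.and hq.pr⟩
instance PP.or (p q : α → Prop) [hp : PP p] [hq : PP q] : PP (fun a => p a ∨ q a) :=
  ⟨hp.pr.or hq.pr⟩
instance PP.eq (f g : α → β) [hf : PF f] [hg : PF g] : PP (fun a => f a = g a) :=
  ⟨Primrec.eq.comp hf.pr hg.pr⟩
instance PP.lt (f g : α → ℕ) [hf : PF f] [hg : PF g] : PP (fun a => f a < g a) :=
  ⟨Primrec.nat_lt.comp hf.pr hg.pr⟩
instance PP.le (f g : α → ℕ) [hf : PF f] [hg : PF g] : PP (fun a => f a ≤ g a) :=
  ⟨Primrec.nat_le.comp hf.pr hg.pr⟩

theorem PP.imp' (p q : α → Prop) [hp : PP p] [hq : PP q] : PP (fun a => (p a → q a)) := by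
  have h : PP (fun a => ¬ p a ∨ q a) := inferInstance
  refine ⟨h.pr.of_eq fun a => ?_⟩
  tauto

instance PP.ex_mem (l : α → List β) (R : α → β → Prop) [hl : PF l]
    [hR : PP (fun q : α × β => R q.1 q.2)] : PP (fun a => ∃ b, b ∈ l a ∧ R a b) := by
  have h1 : PP (fun a => ((l a).filter (fun b => Decidable.decide (R a b))).length ≠ 0) :=
    inferInstance
  refine ⟨h1.pr.of_eq fun a => ?_⟩
  simp

instance PP.all_mem (l : α → List β) (R : α → β → Prop) [hl : PF l]
    [hR : PP (fun q : α × β => R q.1 q.2)] : PP (fun a => ∀ b, b ∈ l a → R a b) := by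
  have h1 : PP (fun a => ((l a).filter (fun b => Decidable.decide (R a b))).length =
    (l a).length) := inferInstance
  refine ⟨h1.pr.of_eq fun a => ?_⟩
  simp

instance PP.ex_lt (n : α → ℕ) (R : α → ℕ → Prop) [hn : PF n]
    [hR : PP (fun q : α × ℕ => R q.1 q.2)] : PP (fun a => ∃ b, b < n a ∧ R a b) := by
  have h1 : PP (fun a => ∃ b, b ∈ List.range (n a) ∧ R a b) := inferInstance
  refine ⟨h1.pr.of_eq fun a => ?_⟩
  simp

instance PP.ex_le (n : α → ℕ) (R : α → ℕ → Prop) [hn : PF n]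
    [hR : PP (fun q : α × ℕ => R q.1 q.2)] : PP (fun a => ∃ b, b ≤ n a ∧ R a b) := by
  have h1 : PP (fun a => ∃ b, b < n a + 1 ∧ R a b) := inferInstance
  refine ⟨h1.pr.of_eq fun a => ?_⟩
  simp only [Nat.lt_succ_iff]

instance PP.all_lt (n : α → ℕ) (R : α → ℕ → Prop) [hn : PF n]
    [hR : PP (fun q : α × ℕ => R q.1 q.2)] : PP (fun a => ∀ b, b < n a → R a b) := by
  have h1 : PP (fun a => ∀ b, b ∈ List.range (n a) → R a b) := inferInstance
  refine ⟨h1.pr.of_eq fun a => ?_⟩
  simp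

instance PP.all_le (n : α → ℕ) (R : α → ℕ → Prop) [hn : PF n]
    [hR : PP (fun q : α × ℕ => R q.1 q.2)] : PP (fun a => ∀ b, b ≤ n a → R a b) := by
  have h1 : PP (fun a => ∀ b, b < n a + 1 → R a b) := inferInstance
  refine ⟨h1.pr.of_eq fun a => ?_⟩
  simp only [Nat.lt_succ_iff]

instance PP.mem_list (f : α → β) (l : α → List β) [hf : PF f] [hl : PF l] :
    PP (fun a => f a ∈ l a) := by
  have h0 : PF (fun q : α × β => f q.1) := PF.comp hf inferInstance
  have h1 : PP (fun a => ∃ b, b ∈ l a ∧ b = f a) := inferInstance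
  refine ⟨h1.pr.of_eq fun a => ?_⟩
  simp

instance PP.opt_ex (o : α → Option β) (R : α → β → Prop) [ho : PF o]
    [hR : PP (fun q : α × β => R q.1 q.2)] : PP (fun a => ∃ b, o a = Option.some b ∧ R a b) := by
  have h1 : Primrec fun a => (o a).bind fun b => if R a b then Option.some () else none := by
    refine Primrec.option_bind ho.pr ?_
    exact Primrec.ite hR.pr (Primrec.const _) (Primrec.const _)
  have h2 : PrimrecPred fun a => ((o a).bind fun b => if R a b then Option.some () else none) =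
      Option.some () := Primrec.eq.comp h1 (Primrec.const _)
  refine ⟨h2.of_eq fun a => ?_⟩
  rw [Option.bind_eq_some_iff]
  constructor
  · rintro ⟨b, hb, h⟩
    split_ifs at h with hr
    exact ⟨b, hb, hr⟩
  · rintro ⟨b, hb, hr⟩
    exact ⟨b, hb, if_pos hr⟩

end

end Pool.Agent.MP_5eff62_lc
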