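import Pool.Agent.Lib.MP_5eff62_lc.Defs
import Pool.Agent.Lib.MP_5eff62_lc.Oracle
import Pool.Agent.Lib.MP_5eff62_lc.Cell

/-!
The trimmed tests and the certification of squares, as primitive recursive predicates.
-/

set_option autoImplicit false
set_option synthInstance.maxSize 100000

namespace Pool.Agent.MP_5eff62_lc

open MeasureTheory Set
open scoped ENNReal

/-- The data of the construction. -/
structure Data where
  H : ℕ
  E : ℕ
  P : ℕ → ℕ → ℕ → ℕ → ℕ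
  ψ : List ℕ → ℕ → Option ℕ
  hP : PF (fun q : ℕ × ℕ × ℕ × ℕ => P q.1 q.2.1 q.2.2.1 q.2.2.2)
  hψ : Primrec₂ ψ

section

variable {α : Type*} [Primcodable α]

instance PF.dataP (D : Data) (f₁ f₂ f₃ f₄ : α → ℕ) [PF f₁] [PF f₂] [PF f₃] [PF f₄] :
    PF (fun a => D.P (f₁ a) (f₂ a) (f₃ a) (f₄ a)) :=
  PF.comp (g := fun a => (f₁ a, f₂ a, f₃ a, f₄ a)) D.hP inferInstance

instance PF.dataψ (D : Data) (f₁ : α → List ℕ) (f₂ : α → ℕ) [h1 : PF f₁] [h2 : PF f₂] :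
    PF (fun a => D.ψ (f₁ a) (f₂ a)) := ⟨D.hψ.comp h1.pr h2.pr⟩

instance PF.cnt (n : α → ℕ) (p : α → ℕ → Prop) [hn : PF n]
    [hp : PP (fun q : α × ℕ => p q.1 q.2)] : PF (fun a => cnt (n a) (p a)) := by
  classical
  have h : PF (fun a => ((List.range (n a)).filter (fun c => Decidable.decide (p a c))).length) :=
    inferInstance
  refine h.of_eq fun a => ?_
  unfold MP_5eff62_lc.cnt
  congr 2

instance PF.anc (H : ℕ) (f₁ f₂ f₃ : α → ℕ) [PF f₁] [PF f₂] [PF f₃] :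
    PF (fun a => anc H (f₁ a) (f₂ a) (f₃ a)) := by
  unfold MP_5eff62_lc.anc
  infer_instance

end

/-- The interval with code `m` contains the closed cell with index `c` at level `l`. -/
def coversN (m l c : ℕ) : Prop :=
  m.unpair.1.unpair.1 * 2 ^ l < c * (m.unpair.1.unpair.2.unpair.2 + 1) +
      m.unpair.1.unpair.2.unpair.1 * 2 ^ l ∧
    (c + 1) * (m.unpair.2.unpair.2.unpair.2 + 1) + m.unpair.2.unpair.2.unpair.1 * 2 ^ l <
      m.unpair.2.unpair.1 * 2 ^ l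

instance PP.coversN {α : Type*} [Primcodable α] (f₁ f₂ f₃ : α → ℕ) [PF f₁] [PF f₂] [PF f₃] :
    PP (fun a => coversN (f₁ a) (f₂ a) (f₃ a)) := by
  unfold MP_5eff62_lc.coversN
  infer_instance

theorem coversN_iff (m l c : ℕ) : coversN m l c ↔
    ((rat m.unpair.1 : ℚ) : ℝ) < (c : ℝ) / 2 ^ l ∧
      ((c : ℝ) + 1) / 2 ^ l < ((rat m.unpair.2 : ℚ) : ℝ) := by
  unfold coversN rat
  generalize m.unpair.1.unpair.1 = a
  generalize m.unpair.1.unpair.2.unpair.1 = b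
  generalize m.unpair.1.unpair.2.unpair.2 = d
  generalize m.unpair.2.unpair.1 = a'
  generalize m.unpair.2.unpair.2.unpair.1 = b'
  generalize m.unpair.2.unpair.2.unpair.2 = d'
  have h0 : (0 : ℝ) < 2 ^ l := by positivity
  have h1 : (0 : ℝ) < (d : ℝ) + 1 := by positivity
  have h2 : (0 : ℝ) < (d' : ℝ) + 1 := by positivity
  push_cast
  rw [div_lt_div_iff₀ h1 h0, div_lt_div_iff₀ h0 h2]
  apply and_congr
  · rw [← Nat.cast_lt (α := ℝ)]
    push_cast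
    constructor <;> intro h <;> linarith
  · rw [← Nat.cast_lt (α := ℝ)]
    push_cast
    constructor <;> intro h <;> linarith

/-- The initial segment of the oracle of a number in the dyadic interval of level `l` and
index `j`. -/
def sig (l j : ℕ) : List ℕ := (List.range (l + 1)).map (fun n => Nat.pair (j / 2 ^ (l - n)) 0)

instance PF.sig {α : Type*} [Primcodable α] (f₁ f₂ : α → ℕ) [h1 : PF f₁] [h2 : PF f₂] :
    PF (fun a => sig (f₁ a) (f₂ a)) := by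
  have h3 : PF (fun q : α × ℕ => f₁ q.1) := PF.comp h1 inferInstance
  have h4 : PF (fun q : α × ℕ => f₂ q.1) := PF.comp h2 inferInstance
  unfold MP_5eff62_lc.sig
  infer_instance

theorem sig_take {l l' : ℕ} (h : l ≤ l') (j : ℕ) :
    (sig l' j).take (l + 1) = sig l (j / 2 ^ (l' - l)) := by
  apply List.ext_getElem?
  intro i
  unfold sig
  rw [List.getElem?_take]
  by_cases hi : i < l + 1
  · rw [if_pos hi]
    have hi' : i < l' + 1 := by omega
    rw [List.getElem?_map, List.getElem?_map, List.getElem?_range hi', List.getElem?_range hi]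
    simp only [Option.map_some]
    rw [Nat.div_div_eq_div_mul, ← pow_add]
    congr 4
    omega
  · rw [if_neg hi, List.getElem?_eq_none (by simpa using hi)]

theorem sig_append {l l' : ℕ} (h : l ≤ l') (j : ℕ) :
    ∃ τ, sig l' j = sig l (j / 2 ^ (l' - l)) ++ τ := by
  refine ⟨(sig l' j).drop (l + 1), ?_⟩
  rw [← sig_take h, List.take_append_drop]

theorem sig_eq_res {θ : ℝ} (hθ : θ ∈ Ico (0 : ℝ) 1) (l : ℕ) :
    sig l ⌊2 ^ l * θ⌋₊ = res (oracle θ) (l + 1) := by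
  unfold sig res
  apply List.map_congr_left
  intro n hn
  rw [List.mem_range] at hn
  unfold oracle
  rw [← floor_anc (x := θ) (show n ≤ l by omega)]
  have h0 : (0 : ℝ) ≤ 2 ^ n * θ := mul_nonneg (by positivity) hθ.1
  have h1 : 0 ≤ ⌊2 ^ n * θ⌋ := Int.floor_nonneg.2 h0
  congr 1
  omega

namespace Data

variable (D : Data)

/-- The sets of the test, at a finite level. -/
def gN (n l j c : ℕ) : Prop :=
  ((c + 1) * 2 ^ (n + 2) ≤ 2 ^ l ∨ 2 ^ l * 2 ^ (n + 2) ≤ c * 2 ^ (n + 2) + 2 ^ l) ∨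
    ∃ i, i ≤ l ∧ ∃ m, D.ψ (sig l j) (Nat.pair (n + 1) i) = some m ∧ coversN m l c

/-- The finite level is not too large. -/
def okN (n l j : ℕ) : Prop := cnt (2 ^ l) (fun c => D.gN n l j c) * 2 ^ n ≤ 2 ^ l

/-- The trimmed test. -/
def gt (n l j c : ℕ) : Prop := D.okN n l j ∧ D.gN n l j c

/-- All points of a cell have projections in the trimmed test, for all directions of a cell. -/
def good0 (n k a b j : ℕ) : Prop :=
  ∃ l, l ≤ D.H * k ∧ ((D.P (D.H * k) a b j + D.E) / 2 ^ (D.H * k - l) ≤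
      (D.P (D.H * k) a b j - D.E) / 2 ^ (D.H * k - l) + 1 ∧
    D.gt n l (j / 2 ^ (D.H * k - l)) ((D.P (D.H * k) a b j - D.E) / 2 ^ (D.H * k - l) % 2 ^ l) ∧
    D.gt n l (j / 2 ^ (D.H * k - l)) ((D.P (D.H * k) a b j + D.E) / 2 ^ (D.H * k - l) % 2 ^ l))

/-- The monotone version. -/
def good (n k a b j : ℕ) : Prop :=
  ∃ k', k' ≤ k ∧ D.good0 n k' (anc D.H k k' a) (anc D.H k k' b) (anc D.H k k' j)

/-- The square is certified. -/
def cert (e k a b : ℕ) : Prop :=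
  2 ^ (D.H * k) < cnt (2 ^ (D.H * k)) (fun j => D.good (5 * e) k a b j) * 2 ^ e

end Data

section

variable {α : Type} [Primcodable α]

instance PP.gN (D : Data) (f₁ f₂ f₃ f₄ : α → ℕ) [h1 : PF f₁] [h2 : PF f₂] [h3 : PF f₃]
    [h4 : PF f₄] : PP (fun a => D.gN (f₁ a) (f₂ a) (f₃ a) (f₄ a)) := by
  have h : PP (fun q : ℕ × ℕ × ℕ × ℕ => D.gN q.1 q.2.1 q.2.2.1 q.2.2.2) := by
    unfold Data.gN
    infer_instance
  exact PP.comp h (g := fun a => (f₁ a, f₂ a, f₃ a, f₄ a)) inferInstance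

instance PP.okN (D : Data) (f₁ f₂ f₃ : α → ℕ) [h1 : PF f₁] [h2 : PF f₂] [h3 : PF f₃] :
    PP (fun a => D.okN (f₁ a) (f₂ a) (f₃ a)) := by
  have h : PP (fun q : ℕ × ℕ × ℕ => D.okN q.1 q.2.1 q.2.2) := by
    unfold Data.okN
    infer_instance
  exact PP.comp h (g := fun a => (f₁ a, f₂ a, f₃ a)) inferInstance

instance PP.gt (D : Data) (f₁ f₂ f₃ f₄ : α → ℕ) [h1 : PF f₁] [h2 : PF f₂] [h3 : PF f₃]
    [h4 : PF f₄] : PP (fun a => D.gt (f₁ a) (f₂ a) (f₃ a) (f₄ a)) := by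
  have h : PP (fun q : ℕ × ℕ × ℕ × ℕ => D.gt q.1 q.2.1 q.2.2.1 q.2.2.2) := by
    unfold Data.gt
    infer_instance
  exact PP.comp h (g := fun a => (f₁ a, f₂ a, f₃ a, f₄ a)) inferInstance

instance PP.good0 (D : Data) (f₁ f₂ f₃ f₄ f₅ : α → ℕ) [h1 : PF f₁] [h2 : PF f₂] [h3 : PF f₃]
    [h4 : PF f₄] [h5 : PF f₅] :
    PP (fun a => D.good0 (f₁ a) (f₂ a) (f₃ a) (f₄ a) (f₅ a)) := by
  have h : PP (fun q : ℕ × ℕ × ℕ × ℕ × ℕ =>
      D.good0 q.1 q.2.1 q.2.2.1 q.2.2.2.1 q.2.2.2.2) := by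
    unfold Data.good0
    infer_instance
  exact PP.comp h (g := fun a => (f₁ a, f₂ a, f₃ a, f₄ a, f₅ a)) inferInstance

instance PP.good (D : Data) (f₁ f₂ f₃ f₄ f₅ : α → ℕ) [h1 : PF f₁] [h2 : PF f₂] [h3 : PF f₃]
    [h4 : PF f₄] [h5 : PF f₅] :
    PP (fun a => D.good (f₁ a) (f₂ a) (f₃ a) (f₄ a) (f₅ a)) := by
  have h : PP (fun q : ℕ × ℕ × ℕ × ℕ × ℕ =>
      D.good q.1 q.2.1 q.2.2.1 q.2.2.2.1 q.2.2.2.2) := by
    unfold Data.good
    infer_instance
  exact PP.comp h (g := fun a => (f₁ a, f₂ a, f₃ a, f₄ a, f₅ a)) inferInstance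

instance PP.cert (D : Data) (f₁ f₂ f₃ f₄ : α → ℕ) [h1 : PF f₁] [h2 : PF f₂] [h3 : PF f₃]
    [h4 : PF f₄] : PP (fun a => D.cert (f₁ a) (f₂ a) (f₃ a) (f₄ a)) := by
  have h : PP (fun q : ℕ × ℕ × ℕ × ℕ => D.cert q.1 q.2.1 q.2.2.1 q.2.2.2) := by
    unfold Data.cert
    infer_instance
  exact PP.comp h (g := fun a => (f₁ a, f₂ a, f₃ a, f₄ a)) inferInstance

end

end Pool.Agent.MP_5eff62_lc
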