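import Pool.Agent.Lib.MP_5eff62_lc.PR

/-!
Primitive recursive approximations of the cosine and of projections.
-/

set_option autoImplicit false
set_option synthInstance.maxSize 100000

namespace Pool.Agent.MP_5eff62_lc

open Real

/-- Approximations of `2 ^ D * (2 + 2 * cos (2 * π * j / 2 ^ i))`. -/
def cosB (D j : ℕ) : ℕ → ℕ
  | 0 => 4 * 2 ^ D
  | i + 1 => if 4 * (j % 2 ^ (i + 1)) ≤ 2 ^ (i + 1) ∨ 3 * 2 ^ (i + 1) ≤ 4 * (j % 2 ^ (i + 1))
      then 2 * 2 ^ D + Nat.sqrt (2 ^ D * cosB D j i)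
      else 2 * 2 ^ D - Nat.sqrt (2 ^ D * cosB D j i)

theorem cosB_sqrt_le (D B : ℕ) (h : B ≤ 4 * 2 ^ D) : Nat.sqrt (2 ^ D * B) ≤ 2 * 2 ^ D := by
  have h1 : Nat.sqrt (2 ^ D * B) * Nat.sqrt (2 ^ D * B) ≤ 2 ^ D * B := Nat.sqrt_le _
  have h2 : 2 ^ D * B ≤ (2 * 2 ^ D) * (2 * 2 ^ D) := by nlinarith [Nat.zero_le (2 ^ D)]
  exact Nat.mul_self_le_mul_self_iff.1 (h1.trans h2)

theorem cosB_le (D j i : ℕ) : cosB D j i ≤ 4 * 2 ^ D := by
  induction i with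
  | zero => exact le_refl _
  | succ i ih =>
    have := cosB_sqrt_le D _ ih
    rw [cosB]
    split_ifs <;> omega

/-- The exact value. -/
noncomputable def cosA (j i : ℕ) : ℝ := 2 + 2 * Real.cos (2 * π * j / 2 ^ i)

theorem cosA_zero (j : ℕ) : cosA j 0 = 4 := by
  unfold cosA
  have : Real.cos (2 * π * j / 2 ^ 0) = 1 := by
    have h : 2 * π * (j : ℝ) / 2 ^ 0 = (j : ℤ) * (2 * π) := by push_cast; ring
    rw [h, Real.cos_int_mul_two_pi]
  rw [this]; norm_num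

theorem cosA_nonneg (j i : ℕ) : 0 ≤ cosA j i := by
  unfold cosA
  have := Real.neg_one_le_cos (2 * π * j / 2 ^ i)
  linarith

theorem cosA_le (j i : ℕ) : cosA j i ≤ 4 := by
  unfold cosA
  have := Real.cos_le_one (2 * π * j / 2 ^ i)
  linarith

theorem cosA_sq (j i : ℕ) : (2 * Real.cos (2 * π * j / 2 ^ (i + 1))) ^ 2 = cosA j i := by
  have h : 2 * π * (j : ℝ) / 2 ^ i = 2 * (2 * π * j / 2 ^ (i + 1)) := by
    rw [pow_succ]; field_simp
  unfold cosA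
  rw [h, Real.cos_two_mul]
  ring

theorem cos_mod (j m : ℕ) :
    Real.cos (2 * π * j / 2 ^ m) = Real.cos (2 * π * ((j % 2 ^ m : ℕ) : ℝ) / 2 ^ m) := by
  have h : (j : ℝ) = ((j % 2 ^ m : ℕ) : ℝ) + 2 ^ m * ((j / 2 ^ m : ℕ) : ℝ) := by
    have := Nat.mod_add_div j (2 ^ m)
    exact_mod_cast this.symm
  generalize j / 2 ^ m = q at h
  generalize j % 2 ^ m = r at h ⊢
  have h2 : 2 * π * (j : ℝ) / 2 ^ m = 2 * π * (r : ℝ) / 2 ^ m + (q : ℤ) * (2 * π) := by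
    have h3 : (2 : ℝ) ^ m ≠ 0 := by positivity
    rw [h]
    push_cast
    field_simp
  rw [h2, Real.cos_add_int_mul_two_pi]

theorem cos_sign_pos (j m : ℕ) (h : 4 * (j % 2 ^ m) ≤ 2 ^ m ∨ 3 * 2 ^ m ≤ 4 * (j % 2 ^ m)) :
    0 ≤ Real.cos (2 * π * j / 2 ^ m) := by
  rw [cos_mod]
  have hlt : j % 2 ^ m < 2 ^ m := Nat.mod_lt _ (by positivity)
  set r := j % 2 ^ m
  have h0 : (0 : ℝ) < 2 ^ m := by positivity
  have hr0 : (0 : ℝ) ≤ r := Nat.cast_nonneg r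
  have hr : (r : ℝ) < 2 ^ m := by exact_mod_cast hlt
  rcases h with h | h
  · have h' : 4 * (r : ℝ) ≤ 2 ^ m := by exact_mod_cast h
    apply Real.cos_nonneg_of_neg_pi_div_two_le_of_le
    · have : 0 ≤ 2 * π * (r : ℝ) / 2 ^ m := by positivity
      have := Real.pi_pos
      linarith
    · rw [div_le_iff₀ h0]
      nlinarith [Real.pi_pos]
  · have h' : 3 * (2 : ℝ) ^ m ≤ 4 * (r : ℝ) := by exact_mod_cast h
    rw [← Real.cos_sub_two_pi]
    apply Real.cos_nonneg_of_neg_pi_div_two_le_of_le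
    · have : 3 / 2 * π ≤ 2 * π * (r : ℝ) / 2 ^ m := by
        rw [le_div_iff₀ h0]
        nlinarith [Real.pi_pos]
      linarith
    · have : 2 * π * (r : ℝ) / 2 ^ m ≤ 2 * π := by
        rw [div_le_iff₀ h0]
        nlinarith [Real.pi_pos]
      have := Real.pi_pos
      linarith

theorem cos_sign_neg (j m : ℕ) (h : ¬ (4 * (j % 2 ^ m) ≤ 2 ^ m ∨ 3 * 2 ^ m ≤ 4 * (j % 2 ^ m))) :
    Real.cos (2 * π * j / 2 ^ m) ≤ 0 := by
  rw [cos_mod]
  set r := j % 2 ^ m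
  have h0 : (0 : ℝ) < 2 ^ m := by positivity
  push Not at h
  obtain ⟨h1, h2⟩ := h
  have h1' : (2 : ℝ) ^ m ≤ 4 * (r : ℝ) := by exact_mod_cast h1.le
  have h2' : 4 * (r : ℝ) ≤ 3 * 2 ^ m := by exact_mod_cast h2.le
  apply Real.cos_nonpos_of_pi_div_two_le_of_le
  · rw [le_div_iff₀ h0]
    nlinarith [Real.pi_pos]
  · rw [div_le_iff₀ h0]
    nlinarith [Real.pi_pos]

theorem abs_sqrt_sub_sq (a b : ℝ) (ha : 0 ≤ a) (hb : 0 ≤ b) : |√a - √b| ^ 2 ≤ |a - b| := by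
  have h1 : a - b = (√a - √b) * (√a + √b) := by
    have := Real.sq_sqrt ha
    have := Real.sq_sqrt hb
    ring_nf
    linarith
  rw [h1, abs_mul, sq]
  apply mul_le_mul_of_nonneg_left _ (abs_nonneg _)
  have h3 := Real.sqrt_nonneg a
  have h4 := Real.sqrt_nonneg b
  rw [abs_of_nonneg (add_nonneg h3 h4)]
  rw [abs_le]
  constructor <;> linarith

theorem natSqrt_err (M B : ℕ) (hM : 0 < M) :
    |(Nat.sqrt (M * B) : ℝ) / M - √((B : ℝ) / M)| ≤ 1 / M := by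
  have hM' : (0 : ℝ) < M := by exact_mod_cast hM
  have h1 : (Nat.sqrt (M * B) : ℝ) ≤ √((M * B : ℕ) : ℝ) := Real.nat_sqrt_le_real_sqrt
  have h2 : √((M * B : ℕ) : ℝ) ≤ (Nat.sqrt (M * B) : ℝ) + 1 := Real.real_sqrt_le_nat_sqrt_succ
  have h3 : √((M * B : ℕ) : ℝ) = M * √((B : ℝ) / M) := by
    have : ((M * B : ℕ) : ℝ) = (M : ℝ) ^ 2 * ((B : ℝ) / M) := by
      push_cast; field_simp
    rw [this, Real.sqrt_mul (by positivity), Real.sqrt_sq hM'.le]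
  rw [h3] at h1 h2
  rw [abs_le]
  constructor
  · have : M * √((B : ℝ) / M) / M ≤ ((Nat.sqrt (M * B) : ℝ) + 1) / M :=
      div_le_div_of_nonneg_right h2 hM'.le
    rw [mul_div_cancel_left₀ _ hM'.ne', add_div] at this
    linarith
  · have : (Nat.sqrt (M * B) : ℝ) / M ≤ M * √((B : ℝ) / M) / M :=
      div_le_div_of_nonneg_right h1 hM'.le
    rw [mul_div_cancel_left₀ _ hM'.ne'] at this
    have h5 : 0 < 1 / (M : ℝ) := by positivity
    linarith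

theorem cosB_step (D j i : ℕ) :
    |(cosB D j (i + 1) : ℝ) / 2 ^ D - cosA j (i + 1)| ≤
      |√((cosB D j i : ℝ) / 2 ^ D) - √(cosA j i)| + 1 / 2 ^ D := by
  have hM : (0 : ℝ) < 2 ^ D := by positivity
  have herr := natSqrt_err (2 ^ D) (cosB D j i) (by positivity)
  push_cast at herr
  set s : ℕ := Nat.sqrt (2 ^ D * cosB D j i) with hs
  have hsle : s ≤ 2 * 2 ^ D := cosB_sqrt_le D _ (cosB_le D j i)
  have hsq := cosA_sq j i
  have key : √(cosA j i) = |2 * Real.cos (2 * π * j / 2 ^ (i + 1))| := by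
    rw [← hsq, Real.sqrt_sq_eq_abs]
  rw [cosB]
  split_ifs with h
  · have hpos := cos_sign_pos j (i + 1) h
    have h1 : √(cosA j i) = 2 * Real.cos (2 * π * j / 2 ^ (i + 1)) := by
      rw [key, abs_of_nonneg (by linarith)]
    have h2 : ((2 * 2 ^ D + s : ℕ) : ℝ) / 2 ^ D - cosA j (i + 1) =
        ((s : ℝ) / 2 ^ D - √((cosB D j i : ℝ) / 2 ^ D)) +
          (√((cosB D j i : ℝ) / 2 ^ D) - √(cosA j i)) := by
      rw [h1]
      unfold cosA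
      push_cast
      field_simp
      ring
    rw [h2]
    calc _ ≤ |(s : ℝ) / 2 ^ D - √((cosB D j i : ℝ) / 2 ^ D)| +
          |√((cosB D j i : ℝ) / 2 ^ D) - √(cosA j i)| := abs_add_le _ _
      _ ≤ _ := by linarith
  · have hneg := cos_sign_neg j (i + 1) h
    have h1 : √(cosA j i) = - (2 * Real.cos (2 * π * j / 2 ^ (i + 1))) := by
      rw [key, abs_of_nonpos (by linarith)]
    have h2 : ((2 * 2 ^ D - s : ℕ) : ℝ) / 2 ^ D - cosA j (i + 1) =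
        - (((s : ℝ) / 2 ^ D - √((cosB D j i : ℝ) / 2 ^ D)) +
          (√((cosB D j i : ℝ) / 2 ^ D) - √(cosA j i))) := by
      rw [h1]
      unfold cosA
      rw [Nat.cast_sub hsle]
      push_cast
      field_simp
      ring
    rw [h2, abs_neg]
    calc _ ≤ |(s : ℝ) / 2 ^ D - √((cosB D j i : ℝ) / 2 ^ D)| +
          |√((cosB D j i : ℝ) / 2 ^ D) - √(cosA j i)| := abs_add_le _ _
      _ ≤ _ := by linarith

theorem cosB_err (t j i : ℕ) (hi : i ≤ t) :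
    |(cosB (2 ^ t * (t + 3)) j i : ℝ) / 2 ^ (2 ^ t * (t + 3)) - cosA j i| ≤
      4 * ((1 / 2 : ℝ) ^ (t + 3)) ^ (2 ^ (t - i)) := by
  induction i with
  | zero =>
    rw [cosB, cosA_zero]
    push_cast
    rw [mul_div_assoc, div_self (by positivity)]
    simp
  | succ i ih =>
    have ih := ih (by omega)
    set D := 2 ^ t * (t + 3) with hD
    set δ : ℝ := (1 / 2 : ℝ) ^ (t + 3) with hδ
    have hδ0 : 0 < δ := by positivity
    have hδ1 : δ ≤ 1 := pow_le_one₀ (by norm_num) (by norm_num)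
    have e1 : 2 ^ (t - i) = 2 ^ (t - (i + 1)) * 2 := by
      rw [← pow_succ]; congr 1; omega
    set m := 2 ^ (t - (i + 1)) with hm
    have hb0 : (0 : ℝ) ≤ (cosB D j i : ℝ) / 2 ^ D := by positivity
    have h1 := abs_sqrt_sub_sq _ _ hb0 (cosA_nonneg j i)
    have h2 : |√((cosB D j i : ℝ) / 2 ^ D) - √(cosA j i)| ≤ 2 * δ ^ m := by
      apply abs_le_of_sq_le_sq' _ (by positivity) |>.2
      calc _ ≤ _ := h1
        _ ≤ _ := ih
        _ = (2 * δ ^ m) ^ 2 := by rw [e1, pow_mul]; ring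
    have h3 : (1 : ℝ) / 2 ^ D ≤ δ ^ m := by
      have : (1 : ℝ) / 2 ^ D = δ ^ (2 ^ t) := by
        rw [hδ, ← pow_mul, hD, one_div_pow]
        congr 2
        ring
      rw [this]
      apply pow_le_pow_of_le_one hδ0.le hδ1
      rw [hm]
      exact Nat.pow_le_pow_right (by norm_num) (by omega)
    calc _ ≤ _ := cosB_step D j i
      _ ≤ 2 * δ ^ m + δ ^ m := add_le_add h2 h3
      _ ≤ 4 * δ ^ m := by
        have : 0 < δ ^ m := by positivity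
        linarith

/-- Approximations of `2 ^ t * (2 + 2 * cos (2 * π * j / 2 ^ t))`. -/
def cosN (t j : ℕ) : ℕ := cosB (2 ^ t * (t + 3)) j t * 2 ^ t / 2 ^ (2 ^ t * (t + 3))

theorem natDiv_err (a b : ℕ) (hb : 0 < b) : |((a / b : ℕ) : ℝ) - (a : ℝ) / b| ≤ 1 := by
  have hb' : (0 : ℝ) < b := by exact_mod_cast hb
  have h1 : ((a / b : ℕ) : ℝ) ≤ (a : ℝ) / b := Nat.cast_div_le
  have h2 : (a : ℝ) / b < ((a / b : ℕ) : ℝ) + 1 := by
    rw [div_lt_iff₀ hb']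
    have := Nat.lt_mul_div_succ a hb
    have h3 : (a : ℝ) < b * ((a / b : ℕ) + 1 : ℕ) := by exact_mod_cast this
    push_cast at h3
    linarith
  rw [abs_le]
  constructor <;> linarith

theorem cosN_err (t j : ℕ) : |(cosN t j : ℝ) - 2 ^ t * cosA j t| ≤ 2 := by
  set D := 2 ^ t * (t + 3) with hD
  have h1 := natDiv_err (cosB D j t * 2 ^ t) (2 ^ D) (by positivity)
  have h2 := cosB_err t j t le_rfl
  rw [← hD, Nat.sub_self, pow_zero, pow_one] at h2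
  have h3 : (1 / 2 : ℝ) ^ (t + 3) = (1 / 2 : ℝ) ^ t / 8 := by rw [pow_add]; norm_num; ring
  have h4 : |(((cosB D j t * 2 ^ t : ℕ) : ℝ) / ((2 ^ D : ℕ) : ℝ)) - 2 ^ t * cosA j t| ≤ 1 := by
    have : (((cosB D j t * 2 ^ t : ℕ) : ℝ) / ((2 ^ D : ℕ) : ℝ)) - 2 ^ t * cosA j t =
        2 ^ t * ((cosB D j t : ℝ) / 2 ^ D - cosA j t) := by
      push_cast
      ring
    rw [this, abs_mul, abs_of_pos (by positivity)]
    calc (2 : ℝ) ^ t * |(cosB D j t : ℝ) / 2 ^ D - cosA j t|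
        ≤ 2 ^ t * (4 * (1 / 2 : ℝ) ^ (t + 3)) := mul_le_mul_of_nonneg_left h2 (by positivity)
      _ = (2 : ℝ) ^ t * (1 / 2 : ℝ) ^ t / 2 := by rw [h3]; ring
      _ ≤ 1 := by rw [← mul_pow]; norm_num
  unfold cosN
  rw [← hD]
  calc _ ≤ |(((cosB D j t * 2 ^ t / 2 ^ D : ℕ) : ℝ)) -
          ((cosB D j t * 2 ^ t : ℕ) : ℝ) / ((2 ^ D : ℕ) : ℝ)| +
        |((cosB D j t * 2 ^ t : ℕ) : ℝ) / ((2 ^ D : ℕ) : ℝ) - 2 ^ t * cosA j t| :=
        abs_sub_le _ _ _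
    _ ≤ 2 := by linarith

theorem cosN_le (t j : ℕ) : cosN t j ≤ 4 * 2 ^ t := by
  unfold cosN
  apply Nat.div_le_of_le_mul
  have := cosB_le (2 ^ t * (t + 3)) j t
  calc _ ≤ 4 * 2 ^ (2 ^ t * (t + 3)) * 2 ^ t := Nat.mul_le_mul_right _ this
    _ = _ := by ring

instance : PF (fun q : (ℕ × ℕ) × ℕ => cosB q.1.1 q.1.2 q.2) := by
  have h : PF (fun q : (ℕ × ℕ) × ℕ => (Nat.rec (motive := fun _ => ℕ) (4 * 2 ^ q.1.1)
      (fun i s => if 4 * (q.1.2 % 2 ^ (i + 1)) ≤ 2 ^ (i + 1) ∨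
          3 * 2 ^ (i + 1) ≤ 4 * (q.1.2 % 2 ^ (i + 1))
        then 2 * 2 ^ q.1.1 + Nat.sqrt (2 ^ q.1.1 * s)
        else 2 * 2 ^ q.1.1 - Nat.sqrt (2 ^ q.1.1 * s)) q.2 : ℕ)) :=
    PF.nat_rec (fun q : (ℕ × ℕ) × ℕ => q.2) _ (fun q i s =>
      if 4 * (q.1.2 % 2 ^ (i + 1)) ≤ 2 ^ (i + 1) ∨
          3 * 2 ^ (i + 1) ≤ 4 * (q.1.2 % 2 ^ (i + 1))
        then 2 * 2 ^ q.1.1 + Nat.sqrt (2 ^ q.1.1 * s)
        else 2 * 2 ^ q.1.1 - Nat.sqrt (2 ^ q.1.1 * s)) inferInstance inferInstance inferInstance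
  refine h.of_eq ?_
  rintro ⟨⟨D, j⟩, i⟩
  dsimp only
  induction i with
  | zero => rfl
  | succ i ih => rw [cosB, ← ih]

instance PF.cosN {α : Type*} [Primcodable α] (t j : α → ℕ) [ht : PF t] [hj : PF j] :
    PF (fun a => cosN (t a) (j a)) := by
  have h1 : PF (fun a => cosB (2 ^ t a * (t a + 3)) (j a) (t a)) :=
    PF.comp (f := fun q : (ℕ × ℕ) × ℕ => cosB q.1.1 q.1.2 q.2)
      (g := fun a => ((2 ^ t a * (t a + 3), j a), t a)) inferInstance inferInstance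
  unfold MP_5eff62_lc.cosN
  infer_instance

end Pool.Agent.MP_5eff62_lc
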